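import Pool.Agent.Y797.Q2.St2

/-!
# Project Q2, job ARITH (helper139): the base field for the second example
-/

set_option autoImplicit false

namespace Pool.Agent.Y797.Q2

open Polynomial

private lemma z5a : ∀ x y : ZMod 5, x ^ 2 - 2 * y ^ 2 = 0 → x = 0 ∧ y = 0 := by decide

private lemma no_sol {u : ZMod 5} (hu : u ≠ 0) : ∀ (n : ℕ) (f g h : (ZMod 5)[X]),
    h.natDegree ≤ n → f ^ 2 - 2 * g ^ 2 = C u * X * h ^ 2 → h = 0 := by
  have : Fact (Nat.Prime 5) := ⟨by norm_num⟩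
  intro n
  induction n with
  | zero =>
    intro f g h hn e
    by_contra hh
    have e0 := congrArg (fun p : (ZMod 5)[X] => p.eval 0) e
    simp only [eval_sub, eval_mul, eval_pow, eval_X, eval_C, eval_ofNat, mul_zero, zero_mul] at e0
    obtain ⟨f0, g0⟩ := z5a _ _ e0
    obtain ⟨f1, rfl⟩ := X_dvd_iff.2 (by rwa [coeff_zero_eq_eval_zero] : f.coeff 0 = 0)
    obtain ⟨g1, rfl⟩ := X_dvd_iff.2 (by rwa [coeff_zero_eq_eval_zero] : g.coeff 0 = 0)
    have e1 : X * (f1 ^ 2 - 2 * g1 ^ 2) = C u * h ^ 2 := by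
      have : X * (X * (f1 ^ 2 - 2 * g1 ^ 2)) = X * (C u * h ^ 2) := by
        linear_combination e
      exact mul_left_cancel₀ X_ne_zero this
    have e2 := congrArg (fun p : (ZMod 5)[X] => p.eval 0) e1
    simp only [eval_mul, eval_X, eval_C, eval_pow, zero_mul] at e2
    have e3 : h.eval 0 = 0 := by
      rcases mul_eq_zero.1 e2.symm with h5 | h5
      · exact absurd h5 hu
      · exact pow_eq_zero_iff (two_ne_zero) |>.1 h5
    have e4 := eq_C_of_natDegree_le_zero hn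
    rw [e4, eval_C] at e3
    rw [e3, C_0] at e4
    exact hh e4
  | succ n ih =>
    intro f g h hn e
    have e0 := congrArg (fun p : (ZMod 5)[X] => p.eval 0) e
    simp only [eval_sub, eval_mul, eval_pow, eval_X, eval_C, eval_ofNat, mul_zero, zero_mul] at e0
    obtain ⟨f0, g0⟩ := z5a _ _ e0
    obtain ⟨f1, rfl⟩ := X_dvd_iff.2 (by rwa [coeff_zero_eq_eval_zero] : f.coeff 0 = 0)
    obtain ⟨g1, rfl⟩ := X_dvd_iff.2 (by rwa [coeff_zero_eq_eval_zero] : g.coeff 0 = 0)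
    have e1 : X * (f1 ^ 2 - 2 * g1 ^ 2) = C u * h ^ 2 := by
      have : X * (X * (f1 ^ 2 - 2 * g1 ^ 2)) = X * (C u * h ^ 2) := by
        linear_combination e
      exact mul_left_cancel₀ X_ne_zero this
    have e2 := congrArg (fun p : (ZMod 5)[X] => p.eval 0) e1
    simp only [eval_mul, eval_X, eval_C, eval_pow, zero_mul] at e2
    have e3 : h.eval 0 = 0 := by
      rcases mul_eq_zero.1 e2.symm with h5 | h5
      · exact absurd h5 hu
      · exact pow_eq_zero_iff (two_ne_zero) |>.1 h5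
    obtain ⟨h1, rfl⟩ := X_dvd_iff.2 (by rwa [coeff_zero_eq_eval_zero] : h.coeff 0 = 0)
    have e4 : f1 ^ 2 - 2 * g1 ^ 2 = C u * X * h1 ^ 2 := by
      have : X * (f1 ^ 2 - 2 * g1 ^ 2) = X * (C u * X * h1 ^ 2) := by
        linear_combination e1
      exact mul_left_cancel₀ X_ne_zero this
    by_cases hz : h1 = 0
    · rw [hz, mul_zero]
    have hd : h1.natDegree ≤ n := by
      have : (X * h1).natDegree = h1.natDegree + 1 := by
        rw [natDegree_mul X_ne_zero hz, natDegree_X, add_comm]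
      omega
    rw [ih f1 g1 h1 hd e4, mul_zero]

private lemma no_sqrt : ∀ (f h : (ZMod 5)[X]), f ^ 2 = 2 * h ^ 2 → h = 0 := by
  have : Fact (Nat.Prime 5) := ⟨by norm_num⟩
  intro f h e
  by_contra hh
  have h2 : (2 : (ZMod 5)[X]) = C 2 := by rw [C_ofNat]
  have hl := congrArg leadingCoeff e
  rw [h2, leadingCoeff_pow, leadingCoeff_mul, leadingCoeff_C, leadingCoeff_pow] at hl
  have := (z5a f.leadingCoeff h.leadingCoeff (by rw [hl, sub_self])).2
  exact hh (leadingCoeff_eq_zero.1 this)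

private lemma two_sq {K : Type} [Field K] [Algebra (ZMod 5)[X] K] [IsFractionRing (ZMod 5)[X] K]
    (s : K) : s ^ 2 ≠ 2 := by
  have : Fact (Nat.Prime 5) := ⟨by norm_num⟩
  intro e
  obtain ⟨⟨f, h⟩, e1⟩ := IsLocalization.surj (nonZeroDivisors (ZMod 5)[X]) s
  have h0 : (h : (ZMod 5)[X]) ≠ 0 := nonZeroDivisors.ne_zero h.2
  have e2 : algebraMap (ZMod 5)[X] K (f ^ 2) =
      algebraMap (ZMod 5)[X] K (2 * (h : (ZMod 5)[X]) ^ 2) := by
    rw [map_pow, map_mul, map_pow, map_ofNat, ← e1, ← e]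
    ring
  exact h0 (no_sqrt f h (IsFractionRing.injective (ZMod 5)[X] K e2))

private lemma norm_ne {K : Type} [Field K] [Algebra (ZMod 5)[X] K] [IsFractionRing (ZMod 5)[X] K]
    {u : ZMod 5} (hu : u ≠ 0) (s t : K) :
    s ^ 2 - 2 * t ^ 2 ≠ algebraMap (ZMod 5)[X] K (C u * X) := by
  have : Fact (Nat.Prime 5) := ⟨by norm_num⟩
  intro e
  obtain ⟨⟨f, h⟩, e1⟩ := IsLocalization.surj (nonZeroDivisors (ZMod 5)[X]) s
  obtain ⟨⟨f', h'⟩, e1'⟩ := IsLocalization.surj (nonZeroDivisors (ZMod 5)[X]) t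
  have h0 : (h : (ZMod 5)[X]) ≠ 0 := nonZeroDivisors.ne_zero h.2
  have h0' : (h' : (ZMod 5)[X]) ≠ 0 := nonZeroDivisors.ne_zero h'.2
  have e2 : algebraMap (ZMod 5)[X] K ((f * (h' : (ZMod 5)[X])) ^ 2 - 2 * (f' * (h : (ZMod 5)[X])) ^ 2) =
      algebraMap (ZMod 5)[X] K (C u * X * ((h : (ZMod 5)[X]) * (h' : (ZMod 5)[X])) ^ 2) := by
    rw [map_mul, ← e]
    simp only [map_sub, map_mul, map_pow, map_ofNat]
    rw [← e1, ← e1']
    ring
  have e3 := no_sol hu _ _ _ _ le_rfl (IsFractionRing.injective (ZMod 5)[X] K e2)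
  exact mul_ne_zero h0 h0' e3

/-- The statement `StArith`. -/
theorem arith0 : ∃ (k : Type) (_ : Field k) (i c a : k), Infinite k ∧ (2 : k) ≠ 0 ∧
  i ^ 2 = -1 ∧ (∀ s : k, s ^ 2 ≠ c) ∧ a ≠ 0 ∧
  ∀ e0 e1 : k, e0 ^ 2 - c * e1 ^ 2 ≠ a ∧ e0 ^ 2 - c * e1 ^ 2 ≠ -a := by
  have : Fact (Nat.Prime 5) := ⟨by norm_num⟩
  have inj : Function.Injective (algebraMap (ZMod 5)[X] (FractionRing (ZMod 5)[X])) :=
    IsFractionRing.injective _ _
  have z5 : (5 : ZMod 5) = 0 := rfl
  have h5 : (5 : FractionRing (ZMod 5)[X]) = 0 := by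
    have h1 : (5 : (ZMod 5)[X]) = 0 := by rw [← C_ofNat, z5, C_0]
    have h2 := congrArg (algebraMap (ZMod 5)[X] (FractionRing (ZMod 5)[X])) h1
    rwa [map_ofNat, map_zero] at h2
  refine ⟨FractionRing (ZMod 5)[X], inferInstance, 2, 2,
    algebraMap (ZMod 5)[X] (FractionRing (ZMod 5)[X]) X, ?_, ?_, ?_, ?_, ?_, ?_⟩
  · exact Infinite.of_injective _ inj
  · intro h2
    have h3 : (1 : FractionRing (ZMod 5)[X]) = 0 := by linear_combination h5 - 2 * h2
    exact one_ne_zero h3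
  · linear_combination h5
  · exact two_sq
  · rw [Ne, map_eq_zero_iff _ inj]
    exact X_ne_zero
  · intro s t
    constructor
    · have h1 := norm_ne (K := FractionRing (ZMod 5)[X]) (u := 1) one_ne_zero s t
      rwa [C_1, one_mul] at h1
    · have h1 := norm_ne (K := FractionRing (ZMod 5)[X]) (u := -1) (neg_ne_zero.2 one_ne_zero) s t
      rwa [C_neg, C_1, neg_one_mul, map_neg] at h1

/-- The base field for the second example. -/
theorem stArith : StArith := arith0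

end Pool.Agent.Y797.Q2
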