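import Pool.Agent.Y797.Q2.St3

/-!
# Project Q2: the arithmetic over the rational numbers (by helper43)
-/

set_option autoImplicit false

namespace Pool.Agent.Y797.Q2

lemma descentQ (ε : ℤ) (hε : ε = 1 ∨ ε = -1) : ∀ (n : ℕ) (x y z : ℤ), z.natAbs ≤ n →
    x ^ 2 - 2 * y ^ 2 = 3 * (ε * z ^ 2) → z = 0 := by
  intro n
  induction n with
  | zero =>
    intro x y z hz _
    exact Int.natAbs_eq_zero.1 (Nat.le_zero.1 hz)
  | succ n ih =>
    intro x y z hz h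
    have hxy : (3 : ℤ) ∣ x ∧ (3 : ℤ) ∣ y := by
      have h3 : (x ^ 2 - 2 * y ^ 2) % 3 = 0 := by
        rw [h]
        exact Int.mul_emod_right 3 _
      have e : x ^ 2 - 2 * y ^ 2 ≡ (x % 3) ^ 2 - 2 * (y % 3) ^ 2 [ZMOD 3] :=
        Int.ModEq.sub ((Int.mod_modEq x 3).symm.pow 2) (((Int.mod_modEq y 3).symm.pow 2).mul_left 2)
      unfold Int.ModEq at e
      rw [h3] at e
      have hx : x % 3 = 0 ∨ x % 3 = 1 ∨ x % 3 = 2 := by omega
      have hy : y % 3 = 0 ∨ y % 3 = 1 ∨ y % 3 = 2 := by omega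
      rcases hx with hx | hx | hx <;> rcases hy with hy | hy | hy <;> rw [hx, hy] at e <;>
        first
          | exact ⟨Int.dvd_of_emod_eq_zero hx, Int.dvd_of_emod_eq_zero hy⟩
          | exact absurd e (by norm_num)
    obtain ⟨⟨a, rfl⟩, ⟨b, rfl⟩⟩ := hxy
    have h4 : 3 * (a ^ 2 - 2 * b ^ 2) = ε * z ^ 2 := by
      have h3 : (3 : ℤ) * (3 * (a ^ 2 - 2 * b ^ 2)) = 3 * (ε * z ^ 2) := by
        rw [← h]
        ring
      exact mul_left_cancel₀ (by norm_num) h3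
    have h5 : (3 : ℤ) ∣ z ^ 2 := by
      rcases hε with he | he
      · exact ⟨a ^ 2 - 2 * b ^ 2, by rw [h4, he]; ring⟩
      · exact ⟨-(a ^ 2 - 2 * b ^ 2), by rw [mul_neg, h4, he]; ring⟩
    have h6 : (3 : ℤ) ∣ z := Int.prime_three.dvd_of_dvd_pow h5
    obtain ⟨c, rfl⟩ := h6
    have h7 : a ^ 2 - 2 * b ^ 2 = 3 * (ε * c ^ 2) := by
      have h8 : (3 : ℤ) * (a ^ 2 - 2 * b ^ 2) = 3 * (3 * (ε * c ^ 2)) := by
        rw [h4]
        ring
      exact mul_left_cancel₀ (by norm_num) h8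
    by_cases hc : c = 0
    · rw [hc]
      norm_num
    · exfalso
      have h9 : c.natAbs ≤ n := by
        rw [Int.natAbs_mul] at hz
        have h10 : 0 < c.natAbs := Int.natAbs_pos.2 hc
        have h11 : (3 : ℤ).natAbs = 3 := rfl
        rw [h11] at hz
        omega
      exact hc (ih a b c h9 h7)

lemma noRepQ (ε : ℤ) (hε : ε = 1 ∨ ε = -1) (e0 e1 : ℚ) :
    e0 ^ 2 - 2 * e1 ^ 2 ≠ 3 * (ε : ℚ) := by
  intro h
  have h1 : ((e0.num * e1.den : ℤ) : ℚ) ^ 2 - 2 * ((e1.num * e0.den : ℤ) : ℚ) ^ 2 =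
      3 * ((ε : ℚ) * ((e0.den * e1.den : ℤ) : ℚ) ^ 2) := by
    push_cast
    rw [← Rat.mul_den_eq_num e0, ← Rat.mul_den_eq_num e1]
    linear_combination ((e0.den : ℚ) * e1.den) ^ 2 * h
  have h2 : (e0.num * e1.den : ℤ) ^ 2 - 2 * (e1.num * e0.den : ℤ) ^ 2 =
      3 * (ε * ((e0.den : ℤ) * e1.den) ^ 2) := by
    exact_mod_cast h1
  have h3 := descentQ ε hε _ _ _ _ le_rfl h2
  have h4 : ((e0.den : ℤ) * e1.den) ≠ 0 := by
    have := e0.den_pos
    have := e1.den_pos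
    positivity
  exact h4 h3

theorem stArithQ : StArithQ := by
  refine ⟨fun s hs => ?_, fun e0 e1 => ⟨?_, ?_⟩⟩
  · apply irrational_sqrt_two
    refine ⟨|s|, ?_⟩
    have h1 : ((s : ℝ)) ^ 2 = 2 := by exact_mod_cast hs
    rw [← h1, Real.sqrt_sq_eq_abs]
    push_cast
    rfl
  · have := noRepQ 1 (Or.inl rfl) e0 e1
    simpa using this
  · have := noRepQ (-1) (Or.inr rfl) e0 e1
    intro h
    apply this
    rw [h]
    norm_num

end Pool.Agent.Y797.Q2
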