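import Pool.Agent.Y797.Q2.Core
import Pool.Agent.TH132.W.Sch

/-!
# Points of the curve
-/

set_option autoImplicit false

noncomputable section

namespace Pool.Agent.Y797.Q2

open Polynomial IsLocalRing AlgebraicGeometry Pool.Agent.TH132.W

universe u v

/-- The rational function `a` is a unit at all points of `X` whose local ring is a discrete
valuation ring; for smooth `X` over a field these are the points of codimension one, and the
functions of this kind form `K¹_{M,ur}(X)`. -/
def UnramK1 (X : Scheme.{u}) [IsIntegral X] (a : (X.functionField)ˣ) : Prop :=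
  ∀ (x : X) [IsDiscreteValuationRing (X.presheaf.stalk x)],
    ∃ v : (X.presheaf.stalk x)ˣ, (a : X.functionField) =
      algebraMap (X.presheaf.stalk x) X.functionField v

section Abs

variable {k : Type} [Field k] {A : CommRingCat.{0}} [IsDomain A]
  [Algebra k[X] (Spec A).functionField] [IsFractionRing k[X] (Spec A).functionField]

theorem pt_exists (hPt : StPt) {Q π : k[X]} (hQ : Q.natDegree ≤ 2) (hi : Irreducible π)
    (hnd : ¬ π ∣ Q)
    (hA : ∀ z : (Spec A).functionField,
      (∃ a : A, algebraMap A (Spec A).functionField a = z) ↔ Mem0 (Spec A).functionField Q z) :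
    ∃ (y : Spec A) (_ : IsDiscreteValuationRing ((Spec A).presheaf.stalk y))
      (e : (Spec A).presheaf.stalk y ≃+* Oloc (Spec A).functionField π hi),
      ∀ z, ((e z : Oloc (Spec A).functionField π hi) : (Spec A).functionField) =
        algebraMap ((Spec A).presheaf.stalk y) (Spec A).functionField z := by
  obtain ⟨P, hP, h⟩ := hPt k (Spec A).functionField Q π hQ hi hnd A hA
  let y : Spec A := (⟨P, hP⟩ : PrimeSpectrum A)
  letI := stAlg A y
  haveI := stTower A y
  haveI : IsLocalization.AtPrime ((Spec A).presheaf.stalk y) P := stLoc A P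
  obtain ⟨e, he⟩ := h ((Spec A).presheaf.stalk y)
  exact ⟨y, IsDiscreteValuationRing.RingEquivClass.isDiscreteValuationRing e.symm, e, he⟩

theorem unram_pt (hPt : StPt) (hE : StEquiv) {Q π : k[X]} (hQ : Q.natDegree ≤ 2)
    (hi : Irreducible π) (hnd : ¬ π ∣ Q)
    (hA : ∀ z : (Spec A).functionField,
      (∃ a : A, algebraMap A (Spec A).functionField a = z) ↔ Mem0 (Spec A).functionField Q z)
    (γ : MilnorK2 (Spec A).functionField) (hγ : UnramK2 (Spec A) γ) :
    tame (Spec A).functionField (pol (Spec A).functionField π hi)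
      (pol_irreducible (Spec A).functionField π hi) γ = 0 := by
  obtain ⟨y, hD, e, he⟩ := pt_exists hPt hQ hi hnd hA
  have hirr : Irreducible (e.symm (pol (Spec A).functionField π hi)) :=
    (MulEquiv.irreducible_iff e.symm).2 (pol_irreducible (Spec A).functionField π hi)
  obtain ⟨τ, hτ, h0⟩ := hγ y (e.symm (pol (Spec A).functionField π hi)) hirr
  rw [tame_uniq _ hirr hτ] at h0
  exact hE _ _ _ e he _ hirr _ _ γ h0

theorem unram1_pt (hPt : StPt) {Q π : k[X]} (hQ : Q.natDegree ≤ 2)
    (hi : Irreducible π) (hnd : ¬ π ∣ Q)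
    (hA : ∀ z : (Spec A).functionField,
      (∃ a : A, algebraMap A (Spec A).functionField a = z) ↔ Mem0 (Spec A).functionField Q z)
    (a : ((Spec A).functionField)ˣ) (ha : UnramK1 (Spec A) a) :
    ord (Spec A).functionField (pol (Spec A).functionField π hi)
      (pol_irreducible (Spec A).functionField π hi) a = 0 := by
  obtain ⟨y, hD, e, he⟩ := pt_exists hPt hQ hi hnd hA
  obtain ⟨v, hv⟩ := ha y
  exact ord_of_eq _ _ _ (e v) (v.isUnit.map e) (by rw [hv, ← he]; rfl)

/-- The point `t = 0`. -/
theorem zero_pt (hPt : StPt) {Q : k[X]} (hQ : Q.natDegree ≤ 2) (hnd : ¬ X ∣ Q)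
    (hA : ∀ z : (Spec A).functionField,
      (∃ a : A, algebraMap A (Spec A).functionField a = z) ↔ Mem0 (Spec A).functionField Q z) :
    ∃ (y : Spec A) (_ : IsDiscreteValuationRing ((Spec A).presheaf.stalk y))
      (ϖ : (Spec A).presheaf.stalk y) (_ : Irreducible ϖ) (q : ((Spec A).presheaf.stalk y)ˣ),
      algebraMap ((Spec A).presheaf.stalk y) (Spec A).functionField ϖ =
        tv (F := k) (Spec A).functionField ∧
      algebraMap ((Spec A).presheaf.stalk y) (Spec A).functionField q =
        algebraMap k[X] (Spec A).functionField Q := by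
  have hX := irreducible_X (R := k)
  obtain ⟨y, hD, e, he⟩ := pt_exists hPt hQ hX hnd hA
  have hirr : Irreducible (e.symm (pol (Spec A).functionField X hX)) :=
    (MulEquiv.irreducible_iff e.symm).2 (pol_irreducible (Spec A).functionField X hX)
  have hu : IsUnit (e.symm (algebraMap k[X] (Oloc (Spec A).functionField X hX) Q)) := by
    refine IsUnit.map e.symm (isUnit_of_rho_ne (Spec A).functionField X hX ?_)
    rw [Ne, rho_eq_zero]
    exact hnd
  refine ⟨y, hD, _, hirr, hu.unit, ?_, ?_⟩
  · rw [← he, RingEquiv.apply_symm_apply]; rfl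
  · rw [← he, IsUnit.unit_spec, RingEquiv.apply_symm_apply]; rfl

end Abs

theorem ord_neg_two {R K : Type} [CommRing R] [IsDomain R] [IsDiscreteValuationRing R]
    [Field K] [Algebra R K] [IsFractionRing R K] (ϖ : R) (hϖ : Irreducible ϖ) (p : Kˣ) (q : Rˣ)
    (h : (p : K) * algebraMap R K ϖ ^ 2 = algebraMap R K q) : ord K ϖ hϖ p = -2 := by
  have h0 : algebraMap R K ϖ ≠ 0 :=
    (map_ne_zero_iff _ (IsFractionRing.injective R K)).2 hϖ.ne_zero
  have : p = piU K ϖ hϖ ^ (-2 : ℤ) * Units.map (algebraMap R K : R →* K) q := by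
    ext
    rw [piU_mk, ← h, zpow_neg]
    have h1 : (2 : ℤ) = ((2 : ℕ) : ℤ) := rfl
    rw [h1, zpow_natCast]
    field_simp
  rw [this, ord_mk]

theorem eq_of_inv_mul_one {K : Type} [Field K] (P w : K) (hP : P ≠ 0) (h : P⁻¹ * w = 1) :
    w = P := by
  rw [inv_mul_eq_iff_eq_mul₀ hP, mul_one] at h
  exact h

theorem inv_aux {K : Type} [Field K] (P c t w : K) (hP : P ≠ 0) (ht : t ≠ 0) (h : t ^ 2 = P + c)
    (hw : (1 + c * P⁻¹) * w = 1) : t * P⁻¹ * w = t⁻¹ := by
  have h1 : (P + c) * w = P := by
    have h2 : (1 + c * P⁻¹) = (P + c) * P⁻¹ := by field_simp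
    rw [h2] at hw
    field_simp at hw
    linear_combination hw
  rw [← h] at h1
  field_simp
  linear_combination h1

theorem rel_aux {K : Type} [Field K] (P c t : K) (hP : P ≠ 0) (h : t ^ 2 = P + c) :
    (t * P⁻¹) ^ 2 = P⁻¹ * (1 + c * P⁻¹) := by
  rw [mul_pow, h]
  field_simp

section Abs2

variable {k : Type} [Field k] {A : CommRingCat.{0}} [IsDomain A]
  [Algebra k[X] (Spec A).functionField] [IsFractionRing k[X] (Spec A).functionField] (c : k)

/-- The point at infinity. -/
theorem inf_pt (hPt : StPt) (hSw : StSwap)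
    (hA : ∀ z : (Spec A).functionField,
      (∃ a : A, algebraMap A (Spec A).functionField a = z) ↔ Mem0 (Spec A).functionField (P0 c) z) :
    ∃ (y : Spec A) (_ : IsDiscreteValuationRing ((Spec A).presheaf.stalk y))
      (ϖ : (Spec A).presheaf.stalk y) (hϖ : Irreducible ϖ),
      algebraMap ((Spec A).presheaf.stalk y) (Spec A).functionField ϖ =
        (tv (F := k) (Spec A).functionField)⁻¹ ∧
      ord (Spec A).functionField ϖ hϖ (pu _ (P0 c) (P0_ne c)) = -2 := by
  obtain ⟨hfr, hm⟩ := hSw k (Spec A).functionField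
  have hnd : ¬ X ∣ Q0 c := by
    rw [X_dvd_iff]; simp [Q0]
  obtain ⟨y, hD, ϖ, hϖ, q, h1, h2⟩ := @zero_pt k _ A _ (alg2 k (Spec A).functionField) hfr hPt
    (Q0 c) (Q0_deg c) hnd (fun z => (hA z).trans (hm c z).symm)
  have h3 : algebraMap ((Spec A).presheaf.stalk y) (Spec A).functionField ϖ =
      (tv (F := k) (Spec A).functionField)⁻¹ := by
    rw [h1]
    exact eval₂_X _ _
  refine ⟨y, hD, ϖ, hϖ, h3, ord_neg_two ϖ hϖ _ q ?_⟩
  have h4 : algebraMap ((Spec A).presheaf.stalk y) (Spec A).functionField q =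
      1 - cK (F := k) _ c * ((tv (F := k) (Spec A).functionField)⁻¹) ^ 2 := by
    rw [h2]
    change eval₂ _ _ (Q0 c) = _
    simp [Q0]
  have h5 := tv_ne (F := k) (Spec A).functionField
  have h6 : ((pu (Spec A).functionField (P0 c) (P0_ne c) : ((Spec A).functionField)ˣ) :
      (Spec A).functionField) = tv (F := k) (Spec A).functionField ^ 2 - cK (F := k) _ c := by
    change algebraMap _ _ (P0 c) = _
    simp only [P0, map_sub, map_pow]
    rfl
  rw [h3, h4, h6]
  field_simp

/-- The polynomial has even order everywhere. -/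
theorem even_pt (hEv : StEven)
    (hA : ∀ z : (Spec A).functionField,
      (∃ a : A, algebraMap A (Spec A).functionField a = z) ↔ Mem0 (Spec A).functionField (P0 c) z)
    (y : Spec A) [IsDiscreteValuationRing ((Spec A).presheaf.stalk y)]
    (ϖ : (Spec A).presheaf.stalk y) (hϖ : Irreducible ϖ) :
    Even (ord (Spec A).functionField ϖ hϖ (pu _ (P0 c) (P0_ne c))) := by
  letI := stAlg A y
  haveI := stTower A y
  set L := (Spec A).functionField with hL
  have h0 : algebraMap k[X] L (P0 c) ≠ 0 := algebraMap_ne L (P0_ne c)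
  obtain ⟨u, hu⟩ := (hA (algebraMap k[X] L (P0 c))⁻¹).2 ⟨1, 1, by simp, by
    rw [pow_one, inv_mul_cancel₀ h0, map_one]⟩
  obtain ⟨v, hv⟩ := (hA (tv (F := k) L * (algebraMap k[X] L (P0 c))⁻¹)).2 ⟨1, X, by simp, by
    rw [pow_one, mul_assoc, inv_mul_cancel₀ h0, mul_one]; rfl⟩
  obtain ⟨c', hc'⟩ := (hA (cK (F := k) L c)).2 ⟨0, C c, by simp, by rw [pow_zero, mul_one]; rfl⟩
  have hrel : v ^ 2 = u * (1 + c' * u) := by
    apply IsFractionRing.injective A L
    rw [map_pow, map_mul, map_add, map_mul, map_one, hu, hv, hc']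
    have h6 : algebraMap k[X] L (P0 c) = tv (F := k) L ^ 2 - cK (F := k) L c := by
      simp only [P0, map_sub, map_pow]
      rfl
    have h7 : tv (F := k) L ^ 2 = algebraMap k[X] L (P0 c) + cK (F := k) L c := by
      rw [h6]; ring
    exact rel_aux _ _ _ h0 h7
  refine hEv ((Spec A).presheaf.stalk y) L ϖ hϖ (algebraMap A _ u) (algebraMap A _ v)
    (algebraMap A _ c') _ ?_ ?_
  · rw [← map_pow, hrel]
    simp only [map_mul, map_add, map_one]
  · rw [← IsScalarTower.algebraMap_apply A ((Spec A).presheaf.stalk y) L, hu]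
    exact mul_inv_cancel₀ h0

/-- At every point of the curve, either `t` is regular or `1 / t` lies in the maximal ideal. -/
theorem dich (hA : ∀ z : (Spec A).functionField,
      (∃ a : A, algebraMap A (Spec A).functionField a = z) ↔ Mem0 (Spec A).functionField (P0 c) z)
    (y : Spec A) [IsDiscreteValuationRing ((Spec A).presheaf.stalk y)] :
    (∃ r u : (Spec A).presheaf.stalk y,
      algebraMap ((Spec A).presheaf.stalk y) (Spec A).functionField r =
        tv (F := k) (Spec A).functionField ∧
      algebraMap ((Spec A).presheaf.stalk y) (Spec A).functionField u *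
        algebraMap k[X] (Spec A).functionField (P0 c) = 1 ∧ IsUnit u) ∨
    (∃ r : (Spec A).presheaf.stalk y, r ∈ maximalIdeal ((Spec A).presheaf.stalk y) ∧
      algebraMap ((Spec A).presheaf.stalk y) (Spec A).functionField r =
        (tv (F := k) (Spec A).functionField)⁻¹) := by
  let _ := stAlg A y
  have := stTower A y
  set L := (Spec A).functionField with hL
  have h0 : algebraMap k[X] L (P0 c) ≠ 0 := algebraMap_ne L (P0_ne c)
  have ht := tv_ne (F := k) L
  obtain ⟨u, hu⟩ := (hA (algebraMap k[X] L (P0 c))⁻¹).2 ⟨1, 1, by simp, by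
    rw [pow_one, inv_mul_cancel₀ h0, map_one]⟩
  obtain ⟨v, hv⟩ := (hA (tv (F := k) L * (algebraMap k[X] L (P0 c))⁻¹)).2 ⟨1, X, by simp, by
    rw [pow_one, mul_assoc, inv_mul_cancel₀ h0, mul_one]; rfl⟩
  obtain ⟨c', hc'⟩ := (hA (cK (F := k) L c)).2 ⟨0, C c, by simp, by rw [pow_zero, mul_one]; rfl⟩
  have h6 : algebraMap k[X] L (P0 c) = tv (F := k) L ^ 2 - cK (F := k) L c := by
    simp only [P0, map_sub, map_pow]
    rfl
  have h7 : tv (F := k) L ^ 2 = algebraMap k[X] L (P0 c) + cK (F := k) L c := by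
    rw [h6]; ring
  have hrel : v ^ 2 = u * (1 + c' * u) := by
    apply IsFractionRing.injective A L
    rw [map_pow, map_mul, map_add, map_mul, map_one, hu, hv, hc']
    exact rel_aux _ _ _ h0 h7
  have hu' : algebraMap ((Spec A).presheaf.stalk y) L (algebraMap A _ u) =
      (algebraMap k[X] L (P0 c))⁻¹ := by
    rw [← IsScalarTower.algebraMap_apply A ((Spec A).presheaf.stalk y) L, hu]
  have hv' : algebraMap ((Spec A).presheaf.stalk y) L (algebraMap A _ v) =
      tv (F := k) L * (algebraMap k[X] L (P0 c))⁻¹ := by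
    rw [← IsScalarTower.algebraMap_apply A ((Spec A).presheaf.stalk y) L, hv]
  have hc'' : algebraMap ((Spec A).presheaf.stalk y) L (algebraMap A _ c') =
      cK (F := k) L c := by
    rw [← IsScalarTower.algebraMap_apply A ((Spec A).presheaf.stalk y) L, hc']
  by_cases hun : IsUnit (algebraMap A ((Spec A).presheaf.stalk y) u)
  · left
    obtain ⟨w, hw⟩ := isUnit_iff_exists_inv.1 hun
    refine ⟨algebraMap A _ v * w, algebraMap A _ u, ?_, ?_, hun⟩
    · have h8 : algebraMap ((Spec A).presheaf.stalk y) L w = algebraMap k[X] L (P0 c) := by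
        have h9 := congrArg (algebraMap ((Spec A).presheaf.stalk y) L) hw
        rw [map_mul, map_one, hu'] at h9
        exact (eq_of_inv_mul_one _ _ h0 h9)
      rw [map_mul, hv', h8, mul_assoc, inv_mul_cancel₀ h0, mul_one]
    · rw [hu', inv_mul_cancel₀ h0]
  · right
    have hum : algebraMap A ((Spec A).presheaf.stalk y) u ∈
        maximalIdeal ((Spec A).presheaf.stalk y) := (mem_maximalIdeal _).2 hun
    have hvm : algebraMap A ((Spec A).presheaf.stalk y) v ∈
        maximalIdeal ((Spec A).presheaf.stalk y) := by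
      refine (maximalIdeal.isMaximal ((Spec A).presheaf.stalk y)).isPrime.mem_of_pow_mem 2 ?_
      rw [← map_pow, hrel, map_mul]
      exact Ideal.mul_mem_right _ _ hum
    have h1u : IsUnit (1 + algebraMap A ((Spec A).presheaf.stalk y) c' *
        algebraMap A ((Spec A).presheaf.stalk y) u) := by
      by_contra hcon
      have h8 : (1 + algebraMap A ((Spec A).presheaf.stalk y) c' *
        algebraMap A ((Spec A).presheaf.stalk y) u) ∈
          maximalIdeal ((Spec A).presheaf.stalk y) := (mem_maximalIdeal _).2 hcon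
      have h9 := Ideal.sub_mem _ h8 (Ideal.mul_mem_left _
        (algebraMap A ((Spec A).presheaf.stalk y) c') hum)
      rw [add_sub_cancel_right] at h9
      exact (Ideal.ne_top_iff_one _).1 (maximalIdeal.isMaximal _).ne_top h9
    obtain ⟨w, hw⟩ := isUnit_iff_exists_inv.1 h1u
    refine ⟨algebraMap A _ v * w, Ideal.mul_mem_right _ _ hvm, ?_⟩
    have h9 := congrArg (algebraMap ((Spec A).presheaf.stalk y) L) hw
    rw [map_mul, map_one, map_add, map_mul, map_one, hu', hc''] at h9
    rw [map_mul, hv']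
    exact inv_aux _ _ _ _ h0 ht h7 h9

end Abs2

end Pool.Agent.Y797.Q2
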