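import Pool.Agent.TH132.W.Spec0
import Pool.Agent.TH132.W.K2

/-!
# The affine conic as a subring of the rational function field

For a polynomial `Q` of degree at most two, `A0 K Q` is the ring of the fractions `f / Q ^ n` with
`deg f ≤ 2 n`: the ring of functions on the projective line without the zeros of `Q`.
-/

set_option autoImplicit false

noncomputable section

namespace Pool.Agent.Y797.Q2

open Polynomial IsLocalRing Pool.Agent.TH132.W

universe u v

section Base

variable {F : Type u} (K : Type v) [Field F] [Field K] [Algebra F[X] K] [IsFractionRing F[X] K]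

/-- Membership in the ring of functions on the projective line without the zeros of `Q`. -/
def Mem0 (Q : F[X]) (z : K) : Prop :=
  ∃ (n : ℕ) (f : F[X]), f.natDegree ≤ 2 * n ∧
    z * algebraMap F[X] K Q ^ n = algebraMap F[X] K f

/-- The ring of functions on the projective line without the zeros of `Q`. -/
def A0 (Q : F[X]) (hQ : Q.natDegree ≤ 2) : Subring K where
  carrier := {z | Mem0 K Q z}
  zero_mem' := ⟨0, 0, by simp, by simp⟩
  one_mem' := ⟨0, 1, by simp, by simp⟩
  add_mem' := by
    rintro x y ⟨n, f, hf, e⟩ ⟨m, g, hg, e'⟩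
    refine ⟨n + m, f * Q ^ m + g * Q ^ n, ?_, ?_⟩
    · refine (natDegree_add_le _ _).trans (max_le ?_ ?_)
      · refine natDegree_mul_le.trans ?_
        have := natDegree_pow_le_of_le m hQ
        omega
      · refine natDegree_mul_le.trans ?_
        have := natDegree_pow_le_of_le n hQ
        omega
    · rw [map_add, map_mul, map_mul, map_pow, map_pow, ← e, ← e']; ring
  mul_mem' := by
    rintro x y ⟨n, f, hf, e⟩ ⟨m, g, hg, e'⟩
    refine ⟨n + m, f * g, natDegree_mul_le.trans (by omega), ?_⟩
    rw [map_mul, ← e, ← e']; ring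
  neg_mem' := by
    rintro x ⟨n, f, hf, e⟩
    exact ⟨n, -f, by rwa [natDegree_neg], by rw [map_neg, ← e]; ring⟩

theorem mem_A0 (Q : F[X]) (hQ : Q.natDegree ≤ 2) (z : K) : z ∈ A0 K Q hQ ↔ Mem0 K Q z := Iff.rfl

/-- The quadratic polynomial `X² - c`. -/
def P0 (c : F) : F[X] := X ^ 2 - C c

/-- The quadratic polynomial `1 - c X²`. -/
def Q0 (c : F) : F[X] := 1 - C c * X ^ 2

theorem P0_deg (c : F) : (P0 c).natDegree ≤ 2 := by
  unfold P0; rw [natDegree_X_pow_sub_C]

theorem Q0_deg (c : F) : (Q0 c).natDegree ≤ 2 := by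
  unfold Q0
  refine (natDegree_sub_le _ _).trans (max_le (by simp) ?_)
  exact (natDegree_C_mul_le _ _).trans (by rw [natDegree_X_pow])

end Base

end Pool.Agent.Y797.Q2
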