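import Pool.Agent.Y797.Q2.St2

/-!
# Lifts of symbols of constants
-/

set_option autoImplicit false

noncomputable section

namespace Pool.Agent.Y797.Q2

open Polynomial IsLocalRing Pool.Agent.TH132.W

theorem stConst : StConst := by
  intro F K _ _ _ _ δ hδ
  unfold consts at hδ
  induction hδ using AddSubgroup.closure_induction with
  | mem x hx =>
    obtain ⟨a, b, rfl⟩ := hx
    refine ⟨pf a * pf b, ?_, ?_⟩
    · rw [pow_two]
      exact Ideal.mul_mem_mul (pf_mem_fund a) (pf_mem_fund b)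
    · rw [map_mul, map_pf, map_pf]
      exact pfister_is _ _
  | zero => exact ⟨0, zero_mem _, by rw [map_zero, map_zero]; rfl⟩
  | add x y _ _ hx hy =>
    obtain ⟨v, hv, hv'⟩ := hx
    obtain ⟨w, hw, hw'⟩ := hy
    exact ⟨v + w, add_mem hv hw, by rw [map_add, map_add, hv', hw']; rfl⟩
  | neg x _ hx =>
    obtain ⟨v, hv, hv'⟩ := hx
    exact ⟨-v, neg_mem hv, by rw [map_neg, map_neg, hv']; rfl⟩

end Pool.Agent.Y797.Q2
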