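import Pool.Agent.Y797.Q2.St2

/-!
# Constants have no residues
-/

set_option autoImplicit false

noncomputable section

namespace Pool.Agent.Y797.Q2

open Polynomial IsLocalRing Pool.Agent.TH132.W

theorem stConstRes : StConstRes := by
  intro F K R _ _ _ _ _ _ _ _ _ ϖ hϖ j hj v
  have key : (lam K ϖ hϖ).comp (map (cK (F := F) K)) = cst.comp (map ((residue R).comp j)) := by
    apply cz_ringHom_ext
    intro a ha
    rw [RingHom.comp_apply, RingHom.comp_apply, map_cz, map_cz, ← hj a]
    exact lam_cz_unit K ϖ hϖ ((isUnit_iff_ne_zero.2 ha).map j)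
  have h := congrArg (fun f => (f v).im) key
  rw [res2_apply]
  exact h

end Pool.Agent.Y797.Q2
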