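import Pool.Agent.Y797.Q2.Uniq

/-!
# The class `{-1, X² - c}` is not twice an unramified class
-/

set_option autoImplicit false

noncomputable section

namespace Pool.Agent.Y797.Q2

open Polynomial IsLocalRing Pool.Agent.TH132.W

universe u v

section Units

variable {R : Type u} {K : Type v} [CommRing R] [IsDomain R] [IsDiscreteValuationRing R]
  [Field K] [Algebra R K] [IsFractionRing R K]

theorem tame_of_ord (ϖ : R) (hϖ : Irreducible ϖ) (a b : Kˣ) (ha : ord K ϖ hϖ a = 0)
    (hb : ord K ϖ hϖ b = 0) : tame K ϖ hϖ (sym a b) = 0 := by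
  rw [tame_sym, ha, hb]
  simp

theorem ord_of_eq (ϖ : R) (hϖ : Irreducible ϖ) (a : Kˣ) (u : R) (hu : IsUnit u)
    (h : (a : K) = algebraMap R K u) : ord K ϖ hϖ a = 0 := by
  obtain ⟨u, rfl⟩ := hu
  have : a = Units.map (algebraMap R K : R →* K) u := Units.ext h
  rw [this, ord_unit]

theorem tame_left_unit (ϖ : R) (hϖ : Irreducible ϖ) (a b : Kˣ) (ha : ord K ϖ hϖ a = 0) :
    tame K ϖ hϖ (sym a b) = Additive.ofMul (lc K ϖ hϖ a ^ ord K ϖ hϖ b) := by
  rw [tame_sym, ha]
  simp

theorem tame_neg_one (ϖ : R) (hϖ : Irreducible ϖ) (b : Kˣ) :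
    tame K ϖ hϖ (sym (-1) b) = Additive.ofMul ((-1) ^ ord K ϖ hϖ b) := by
  rw [tame_left_unit ϖ hϖ _ _ (ord_neg_one K ϖ hϖ), lc_neg_one]

end Units

section Core

variable {F K : Type} [Field F] [Field K] [Algebra F[X] K] [IsFractionRing F[X] K]

/-- A nonzero polynomial as a unit of the rational function field. -/
def pu (K : Type) [Field K] [Algebra F[X] K] [IsFractionRing F[X] K] (f : F[X]) (hf : f ≠ 0) : Kˣ :=
  Units.mk0 (algebraMap F[X] K f) (algebraMap_ne K hf)

/-- A constant as a unit of the rational function field. -/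
def cu (K : Type) [Field K] [Algebra F[X] K] [IsFractionRing F[X] K] (a : Fˣ) : Kˣ :=
  Units.map (cK (F := F) K : F →* K) a

theorem cu_coe (a : Fˣ) : ((cu K a : Kˣ) : K) = cK (F := F) K a := rfl

theorem cu_neg_one : cu (F := F) K (-1) = -1 := by
  ext; simp [cu]

/-- The symbols of constants. -/
def consts (F K : Type) [Field F] [Field K] [Algebra F[X] K] [IsFractionRing F[X] K] :
    AddSubgroup (MilnorK2 K) :=
  AddSubgroup.closure {x | ∃ a b : Fˣ, x = sym (Units.map (cK (F := F) K : F →* K) a)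
    (Units.map (cK (F := F) K : F →* K) b)}

variable {R : Type} [CommRing R] [IsDomain R] [IsDiscreteValuationRing R] [Algebra R K]
  [IsFractionRing R K]

theorem ord_cu (ϖ : R) (hϖ : Irreducible ϖ) (j : F →+* R)
    (hj : ∀ a, algebraMap R K (j a) = cK (F := F) K a) (a : Fˣ) : ord K ϖ hϖ (cu K a) = 0 :=
  ord_of_eq ϖ hϖ _ (j a) (a.isUnit.map j) (by rw [hj]; rfl)

theorem lc_cu (ϖ : R) (hϖ : Irreducible ϖ) (j : F →+* R)
    (hj : ∀ a, algebraMap R K (j a) = cK (F := F) K a) (a : Fˣ) :
    lc K ϖ hϖ (cu K a) = Units.map ((residue R).comp j : F →* ResidueField R) a := by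
  have : cu K a = Units.map (algebraMap R K : R →* K) (Units.map (j : F →* R) a) := by
    ext; exact (hj a).symm
  rw [this, lc_unit]
  rfl

theorem tame_consts (ϖ : R) (hϖ : Irreducible ϖ) (j : F →+* R)
    (hj : ∀ a, algebraMap R K (j a) = cK (F := F) K a) {δ : MilnorK2 K}
    (h : δ ∈ consts F K) : tame K ϖ hϖ δ = 0 := by
  have : consts F K ≤ (tame K ϖ hϖ).ker := by
    rw [consts, AddSubgroup.closure_le]
    rintro _ ⟨a, b, rfl⟩
    exact tame_of_ord ϖ hϖ _ _ (ord_cu ϖ hϖ j hj a) (ord_cu ϖ hϖ j hj b)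
  exact this h

theorem neg_one_ne {κ : Type} [Field κ] (h2 : (2 : κ) ≠ 0) : (-1 : κˣ) ≠ 1 := by
  intro h
  apply h2
  have := congrArg Units.val h
  simp only [Units.val_neg, Units.val_one] at this
  linear_combination -this

theorem P0_ne (c : F) : P0 c ≠ 0 := (monic_X_pow_sub_C c two_ne_zero).ne_zero

/-- **The class is not twice an unramified class.** -/
theorem core (hM : StMilnor2) (c : F) (h2 : (2 : F) ≠ 0) (hirr : Irreducible (P0 c))
    (i : Fˣ) (hi : i ^ 2 = -1) (ϖ : R) (hϖ : Irreducible ϖ) (j : F →+* R)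
    (hj : ∀ a, algebraMap R K (j a) = cK (F := F) K a)
    (hord : ord K ϖ hϖ (pu K (P0 c) (P0_ne c)) = -2) (γ : MilnorK2 K)
    (hγ : ∀ (π : F[X]), π.Monic → ∀ hi : Irreducible π, π ≠ P0 c →
      tame K (pol K π hi) (pol_irreducible K π hi) γ = 0)
    (hγ' : tame K ϖ hϖ γ = 0) : γ + γ ≠ sym (-1) (pu K (P0 c) (P0_ne c)) := by
  intro he
  set p := pu K (P0 c) (P0_ne c) with hp
  have hbb : sym (cu K i) p + sym (cu K i) p = sym (-1) p := by
    rw [← sym_mul_left, ← pow_two]
    congr 1
    have : cu K i ^ 2 = cu K (i ^ 2) := (map_pow _ _ _).symm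
    rw [this, hi, cu_neg_one]
  -- the difference is of order two
  set δ := sym (cu K i) p - γ with hδ
  have hδ2 : δ + δ = 0 := by
    have : δ + δ = (sym (cu K i) p + sym (cu K i) p) - (γ + γ) := by rw [hδ]; abel
    rw [this, hbb, he, sub_self]
  have hR2 : (-1 : (ResidueField R)ˣ) ≠ 1 := by
    apply neg_one_ne
    have : (2 : ResidueField R) = ((residue R).comp j) 2 := (map_ofNat ((residue R).comp j) 2).symm
    rw [this]
    exact (_root_.map_ne_zero _).2 h2
  -- the tame symbols at infinity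
  have hinf : tame K ϖ hϖ δ = Additive.ofMul (-1) := by
    rw [hδ, map_sub, hγ', sub_zero, tame_left_unit ϖ hϖ _ _ (ord_cu ϖ hϖ j hj i), hord,
      lc_cu ϖ hϖ j hj]
    congr 1
    rw [zpow_neg]
    have h1 : (2 : ℤ) = ((2 : ℕ) : ℤ) := rfl
    rw [h1, zpow_natCast, ← map_pow, hi]
    ext
    simp
  have hinf' : tame K ϖ hϖ (sym (-1) p) = 0 := by
    rw [tame_neg_one, hord, Even.neg_one_zpow ⟨-1, by norm_num⟩]
    rfl
  -- the tame symbols at the finite places
  have hfin : ∀ (π : F[X]), π.Monic → ∀ hi' : Irreducible π, π ≠ P0 c →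
      ord K (pol K π hi') (pol_irreducible K π hi') p = 0 := by
    intro π hπm hi' hne
    refine ord_of_eq _ _ _ (algebraMap F[X] (Oloc K π hi') (P0 c)) ?_ rfl
    refine isUnit_of_rho_ne K π hi' ?_
    rw [Ne, rho_eq_zero]
    intro h
    exact hne (eq_of_monic_of_associated hπm (monic_X_pow_sub_C c two_ne_zero)
      (hi'.associated_of_dvd hirr h))
  have hj' : ∀ (π : F[X]) (hi' : Irreducible π) (a : F), algebraMap (Oloc K π hi') K
      (((algebraMap F[X] (Oloc K π hi')).comp C) a) = cK (F := F) K a := fun π hi' a => rfl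
  have hfinδ : ∀ (π : F[X]), π.Monic → ∀ hi' : Irreducible π, π ≠ P0 c →
      tame K (pol K π hi') (pol_irreducible K π hi') δ = 0 := by
    intro π hπm hi' hne
    rw [hδ, map_sub, hγ π hπm hi' hne, sub_zero]
    exact tame_of_ord _ _ _ _ (ord_cu _ _ _ (hj' π hi') i) (hfin π hπm hi' hne)
  have hfinm : ∀ (π : F[X]), π.Monic → ∀ hi' : Irreducible π, π ≠ P0 c →
      tame K (pol K π hi') (pol_irreducible K π hi') (sym (-1) p) = 0 := by
    intro π hπm hi' hne
    exact tame_of_ord _ _ _ _ (ord_neg_one K _ _) (hfin π hπm hi' hne)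
  -- the tame symbol at the quadratic place
  have hP : tame K (pol K (P0 c) hirr) (pol_irreducible K (P0 c) hirr) (sym (-1) p) =
      Additive.ofMul (-1) := by
    rw [tame_neg_one]
    have : p = piU K (pol K (P0 c) hirr) (pol_irreducible K (P0 c) hirr) := by
      ext; rfl
    rw [this, ord_pi, zpow_one]
  obtain ⟨t, ht⟩ : ∃ t : (kap K (P0 c) hirr)ˣ,
      tame K (pol K (P0 c) hirr) (pol_irreducible K (P0 c) hirr) δ = Additive.ofMul t :=
    ⟨Additive.toMul (tame K (pol K (P0 c) hirr) (pol_irreducible K (P0 c) hirr) δ), rfl⟩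
  have ht2 : t * t = 1 := by
    have h1 := congrArg (tame K (pol K (P0 c) hirr) (pol_irreducible K (P0 c) hirr)) hδ2
    rw [map_add, ht, map_zero, ← ofMul_mul] at h1
    exact h1
  have ht3 : t = 1 ∨ t = -1 := by
    have h1 : ((t : (kap K (P0 c) hirr)) - 1) * (t + 1) = 0 := by
      have := congrArg Units.val ht2
      rw [Units.val_mul, Units.val_one] at this
      linear_combination this
    rcases mul_eq_zero.1 h1 with h | h
    · left; ext; exact sub_eq_zero.1 h
    · right; ext
      rw [Units.val_neg, Units.val_one]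
      exact eq_neg_of_add_eq_zero_left h
  rcases ht3 with rfl | rfl
  · have hc : δ ∈ consts F K := by
      refine hM F K δ fun π hπm hi' => ?_
      by_cases hne : π = P0 c
      · subst hne; exact ht
      · exact hfinδ π hπm hi' hne
    have h1 := tame_consts ϖ hϖ j hj hc
    rw [hinf] at h1
    exact hR2 h1
  · have hc : δ - sym (-1) p ∈ consts F K := by
      refine hM F K _ fun π hπm hi' => ?_
      by_cases hne : π = P0 c
      · subst hne; rw [map_sub, hP, ht, sub_self]
      · rw [map_sub, hfinδ π hπm hi' hne, hfinm π hπm hi' hne, sub_zero]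
    have h1 := tame_consts ϖ hϖ j hj hc
    rw [map_sub, hinf, hinf', sub_zero] at h1
    exact hR2 h1

end Core

end Pool.Agent.Y797.Q2
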