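import Pool.Agent.Y797.Q2.St2

/-!
# Statements of the steps, third part
-/

set_option autoImplicit false

noncomputable section

namespace Pool.Agent.Y797.Q2

open Polynomial IsLocalRing Pool.Agent.TH132.W

/-- The symbols of pairs are unramified at the finite places different from the quadratic one. -/
def StTameA : Prop := ∀ (F K R : Type) [Field F] [Field K] [Algebra F[X] K]
  [IsFractionRing F[X] K] [CommRing R] [IsDomain R] [IsDiscreteValuationRing R] [Algebra R K]
  [IsFractionRing R K] (ϖ : R) (hϖ : Irreducible ϖ) (j : F →+* R),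
    (∀ a, algebraMap R K (j a) = cK (F := F) K a) →
    ∀ (c : F) (r u : R), algebraMap R K r = tv (F := F) K →
      algebraMap R K u * algebraMap F[X] K (P0 c) = 1 → IsUnit u →
      ∀ (h0 h1 a0 : F) (p h : Kˣ), IsPair (K := K) c h0 h1 a0 p h →
        tame K ϖ hϖ (sym p h) = 0

/-- The symbols of pairs at infinity. -/
def StTameB : Prop := ∀ (F K R : Type) [Field F] [Field K] [Algebra F[X] K]
  [IsFractionRing F[X] K] [CommRing R] [IsDomain R] [IsDiscreteValuationRing R] [Algebra R K]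
  [IsFractionRing R K] (ϖ : R) (hϖ : Irreducible ϖ) (j : F →+* R),
    (∀ a, algebraMap R K (j a) = cK (F := F) K a) →
    ∀ (c : F) (r : R), r ∈ maximalIdeal R → algebraMap R K r = (tv (F := F) K)⁻¹ →
      ∀ (h0 h1 a0 : F) (p h : Kˣ), IsPair (K := K) c h0 h1 a0 p h →
        ∀ (s : Kˣ) (m : Fˣ), (s : K) = (tv (F := F) K)⁻¹ → (m : F) = h0 ^ 2 - c * h1 ^ 2 →
          tame K ϖ hϖ (sym p h) = Additive.ofMul
            (Units.map ((residue R).comp j : F →* ResidueField R) m ^ ord K ϖ hϖ s)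

/-- The arithmetic over the rational numbers. -/
def StArithQ : Prop := (∀ s : ℚ, s ^ 2 ≠ 2) ∧
  ∀ e0 e1 : ℚ, e0 ^ 2 - 2 * e1 ^ 2 ≠ 3 ∧ e0 ^ 2 - 2 * e1 ^ 2 ≠ -3

end Pool.Agent.Y797.Q2
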