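import Pool.Agent.Y797.Q2.Main
import Pool.Agent.Y797.Q2.St3

/-!
# Twice a class with residue `-1` at infinity
-/

set_option autoImplicit false
set_option maxHeartbeats 400000

noncomputable section

namespace Pool.Agent.Y797.Q2

open Polynomial IsLocalRing AlgebraicGeometry Pool.Agent.TH132.W

section Core

variable {F K : Type} [Field F] [Field K] [Algebra F[X] K] [IsFractionRing F[X] K]
variable {R : Type} [CommRing R] [IsDomain R] [IsDiscreteValuationRing R] [Algebra R K]
  [IsFractionRing R K]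

/-- **Twice a class with residue `-1` at infinity is not twice an unramified class.** -/
theorem core2 (hM : StMilnor2) (c : F) (h2 : (2 : F) ≠ 0) (hirr : Irreducible (P0 c))
    (ϖ : R) (hϖ : Irreducible ϖ) (j : F →+* R)
    (hj : ∀ a, algebraMap R K (j a) = cK (F := F) K a)
    (hord : ord K ϖ hϖ (pu K (P0 c) (P0_ne c)) = -2) (β γ : MilnorK2 K)
    (hβ : ∀ (π : F[X]), π.Monic → ∀ hi : Irreducible π, π ≠ P0 c →
      tame K (pol K π hi) (pol_irreducible K π hi) β = 0)
    (hβ' : tame K ϖ hϖ β = Additive.ofMul (-1))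
    (hγ : ∀ (π : F[X]), π.Monic → ∀ hi : Irreducible π, π ≠ P0 c →
      tame K (pol K π hi) (pol_irreducible K π hi) γ = 0)
    (hγ' : tame K ϖ hϖ γ = 0) : γ + γ ≠ β + β := by
  intro he
  set p := pu K (P0 c) (P0_ne c) with hp
  -- the difference is of order two
  set δ := β - γ with hδ
  have hδ2 : δ + δ = 0 := by
    have : δ + δ = (β + β) - (γ + γ) := by rw [hδ]; abel
    rw [this, he, sub_self]
  have hR2 : (-1 : (ResidueField R)ˣ) ≠ 1 := by
    apply neg_one_ne
    have : (2 : ResidueField R) = ((residue R).comp j) 2 := (map_ofNat ((residue R).comp j) 2).symm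
    rw [this]
    exact (_root_.map_ne_zero _).2 h2
  have hinf : tame K ϖ hϖ δ = Additive.ofMul (-1) := by
    rw [hδ, map_sub, hγ', sub_zero, hβ']
  have hinf' : tame K ϖ hϖ (sym (-1) p) = 0 := by
    rw [tame_neg_one, hord, Even.neg_one_zpow ⟨-1, by norm_num⟩]
    rfl
  have hfin : ∀ (π : F[X]), π.Monic → ∀ hi' : Irreducible π, π ≠ P0 c →
      ord K (pol K π hi') (pol_irreducible K π hi') p = 0 := by
    intro π hπm hi' hne
    refine ord_of_eq _ _ _ (algebraMap F[X] (Oloc K π hi') (P0 c)) ?_ rfl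
    refine isUnit_of_rho_ne K π hi' ?_
    rw [Ne, rho_eq_zero]
    intro h
    exact hne (eq_of_monic_of_associated hπm (monic_X_pow_sub_C c two_ne_zero)
      (hi'.associated_of_dvd hirr h))
  have hfinδ : ∀ (π : F[X]), π.Monic → ∀ hi' : Irreducible π, π ≠ P0 c →
      tame K (pol K π hi') (pol_irreducible K π hi') δ = 0 := by
    intro π hπm hi' hne
    rw [hδ, map_sub, hγ π hπm hi' hne, sub_zero, hβ π hπm hi' hne]
  have hfinm : ∀ (π : F[X]), π.Monic → ∀ hi' : Irreducible π, π ≠ P0 c →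
      tame K (pol K π hi') (pol_irreducible K π hi') (sym (-1) p) = 0 := by
    intro π hπm hi' hne
    exact tame_of_ord _ _ _ _ (ord_neg_one K _ _) (hfin π hπm hi' hne)
  have hP : tame K (pol K (P0 c) hirr) (pol_irreducible K (P0 c) hirr) (sym (-1) p) =
      Additive.ofMul (-1) := by
    rw [tame_neg_one]
    have : p = piU K (pol K (P0 c) hirr) (pol_irreducible K (P0 c) hirr) := by
      ext; rfl
    rw [this, ord_pi, zpow_one]
  obtain ⟨t, ht⟩ : ∃ t : (kap K (P0 c) hirr)ˣ,
      tame K (pol K (P0 c) hirr) (pol_irreducible K (P0 c) hirr) δ = Additive.ofMul t :=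
    ⟨Additive.toMul (tame K (pol K (P0 c) hirr) (pol_irreducible K (P0 c) hirr) δ), rfl⟩
  have ht2 : t * t = 1 := by
    have h1 := congrArg (tame K (pol K (P0 c) hirr) (pol_irreducible K (P0 c) hirr)) hδ2
    rw [map_add, ht, map_zero, ← ofMul_mul] at h1
    exact h1
  have ht3 : t = 1 ∨ t = -1 := by
    have h1 : ((t : (kap K (P0 c) hirr)) - 1) * (t + 1) = 0 := by
      have := congrArg Units.val ht2
      rw [Units.val_mul, Units.val_one] at this
      linear_combination this
    rcases mul_eq_zero.1 h1 with h | h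
    · left; ext; exact sub_eq_zero.1 h
    · right; ext
      rw [Units.val_neg, Units.val_one]
      exact eq_neg_of_add_eq_zero_left h
  rcases ht3 with rfl | rfl
  · have hc : δ ∈ consts F K := by
      refine hM F K δ fun π hπm hi' => ?_
      by_cases hne : π = P0 c
      · subst hne; exact ht
      · exact hfinδ π hπm hi' hne
    have h1 := tame_consts ϖ hϖ j hj hc
    rw [hinf] at h1
    exact hR2 h1
  · have hc : δ - sym (-1) p ∈ consts F K := by
      refine hM F K _ fun π hπm hi' => ?_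
      by_cases hne : π = P0 c
      · subst hne; rw [map_sub, hP, ht, sub_self]
      · rw [map_sub, hfinδ π hπm hi' hne, hfinm π hπm hi' hne, sub_zero]
    have h1 := tame_consts ϖ hϖ j hj hc
    rw [map_sub, hinf, hinf', sub_zero] at h1
    exact hR2 h1

/-- A norm gives a pair. -/
theorem exists_pair (c h0 h1 : F) (hN : h0 ^ 2 - c * h1 ^ 2 ≠ 0) :
    ∃ (a0 : F) (p h : Kˣ), IsPair (K := K) c h0 h1 a0 p h := by
  have key : ∀ a0 : F, a0 ≠ 0 →
      ((h1 = 0 ∧ a0 = 1) ∨ (h1 ≠ 0 ∧ a0 * (h0 ^ 2 - c * h1 ^ 2) = h1 ^ 2)) →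
      ∃ (p h : Kˣ), IsPair (K := K) c h0 h1 a0 p h := by
    intro a0 ha0 hcase
    have h3 : cK (F := F) K a0 * algebraMap F[X] K (P0 c) ≠ 0 :=
      mul_ne_zero ((_root_.map_ne_zero _).2 ha0) (algebraMap_ne K (P0_ne c))
    have h4 : cK (F := F) K h0 + cK (F := F) K h1 * tv (F := F) K ≠ 0 := by
      have h5 : cK (F := F) K h0 + cK (F := F) K h1 * tv (F := F) K =
          algebraMap F[X] K (C h0 + C h1 * X) := by
        rw [map_add, map_mul]; rfl
      rw [h5]
      apply algebraMap_ne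
      intro h6
      have h7 : h0 = 0 := by
        have := congrArg (fun f => coeff f 0) h6
        simpa using this
      have h8 : h1 = 0 := by
        have := congrArg (fun f => coeff f 1) h6
        simpa using this
      rw [h7, h8] at hN
      simp at hN
    exact ⟨Units.mk0 _ h3, Units.mk0 _ h4, rfl, rfl, ha0, hN, hcase⟩
  by_cases h10 : h1 = 0
  · obtain ⟨p, h, hp⟩ := key 1 one_ne_zero (Or.inl ⟨h10, rfl⟩)
    exact ⟨1, p, h, hp⟩
  · obtain ⟨p, h, hp⟩ := key (h1 ^ 2 / (h0 ^ 2 - c * h1 ^ 2))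
      (div_ne_zero (pow_ne_zero 2 h10) hN) (Or.inr ⟨h10, div_mul_cancel₀ _ hN⟩)
    exact ⟨_, p, h, hp⟩

end Core

section Abs5

variable {k : Type} [Field k] {A : CommRingCat.{0}} [IsDomain A]
  [Algebra k[X] (Spec A).functionField] [IsFractionRing k[X] (Spec A).functionField] (c : k)
  (hirr : Irreducible (P0 c))
  (hA : ∀ z : (Spec A).functionField,
      (∃ a : A, algebraMap A (Spec A).functionField a = z) ↔ Mem0 (Spec A).functionField (P0 c) z)
  (j0 : k →+* A) (hj0 : ∀ a, algebraMap A (Spec A).functionField (j0 a) =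
    cK (F := k) (Spec A).functionField a)

/-- A finite place as an abstract discrete valuation ring. -/
theorem tame_fin {K : Type} [Field K] [Algebra k[X] K] [IsFractionRing k[X] K]
    (hTA : StTameA) (h0 h1 a0 : k) (p h : Kˣ) (hp : IsPair (K := K) c h0 h1 a0 p h)
    (hirr : Irreducible (P0 c)) (π : k[X]) (hm : π.Monic) (hi : Irreducible π)
    (hπ : π ≠ P0 c) : tame K (pol K π hi) (pol_irreducible K π hi) (sym p h) = 0 := by
  have hu : IsUnit (algebraMap k[X] (Oloc K π hi) (P0 c)) := by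
    refine isUnit_of_rho_ne K π hi ?_
    rw [Ne, rho_eq_zero]
    exact not_dvd c hm hi hirr hπ
  obtain ⟨u, hu'⟩ := isUnit_iff_exists_inv'.1 hu
  refine hTA k K (Oloc K π hi) _ _ ((algebraMap k[X] (Oloc K π hi)).comp C) (fun _ => rfl) c
    (algebraMap k[X] (Oloc K π hi) X) u rfl ?_ (IsUnit.of_mul_eq_one _ hu') _ _ _ p h hp
  have := congrArg (algebraMap (Oloc K π hi) K) hu'
  rw [map_mul, map_one] at this
  exact this

include hA hirr hj0 in
/-- **The map is not injective in degree two**, if `-1` is a norm. -/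
theorem not_inj2 (hTA : StTameA) (hTB : StTameB) (h2 : (2 : k) ≠ 0) (h0 h1 : k)
    (hN : h0 ^ 2 - c * h1 ^ 2 = -1) :
    ∃ α, UnramK2 (Spec A) α ∧ IsPfisterLift α 0 ∧ ∀ β, UnramK2 (Spec A) β → β + β ≠ α := by
  have hN0 : h0 ^ 2 - c * h1 ^ 2 ≠ 0 := by rw [hN]; exact neg_ne_zero.2 one_ne_zero
  obtain ⟨a0, p, h, hp⟩ := exists_pair (K := (Spec A).functionField) c h0 h1 hN0
  have htv : (tv (F := k) (Spec A).functionField)⁻¹ ≠ 0 := inv_ne_zero (tv_ne _)
  have hB : ∀ (y : Spec A) [IsDiscreteValuationRing ((Spec A).presheaf.stalk y)]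
      (ϖ : (Spec A).presheaf.stalk y) (hϖ : Irreducible ϖ) (r : (Spec A).presheaf.stalk y)
      (_ : r ∈ maximalIdeal ((Spec A).presheaf.stalk y))
      (_ : algebraMap ((Spec A).presheaf.stalk y) (Spec A).functionField r =
        (tv (F := k) (Spec A).functionField)⁻¹),
      tame (Spec A).functionField ϖ hϖ (sym p h) = Additive.ofMul
        ((-1) ^ ord (Spec A).functionField ϖ hϖ (Units.mk0 _ htv)) := by
    intro y _ ϖ hϖ r hr hr'
    rw [hTB k (Spec A).functionField _ ϖ hϖ (jst j0 y) (jst_spec j0 hj0 y) c r hr hr' h0 h1 a0 p h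
      hp (Units.mk0 _ htv) (-1) rfl (by rw [hN]; rfl)]
    have : Units.map ((residue ((Spec A).presheaf.stalk y)).comp (jst j0 y) :
        k →* ResidueField ((Spec A).presheaf.stalk y)) (-1) = -1 := by
      apply Units.ext
      simp
    rw [this]
  refine ⟨sym p h + sym p h, ?_, ?_, ?_⟩
  · intro y _ ϖ hϖ
    refine ⟨_, tame_is _ ϖ hϖ, ?_⟩
    rw [map_add]
    rcases dich c hA y with ⟨r, u, h1, h2, h3⟩ | ⟨r, h1, h2⟩
    · rw [hTA k (Spec A).functionField _ ϖ hϖ (jst j0 y) (jst_spec j0 hj0 y) c r u h1 h2 h3 _ _ _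
        p h hp, add_zero]
    · rw [hB y ϖ hϖ r h1 h2, ← ofMul_mul, ← mul_zpow]
      simp
  · rw [isPfisterLift_iff]
    refine ⟨zero_mem _, ?_⟩
    rw [map_add, pfister_is, ← QuotientAddGroup.mk_add]
    apply mk_eq_of_sub
    rw [sub_zero, ← two_mul]
    have := Ideal.mul_mem_mul (two_mem (F := (Spec A).functionField))
      (Ideal.mul_mem_mul (pf_mem p) (pf_mem h))
    rwa [← pow_two, ← pow_succ'] at this
  · intro β hβ
    obtain ⟨y, hD, ϖ, hϖ, hϖ', hord⟩ := inf_pt c stPt stSwap hA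
    refine core2 stMilnor2b c h2 hirr ϖ hϖ (jst j0 y) (jst_spec j0 hj0 y) hord (sym p h) β
      (fun π hm hi hπ => tame_fin c hTA h0 h1 a0 p h hp hirr π hm hi hπ) ?_
      (fun π hm hi' hπ => unram_fin c hirr hA β hβ π hm hi' hπ) ?_
    · have hϖm : ϖ ∈ maximalIdeal ((Spec A).presheaf.stalk y) :=
        (mem_maximalIdeal _).2 hϖ.not_isUnit
      rw [hB y ϖ hϖ ϖ hϖm hϖ']
      have h3 : Units.mk0 _ htv = piU (Spec A).functionField ϖ hϖ := by
        apply Units.ext
        exact hϖ'.symm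
      rw [h3, ord_pi, zpow_one]
    · obtain ⟨τ, hτ, h2⟩ := hβ y ϖ hϖ
      rwa [tame_uniq ϖ hϖ hτ] at h2

end Abs5

end Pool.Agent.Y797.Q2
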