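import Pool.Agent.Y797.Q2.St

/-!
# The ring of functions has the expected field of fractions (helper420)
-/

set_option autoImplicit false

noncomputable section

namespace Pool.Agent.Y797.Q2

open Polynomial Pool.Agent.TH132.W

theorem stFrac : StFrac := by
  intro F K _ _ _ _ Q hQ hQ0
  have hQK : algebraMap F[X] K Q ≠ 0 := by
    rw [Ne, IsFractionRing.to_map_eq_zero_iff]
    exact hQ0
  apply IsFractionRing.of_field
  intro z
  obtain ⟨f, g, hg, rfl⟩ := IsFractionRing.div_surjective (A := F[X]) z
  have hmem : ∀ (f : F[X]) (N : ℕ), f.natDegree ≤ N →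
      algebraMap F[X] K f / algebraMap F[X] K Q ^ N ∈ A0 K Q hQ := by
    intro f N hN
    refine ⟨N, f, by omega, ?_⟩
    field_simp
  refine ⟨⟨_, hmem f (max f.natDegree g.natDegree) (le_max_left _ _)⟩,
    ⟨_, hmem g (max f.natDegree g.natDegree) (le_max_right _ _)⟩, ?_⟩
  change _ = (algebraMap F[X] K f / algebraMap F[X] K Q ^ (max f.natDegree g.natDegree)) /
    (algebraMap F[X] K g / algebraMap F[X] K Q ^ (max f.natDegree g.natDegree))
  have hN : algebraMap F[X] K Q ^ (max f.natDegree g.natDegree) ≠ 0 := pow_ne_zero _ hQK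
  rw [div_div_div_cancel_right₀ hN]

end Pool.Agent.Y797.Q2
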