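import Pool.Agent.Y797.Q2.St2

/-!
# The tame symbol at infinity is the norm (author helper410)
-/

set_option autoImplicit false

noncomputable section

namespace Pool.Agent.Y797.Q2

open Polynomial IsLocalRing Pool.Agent.TH132.W

section Inf

variable {F K R : Type} [Field F] [Field K] [Algebra F[X] K] [IsFractionRing F[X] K]
  [CommRing R] [IsDomain R] [IsDiscreteValuationRing R] [Algebra R K] [IsFractionRing R K]

theorem inf_isUnit (j : F →+* R) (a : F) (ha : a ≠ 0) (x : R) (hx : x ∈ maximalIdeal R) :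
    IsUnit (j a + x) := by
  rw [← notMem_maximalIdeal]
  intro h
  have h1 : j a ∈ maximalIdeal R := by
    have h2 := (maximalIdeal R).sub_mem h hx
    rwa [add_sub_cancel_right] at h2
  exact (notMem_maximalIdeal.2 ((IsUnit.mk0 a ha).map j)) h1

theorem inf_residue (j : F →+* R) (a : F) (x : R) (hx : x ∈ maximalIdeal R) :
    residue R (j a + x) = (residue R).comp j a := by
  rw [map_add, (residue_eq_zero_iff x).2 hx, add_zero]
  rfl

theorem stInf : StInf := by
  intro F K R _ _ _ _ _ _ _ _ _ ϖ hϖ j hj hw c h0 h1 a0 p h hp htame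
  obtain ⟨ep, eh, ha0, hN, hor⟩ := hp
  have ht : tv (F := F) K ≠ 0 := tv_ne K
  have hmem : ϖ ∈ maximalIdeal R := (mem_maximalIdeal ϖ).2 hϖ.not_isUnit
  have hP : algebraMap F[X] K (P0 c) = tv (F := F) K ^ 2 - cK (F := F) K c := by
    unfold P0
    rw [map_sub, map_pow]
    rfl
  have hx1 : -(j (a0 * c)) * ϖ ^ 2 ∈ maximalIdeal R :=
    Ideal.mul_mem_left _ _ (Ideal.pow_mem_of_mem _ hmem 2 (by norm_num))
  obtain ⟨u, hu⟩ := inf_isUnit j a0 ha0 _ hx1
  have hpu : (p : K) = algebraMap R K ϖ ^ (-2 : ℤ) * algebraMap R K u := by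
    rw [hu, map_add, map_mul, map_neg, map_pow, hj, hj, hw, ep, hP, map_mul]
    have h2 : ((tv (F := F) K)⁻¹) ^ (-2 : ℤ) = tv (F := F) K ^ 2 := by
      rw [inv_zpow, zpow_neg, inv_inv]
      norm_cast
    rw [h2]
    field_simp
    ring
  have hinj : Function.Injective ((residue R).comp j) := RingHom.injective _
  rcases hor with ⟨hh, ha⟩ | ⟨hh, ha⟩
  · subst hh
    subst ha
    have hh0 : h0 ≠ 0 := by
      rintro rfl
      apply hN
      ring
    obtain ⟨v, hv⟩ := inf_isUnit j h0 hh0 0 (maximalIdeal R).zero_mem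
    have hhv : (h : K) = algebraMap R K ϖ ^ (0 : ℤ) * algebraMap R K v := by
      rw [hv, add_zero, hj, zpow_zero, one_mul, eh, map_zero, zero_mul, add_zero]
    have key := tame_is K ϖ hϖ (-2) 0 u v p h hpu hhv
    rw [htame] at key
    have k2 : (1 : (ResidueField R)ˣ) =
        (-1) ^ ((-2 : ℤ) * 0) * (resUnit u ^ (0 : ℤ) / resUnit v ^ (-2 : ℤ)) :=
      congrArg Additive.toMul key
    rw [mul_zero, zpow_zero, zpow_zero, one_mul, one_div, zpow_neg, inv_inv] at k2
    have k3 : (1 : ResidueField R) = (residue R (v : R)) ^ 2 := by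
      have k4 := congrArg Units.val k2
      have k5 : (2 : ℤ) = ((2 : ℕ) : ℤ) := rfl
      rw [k5, zpow_natCast] at k4
      exact k4
    have key3 : ((residue R).comp j) (h0 ^ 2) = ((residue R).comp j) 1 := by
      rw [map_one, k3, hv, inf_residue j h0 0 (maximalIdeal R).zero_mem, map_pow]
    have := hinj key3
    rw [this]
    ring
  · have hx2 : j h0 * ϖ ∈ maximalIdeal R := Ideal.mul_mem_left _ _ hmem
    obtain ⟨v, hv⟩ := inf_isUnit j h1 hh _ hx2
    have hhv : (h : K) = algebraMap R K ϖ ^ (-1 : ℤ) * algebraMap R K v := by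
      rw [hv, map_add, map_mul, hj, hj, hw, zpow_neg, zpow_one, inv_inv, eh]
      field_simp
      ring
    have key := tame_is K ϖ hϖ (-2) (-1) u v p h hpu hhv
    rw [htame] at key
    have k2 : (1 : (ResidueField R)ˣ) =
        (-1) ^ ((-2 : ℤ) * (-1)) * (resUnit u ^ (-1 : ℤ) / resUnit v ^ (-2 : ℤ)) :=
      congrArg Additive.toMul key
    have k6 : resUnit u = resUnit v ^ 2 := by
      have k5 : ((-2 : ℤ) * (-1)) = ((2 : ℕ) : ℤ) := rfl
      rw [k5, zpow_natCast, neg_one_sq, one_mul, zpow_neg, zpow_neg, zpow_one, div_inv_eq_mul] at k2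
      have k7 := (inv_mul_eq_one.1 k2.symm)
      rw [k7]
      have k8 : (2 : ℤ) = ((2 : ℕ) : ℤ) := rfl
      rw [k8, zpow_natCast]
    have k3 : residue R (u : R) = (residue R (v : R)) ^ 2 := congrArg Units.val k6
    have key3 : ((residue R).comp j) (h1 ^ 2) = ((residue R).comp j) a0 := by
      rw [hu, hv, inf_residue j a0 _ hx1, inf_residue j h1 _ hx2] at k3
      rw [k3, map_pow]
    have h5 := hinj key3
    exact mul_left_cancel₀ ha0 (ha.trans (h5.trans (mul_one a0).symm))

end Inf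

end Pool.Agent.Y797.Q2
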