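import Pool.Agent.Y797.Q2.St2

/-!
# A square in the quadratic extension gives a norm
-/

set_option autoImplicit false

noncomputable section

namespace Pool.Agent.Y797.Q2

open Polynomial IsLocalRing Pool.Agent.TH132.W

theorem stNorm : StNorm := by
  intro F K _ _ _ _ c hirr a h0 h1 hN y hy
  obtain ⟨e, rfl⟩ := rho_surjective K (P0 c) hirr y
  have hm : (P0 c).Monic := monic_X_pow_sub_C c (by norm_num)
  have hd : (P0 c).natDegree = 2 := natDegree_X_pow_sub_C
  have hdd : (P0 c).degree = 2 := by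
    rw [degree_eq_natDegree hm.ne_zero, hd]
    rfl
  have hlt : (e %ₘ P0 c).degree ≤ 1 := by
    have h1 := degree_modByMonic_lt e hm
    rw [hdd] at h1
    by_cases h0 : e %ₘ P0 c = 0
    · rw [h0, degree_zero]
      exact bot_le
    · rw [degree_eq_natDegree h0] at h1 ⊢
      have h2 : (e %ₘ P0 c).natDegree < 2 := by exact_mod_cast h1
      exact_mod_cast Nat.lt_succ_iff.1 h2
  obtain ⟨e1, e0, he⟩ := exists_eq_X_add_C_of_natDegree_le_one (natDegree_le_of_degree_le hlt)
  have hr : rho K (P0 c) hirr e = rho K (P0 c) hirr (C e1 * X + C e0) := by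
    rw [← sub_eq_zero, ← map_sub, rho_eq_zero, ← he]
    refine ⟨e /ₘ P0 c, ?_⟩
    have h2 := modByMonic_add_div e (P0 c)
    linear_combination -h2
  rw [hr, ← map_mul, ← sub_eq_zero, ← map_sub, rho_eq_zero] at hy
  have h3 : (C e1 * X + C e0) * (C e1 * X + C e0) - C a * (C h0 + C h1 * X) =
      P0 c * C (e1 ^ 2) + (C (2 * e0 * e1 - a * h1) * X +
        C (e0 ^ 2 + c * e1 ^ 2 - a * h0)) := by
    unfold P0
    simp only [map_sub, map_add, map_mul, map_pow, map_ofNat]
    ring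
  rw [h3] at hy
  have h4 : P0 c ∣ (C (2 * e0 * e1 - a * h1) * X + C (e0 ^ 2 + c * e1 ^ 2 - a * h0)) :=
    (dvd_add_right (dvd_mul_right _ _)).1 hy
  have h5 : C (2 * e0 * e1 - a * h1) * X + C (e0 ^ 2 + c * e1 ^ 2 - a * h0) = 0 := by
    refine eq_zero_of_dvd_of_natDegree_lt h4 ?_
    rw [hd]
    exact lt_of_le_of_lt natDegree_linear_le (by norm_num)
  have aux : ∀ s t : F, (C s * X + C t : F[X]) = 0 → s = 0 ∧ t = 0 := by
    intro s t hst
    constructor
    · have := congrArg (fun p => coeff p 1) hst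
      simpa using this
    · have := congrArg (fun p => coeff p 0) hst
      simpa using this
  obtain ⟨h6, h7⟩ := aux _ _ h5
  have h8 : (e0 ^ 2 - c * e1 ^ 2 - a) * (e0 ^ 2 - c * e1 ^ 2 + a) = 0 := by
    linear_combination (e0 ^ 2 + c * e1 ^ 2 + a * h0) * h7 - c * (2 * e0 * e1 + a * h1) * h6 +
      a ^ 2 * hN
  rcases mul_eq_zero.1 h8 with h9 | h9
  · exact ⟨e0, e1, Or.inl (sub_eq_zero.1 h9)⟩
  · exact ⟨e0, e1, Or.inr (eq_neg_of_add_eq_zero_left h9)⟩

end Pool.Agent.Y797.Q2
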