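import Pool.Agent.Y797.Q2.St2

/-!
# Unramified lifts at infinity (helper93)
-/

set_option autoImplicit false

noncomputable section

namespace Pool.Agent.Y797.Q2

open Polynomial IsLocalRing Pool.Agent.TH132.W

theorem stPairB : StPairB := by
  intro F K R _ _ _ _ _ _ _ _ _ ϖ hϖ j hj c r hr hrt b p hb hp
  have ht0 : tv (F := F) K ≠ 0 := algebraMap_ne K X_ne_zero
  have hb0 : cK (F := F) K b ≠ 0 := (_root_.map_ne_zero _).2 hb
  -- the unit
  have hm : j c * r ^ 2 ∈ maximalIdeal R := by
    rw [pow_two, ← mul_assoc]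
    exact Ideal.mul_mem_left _ _ hr
  have hu : IsUnit (1 - j c * r ^ 2) := by
    by_contra h
    have h1 : (1 - j c * r ^ 2) ∈ maximalIdeal R := (mem_maximalIdeal _).2 h
    have h2 := Ideal.add_mem _ h1 hm
    rw [sub_add_cancel] at h2
    exact (Ideal.ne_top_iff_one _).1 (maximalIdeal.isMaximal R).ne_top h2
  obtain ⟨u, hu⟩ := hu
  have hres : Units.map (residue R : R →* ResidueField R) u = 1 := by
    ext
    show residue R (u : R) = 1
    rw [hu, map_sub, map_one, (residue_eq_zero_iff _).2 hm, sub_zero]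
  -- the decomposition
  have hw : cK (F := F) K b * tv (F := F) K ≠ 0 := mul_ne_zero hb0 ht0
  have hpu : p = Units.map (algebraMap R K : R →* K) u * (Units.mk0 _ hw) ^ 2 := by
    ext
    rw [hp, Units.val_mul, Units.val_pow_eq_pow_val, Units.val_mk0]
    show _ = algebraMap R K (u : R) * _
    rw [hu, map_sub, map_one, map_mul, hj, map_pow (algebraMap R K), hrt, map_pow (cK (F := F) K)]
    have h1 : algebraMap F[X] K (P0 c) = tv (F := F) K ^ 2 - cK (F := F) K c := by
      unfold P0
      rw [map_sub, map_pow]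
      rfl
    rw [h1]
    field_simp
  have hcls : lam K ϖ hϖ (cls p) = 1 := by
    rw [hpu, cls_sq']
    have h1 : Units.map (algebraMap R K : R →* K) u =
        piU K ϖ hϖ ^ (0 : ℤ) * Units.map (algebraMap R K : R →* K) u := by
      rw [zpow_zero, one_mul]
    rw [h1, lam_mk, hres, cls_one, map_one, ez_zero, mul_one]
  unfold pf
  rw [map_sub, map_one, hcls, sub_self]

end Pool.Agent.Y797.Q2
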