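import Pool.Agent.Y797.Q2.St2
import Pool.Agent.TH132.W.Spec0

/-!
# The residues of the classes in the third power of the fundamental ideal

Author: helper907 (after the file Spec0 of the starting library).
-/

set_option autoImplicit false

noncomputable section

namespace Pool.Agent.Y797.Q2

open Polynomial IsLocalRing Pool.Agent.TH132.W

/-- The homomorphism `W(K) → W(κ)[ε]` maps the classes `1 - ⟨a⟩` into `JI 0`. -/
theorem lam_pf_mem {R K : Type} [CommRing R] [IsDomain R] [IsDiscreteValuationRing R]
    [Field K] [Algebra R K] [IsFractionRing R K] (ϖ : R) (hϖ : Irreducible ϖ) (a : Kˣ) :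
    lam K ϖ hϖ (pf a) ∈ JI (fund (ResidueField R)) 0 := by
  obtain ⟨n, u, rfl⟩ := exists_mk (K := K) ϖ hϖ a
  have e : lam K ϖ hϖ (cls (piU K ϖ hϖ ^ n * Units.map (algebraMap R K : R →* K) u)) =
      cst (cls (Units.map (residue R : R →* ResidueField R) u)) * ez n := by
    rw [lam_cls, lamHom_mk]
  have h1 : 1 - cls (Units.map (residue R : R →* ResidueField R) u) ∈ fund (ResidueField R) :=
    pf_mem _
  unfold pf
  rw [map_sub, map_one, e]
  generalize cls (Units.map (residue R : R →* ResidueField R) u) = y at h1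
  constructor
  · simp
  · rw [zero_add, pow_one]
    rcases Int.even_or_odd n with hn | hn
    · rw [ez_even hn]
      simpa [QuadraticAlgebra.re_one, QuadraticAlgebra.im_one] using h1
    · rw [ez_odd hn]
      have h2 : ((1 : Dbl (WittRing (ResidueField R))) - cst y * ⟨0, 1⟩).re +
        ((1 : Dbl (WittRing (ResidueField R))) - cst y * ⟨0, 1⟩).im = 1 - y := by
        simp [sub_eq_add_neg, QuadraticAlgebra.re_one, QuadraticAlgebra.im_one]
      rw [h2]
      exact h1

/-- The residues of the classes in `I³` lie in `I²`. -/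
theorem stRes3 : StRes3 := by
  intro R K _ _ _ _ _ _ ϖ hϖ x hx
  have h := filt_gen (fund (ResidueField R)) two_mem (lam K ϖ hϖ) (lam_pf_mem ϖ hϖ) 2 hx
  rw [res2_apply]
  exact h.1

end Pool.Agent.Y797.Q2
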