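import Pool.Agent.Y797.Q2.St
import Pool.Agent.TH132.W.Smth

/-!
# The affine conic is smooth over the base field (helper217)
-/

set_option autoImplicit false

noncomputable section

namespace Pool.Agent.Y797.Q2

open Polynomial IsLocalRing Pool.Agent.TH132.W

namespace Smooth217

section
variable {F K : Type} [Field F] [Field K] [Algebra F[X] K] [IsFractionRing F[X] K]

theorem loc_form (φ0 : F[X] →+* K) (hφ0 : Function.Injective φ0) (Q : F[X]) (hQ : φ0 Q ≠ 0) :
    ∃ φ : Localization.Away Q →+* K, Function.Injective φ ∧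
      (∀ f, φ (algebraMap F[X] _ f) = φ0 f) ∧
      (∀ b, ∃ (g : F[X]) (m : ℕ), φ b = φ0 g * ((φ0 Q)⁻¹) ^ m) ∧
      ∃ b, φ b = (φ0 Q)⁻¹ := by
  have hu : IsUnit (φ0 Q) := isUnit_iff_ne_zero.2 hQ
  let φ' : Localization.Away Q →+* K := IsLocalization.Away.lift Q hu
  have hφ'1 : ∀ f : F[X], φ' (algebraMap _ _ f) = φ0 f := fun f =>
    IsLocalization.Away.lift_eq Q hu f
  have hform : ∀ b : Localization.Away Q, ∃ (g : F[X]) (n : ℕ),
      φ' b = φ0 g * ((φ0 Q)⁻¹) ^ n ∧ b * algebraMap _ _ Q ^ n = algebraMap _ _ g := by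
    intro b
    obtain ⟨⟨g, ⟨_, n, rfl⟩⟩, h⟩ := IsLocalization.surj (Submonoid.powers Q) b
    simp only at h
    refine ⟨g, n, ?_, by rw [← map_pow]; exact h⟩
    have h1 := congrArg φ' h
    rw [map_mul, hφ'1, hφ'1, map_pow] at h1
    rw [← h1, mul_assoc, ← mul_pow, mul_inv_cancel₀ hQ, one_pow, mul_one]
  refine ⟨φ', ?_, hφ'1, ?_, ?_⟩
  · rw [injective_iff_map_eq_zero]
    intro b hb
    obtain ⟨g, n, h1, h3⟩ := hform b
    rw [hb] at h1
    have h4 : φ0 g = 0 := by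
      rcases mul_eq_zero.1 h1.symm with h | h
      · exact h
      · exact absurd h (pow_ne_zero _ (inv_ne_zero hQ))
    have h5 : g = 0 := (map_eq_zero_iff φ0 hφ0).1 h4
    rw [h5, map_zero] at h3
    have h6 : IsUnit (algebraMap F[X] (Localization.Away Q) Q ^ n) :=
      (IsLocalization.Away.algebraMap_isUnit Q).pow n
    exact (h6.mul_left_eq_zero).1 h3
  · intro b
    obtain ⟨g, n, h, -⟩ := hform b
    exact ⟨g, n, h⟩
  · obtain ⟨b, hb⟩ := isUnit_iff_exists_inv.1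
      (IsLocalization.Away.algebraMap_isUnit (S := Localization.Away Q) Q)
    refine ⟨b, ?_⟩
    have h1 := congrArg φ' hb
    rw [map_mul, hφ'1, map_one] at h1
    exact eq_inv_of_mul_eq_one_right h1

theorem chartA (P : F[X]) (hP : P.natDegree ≤ 2) (φ0 : F[X] →+* K)
    (hφ0 : Function.Injective φ0) (hC : ∀ a, φ0 (C a) = cK (F := F) K a) (Q : F[X])
    (r : A0 K P hP) (hr : φ0 Q * (r : K) = 1)
    (h1 : ∀ a ∈ A0 K P hP, ∃ (g : F[X]) (n : ℕ), a * φ0 Q ^ n = φ0 g)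
    (h3 : ∀ g : F[X], ∃ n : ℕ, φ0 g * (r : K) ^ n ∈ A0 K P hP) :
    ((algebraMap (A0 K P hP) (Localization.Away r)).comp (strF F K P hP)).Smooth := by
  have hQ : φ0 Q ≠ 0 := by
    intro h
    rw [h, zero_mul] at hr
    exact zero_ne_one hr
  have hri : (φ0 Q)⁻¹ = (r : K) := (eq_inv_of_mul_eq_one_right hr).symm
  obtain ⟨φ, hφ, ha, hb, b0, hb0⟩ := loc_form φ0 hφ0 Q hQ
  have hCs : (C : F →+* F[X]).Smooth := by
    have : Algebra.Smooth F F[X] := {}
    exact RingHom.smooth_algebraMap.2 this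
  refine chart (A0 K P hP).subtype Subtype.val_injective (strF F K P hP)
    ((algebraMap F[X] (Localization.Away Q)).comp C)
    (hCs.comp (RingHom.Smooth.holdsForLocalizationAway _ Q)) φ hφ ?_ r ?_ ?_ ?_
  · intro a
    rw [RingHom.comp_apply, ha, hC]
    rfl
  · rintro ⟨a, hA⟩
    obtain ⟨g, n, hg⟩ := h1 a hA
    refine ⟨algebraMap _ _ g * b0 ^ n, ?_⟩
    rw [map_mul, map_pow, ha, hb0, ← hg, mul_assoc, ← mul_pow, mul_inv_cancel₀ hQ, one_pow,
      mul_one]
    rfl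
  · exact ⟨algebraMap _ _ Q, by rw [ha]; exact hr⟩
  · intro b
    obtain ⟨g, m, hg⟩ := hb b
    obtain ⟨n, hn⟩ := h3 g
    refine ⟨n, ⟨_, mul_mem hn (pow_mem r.2 m)⟩, ?_⟩
    change φ b * (r : K) ^ n = φ0 g * (r : K) ^ n * (r : K) ^ m
    rw [hg, hri]
    ring

end

end Smooth217

open Smooth217 in
theorem stSmooth : StSmooth := by
  intro F K _ _ _ _ c
  have hPne : (P0 c : F[X]) ≠ 0 := (monic_X_pow_sub_C c two_ne_zero).ne_zero
  have hp0 : algebraMap F[X] K (P0 c) ≠ 0 := algebraMap_ne K hPne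
  have ht0 : tv (F := F) K ≠ 0 := tv_ne K
  have hPt : algebraMap F[X] K (P0 c) = tv (F := F) K ^ 2 - cK (F := F) K c := by
    unfold P0
    rw [map_sub, map_pow]
    rfl
  have huA : (algebraMap F[X] K (P0 c))⁻¹ ∈ A0 K (P0 c) (P0_deg c) :=
    ⟨1, 1, by simp, by rw [pow_one, inv_mul_cancel₀ hp0, map_one]⟩
  have hwA : tv (F := F) K ^ 2 * (algebraMap F[X] K (P0 c))⁻¹ ∈ A0 K (P0 c) (P0_deg c) :=
    ⟨1, X ^ 2, by rw [natDegree_X_pow], by
      rw [pow_one, mul_assoc, inv_mul_cancel₀ hp0, mul_one, map_pow]; rfl⟩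
  refine RingHom.Smooth.ofLocalizationSpanTarget (strF F K (P0 c) (P0_deg c))
    {(⟨_, huA⟩ : A0 K (P0 c) (P0_deg c)), ⟨_, hwA⟩} ?_ ?_
  · rw [Ideal.eq_top_iff_one]
    have hu' : (⟨_, huA⟩ : A0 K (P0 c) (P0_deg c)) ∈
      Ideal.span {(⟨_, huA⟩ : A0 K (P0 c) (P0_deg c)), ⟨_, hwA⟩} := Ideal.subset_span (by simp)
    have hw' : (⟨_, hwA⟩ : A0 K (P0 c) (P0_deg c)) ∈
      Ideal.span {(⟨_, huA⟩ : A0 K (P0 c) (P0_deg c)), ⟨_, hwA⟩} := Ideal.subset_span (by simp)
    have e : (1 : A0 K (P0 c) (P0_deg c)) = ⟨_, hwA⟩ -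
        ⟨_, cK_mem_A0 (P0 c) (P0_deg c) c⟩ * ⟨_, huA⟩ := by
      ext
      change (1 : K) = tv (F := F) K ^ 2 * (algebraMap F[X] K (P0 c))⁻¹ -
        cK (F := F) K c * (algebraMap F[X] K (P0 c))⁻¹
      rw [← sub_mul, ← hPt, mul_inv_cancel₀ hp0]
    rw [e]
    exact sub_mem hw' (Ideal.mul_mem_left _ _ hu')
  · rintro ⟨x, hx⟩
    simp only [Set.mem_insert_iff, Set.mem_singleton_iff] at hx
    rcases hx with rfl | rfl
    · refine chartA (P0 c) (P0_deg c) (algebraMap F[X] K) (IsFractionRing.injective F[X] K)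
        (fun a => rfl) (P0 c) ⟨_, huA⟩ (mul_inv_cancel₀ hp0) ?_ ?_
      · rintro a ⟨n, f, -, hf⟩
        exact ⟨f, n, hf⟩
      · intro g
        refine ⟨g.natDegree, g.natDegree, g, by omega, ?_⟩
        change algebraMap F[X] K g * ((algebraMap F[X] K (P0 c))⁻¹) ^ g.natDegree *
          algebraMap F[X] K (P0 c) ^ g.natDegree = algebraMap F[X] K g
        rw [mul_assoc, ← mul_pow, inv_mul_cancel₀ hp0, one_pow, mul_one]
    · let _ : Invertible (tv (F := F) K) := invertibleOfNonzero ht0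
      have hrev : ∀ (N : ℕ) (f : F[X]), f.natDegree ≤ N →
          eval₂ (cK (F := F) K) (tv (F := F) K)⁻¹ (reflect N f) * tv (F := F) K ^ N =
            algebraMap F[X] K f := by
        intro N f hf
        have := eval₂_reflect_mul_pow (cK (F := F) K) (tv (F := F) K) N f hf
        rw [invOf_eq_inv, eval₂_tv] at this
        exact this
      have hQ0 : eval₂ (cK (F := F) K) (tv (F := F) K)⁻¹ (Q0 c) * tv (F := F) K ^ 2 =
          algebraMap F[X] K (P0 c) := by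
        unfold Q0
        rw [hPt]
        simp only [eval₂_sub, eval₂_one, eval₂_mul, eval₂_C, eval₂_pow, eval₂_X]
        field_simp
      refine chartA (P0 c) (P0_deg c) (eval₂RingHom (cK (F := F) K) (tv (F := F) K)⁻¹)
        (inj_inv K) (fun a => by rw [coe_eval₂RingHom, eval₂_C]) (Q0 c) ⟨_, hwA⟩ ?_ ?_ ?_
      · change eval₂ (cK (F := F) K) (tv (F := F) K)⁻¹ (Q0 c) *
          (tv (F := F) K ^ 2 * (algebraMap F[X] K (P0 c))⁻¹) = 1
        rw [← mul_assoc, hQ0, mul_inv_cancel₀ hp0]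
      · rintro a ⟨n, f, hn, hf⟩
        refine ⟨reflect (2 * n) f, n, ?_⟩
        change a * eval₂ (cK (F := F) K) (tv (F := F) K)⁻¹ (Q0 c) ^ n =
          eval₂ (cK (F := F) K) (tv (F := F) K)⁻¹ (reflect (2 * n) f)
        apply mul_right_cancel₀ (pow_ne_zero (2 * n) ht0)
        rw [hrev (2 * n) f hn, ← hf, pow_mul (tv (F := F) K) 2 n, mul_assoc, ← mul_pow, hQ0]
      · intro g
        refine ⟨g.natDegree, g.natDegree, reflect (2 * g.natDegree) g, ?_, ?_⟩
        · refine natDegree_reflect_le.trans ?_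
          omega
        · change eval₂ (cK (F := F) K) (tv (F := F) K)⁻¹ g *
            (tv (F := F) K ^ 2 * (algebraMap F[X] K (P0 c))⁻¹) ^ g.natDegree *
            algebraMap F[X] K (P0 c) ^ g.natDegree =
              algebraMap F[X] K (reflect (2 * g.natDegree) g)
          have h5 := hrev (2 * g.natDegree) (reflect (2 * g.natDegree) g)
            (natDegree_reflect_le.trans (by omega))
          rw [reflect_reflect] at h5
          rw [← h5, mul_assoc, ← mul_pow, mul_assoc, inv_mul_cancel₀ hp0, mul_one, ← pow_mul]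

end Pool.Agent.Y797.Q2
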