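import Pool.Agent.Y797.Q2.St2

/-!
# Classes in `K₂` with one quadratic pole (project Q2, job 10801, helper931)
-/

set_option autoImplicit false

noncomputable section

namespace Pool.Agent.Y797.Q2

open Polynomial IsLocalRing Pool.Agent.TH132.W

section SymAux

variable {F K : Type} [Field F] [Field K] [Algebra F[X] K] [IsFractionRing F[X] K]

theorem symA_unit {π : F[X]} (hi : Irreducible π) {f : F[X]} (h0 : f ≠ 0) (hf : ¬ π ∣ f) :
    ∃ w : (Oloc K π hi)ˣ,
      pu K f h0 = Units.map (algebraMap (Oloc K π hi) K : Oloc K π hi →* K) w ∧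
      ((Units.map (residue (Oloc K π hi) : Oloc K π hi →* ResidueField (Oloc K π hi)) w :
        (ResidueField (Oloc K π hi))ˣ) : ResidueField (Oloc K π hi)) = rho K π hi f := by
  have hu := isUnit_of_rho_ne K π hi (f := f) (fun h => hf ((rho_eq_zero K π hi f).1 h))
  refine ⟨hu.unit, ?_, ?_⟩
  · ext
    rfl
  · rfl

theorem symA_ord {π : F[X]} (hi : Irreducible π) {f : F[X]} (h0 : f ≠ 0) (hf : ¬ π ∣ f) :
    ord K (pol K π hi) (pol_irreducible K π hi) (pu K f h0) = 0 := by
  obtain ⟨w, hw, -⟩ := symA_unit (K := K) hi h0 hf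
  rw [hw, ord_unit]

theorem symA_lc {π : F[X]} (hi : Irreducible π) {f : F[X]} (h0 : f ≠ 0) (hf : ¬ π ∣ f) :
    ((lc K (pol K π hi) (pol_irreducible K π hi) (pu K f h0) :
      (ResidueField (Oloc K π hi))ˣ) : ResidueField (Oloc K π hi)) = rho K π hi f := by
  obtain ⟨w, hw, hw2⟩ := symA_unit (K := K) hi h0 hf
  rw [hw, lc_unit]
  exact hw2

end SymAux

theorem stSym : StSym := by
  intro hM F K _ _ _ _ c hirr γ hγ
  have hPm : (P0 c).Monic := monic_X_pow_sub_C c two_ne_zero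
  have hPd : (P0 c).natDegree = 2 := natDegree_X_pow_sub_C
  obtain ⟨t, ht⟩ : ∃ t : (kap K (P0 c) hirr)ˣ,
      tame K (pol K (P0 c) hirr) (pol_irreducible K (P0 c) hirr) γ = Additive.ofMul t :=
    ⟨Additive.toMul (tame K (pol K (P0 c) hirr) (pol_irreducible K (P0 c) hirr) γ), rfl⟩
  obtain ⟨f, hf⟩ := rho_surjective K (P0 c) hirr ((t⁻¹ : (kap K (P0 c) hirr)ˣ) : kap K (P0 c) hirr)
  set g : F[X] := f %ₘ P0 c with hg
  have hfg : rho K (P0 c) hirr g = rho K (P0 c) hirr f := by
    have h := modByMonic_add_div f (P0 c)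
    have h2 : rho K (P0 c) hirr (P0 c) = 0 := (rho_eq_zero K _ hirr _).2 dvd_rfl
    conv_rhs => rw [← h, map_add, map_mul, h2, zero_mul, add_zero]
  have hgne : ¬ P0 c ∣ g := by
    intro h
    have h1 := (rho_eq_zero K _ hirr g).2 h
    rw [hfg, hf] at h1
    exact (t⁻¹).ne_zero h1
  have hg0 : g ≠ 0 := by
    intro h
    exact hgne (h ▸ dvd_zero _)
  have hgd : g.natDegree < 2 := by
    have := natDegree_lt_natDegree hg0 (degree_modByMonic_lt f hPm)
    rw [hPd] at this
    exact this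
  have hgC : g = C (g.coeff 1) * X + C (g.coeff 0) :=
    eq_X_add_C_of_natDegree_le_one (by omega)
  obtain ⟨h0, hh0⟩ : ∃ h0, h0 = g.coeff 0 := ⟨_, rfl⟩
  obtain ⟨h1, hh1⟩ : ∃ h1, h1 = g.coeff 1 := ⟨_, rfl⟩
  rw [← hh0, ← hh1] at hgC
  have hN : h0 ^ 2 - c * h1 ^ 2 ≠ 0 := by
    intro hN
    by_cases hz : h1 = 0
    · rw [hz] at hN
      have h2 : h0 = 0 := by
        have : h0 ^ 2 = 0 := by linear_combination hN
        exact pow_eq_zero_iff two_ne_zero |>.1 this
      apply hg0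
      rw [hgC, hz, h2]; simp
    · have hroot : IsRoot (P0 c) (h0 / h1) := by
        unfold P0
        rw [IsRoot.def, eval_sub, eval_pow, eval_X, eval_C, div_pow, sub_eq_zero,
          div_eq_iff (pow_ne_zero 2 hz)]
        linear_combination hN
      have h3 := degree_eq_one_of_irreducible_of_root hirr hroot
      rw [degree_eq_natDegree hPm.ne_zero, hPd] at h3
      exact absurd h3 (by norm_num)
  obtain ⟨a0, ha0, hcase⟩ : ∃ a0 : F, a0 ≠ 0 ∧
      ((h1 = 0 ∧ a0 = 1) ∨ (h1 ≠ 0 ∧ a0 * (h0 ^ 2 - c * h1 ^ 2) = h1 ^ 2)) := by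
    by_cases hz : h1 = 0
    · exact ⟨1, one_ne_zero, Or.inl ⟨hz, rfl⟩⟩
    · exact ⟨h1 ^ 2 / (h0 ^ 2 - c * h1 ^ 2), div_ne_zero (pow_ne_zero 2 hz) hN,
        Or.inr ⟨hz, div_mul_cancel₀ _ hN⟩⟩
  have hpne : C a0 * P0 c ≠ 0 := mul_ne_zero (C_ne_zero.2 ha0) hPm.ne_zero
  have hCu : IsUnit (C a0 : F[X]) := isUnit_C.2 (isUnit_iff_ne_zero.2 ha0)
  refine ⟨h0, h1, a0, pu K (C a0 * P0 c) hpne, pu K g hg0, ⟨?_, ?_, ha0, hN, hcase⟩, ?_⟩
  · show algebraMap F[X] K (C a0 * P0 c) = _
    rw [map_mul]; rfl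
  · show algebraMap F[X] K g = _
    rw [hgC, map_add, map_mul]
    show cK (F := F) K h1 * tv (F := F) K + cK (F := F) K h0 = _
    ring
  refine hM F K _ fun π hπm hi => ?_
  by_cases hne : π = P0 c
  · subst hne
    have e1 : pu K (C a0 * P0 c) hpne = cu K (Units.mk0 a0 ha0) *
        piU K (pol K (P0 c) hirr) (pol_irreducible K (P0 c) hirr) := by
      ext
      show algebraMap F[X] K (C a0 * P0 c) = _
      rw [map_mul]; rfl
    have e2 : ord K (pol K (P0 c) hirr) (pol_irreducible K (P0 c) hirr)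
        (pu K (C a0 * P0 c) hpne) = 1 := by
      rw [e1, ord_mul, ord_pi, ord_cu _ _ ((algebraMap F[X] (Oloc K (P0 c) hirr)).comp C)
        (fun a => rfl), zero_add]
    have e3 : tame K (pol K (P0 c) hirr) (pol_irreducible K (P0 c) hirr)
        (sym (pu K (C a0 * P0 c) hpne) (pu K g hg0)) = Additive.ofMul t := by
      rw [tame_sym, e2, symA_ord hirr hg0 hgne, mul_zero, zpow_zero, one_mul, zpow_zero, one_mul,
        zpow_one]
      congr 1
      have e4 : lc K (pol K (P0 c) hirr) (pol_irreducible K (P0 c) hirr) (pu K g hg0) = t⁻¹ := by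
        ext
        rw [symA_lc hirr hg0 hgne, hfg, hf]
      rw [e4, inv_inv]
    rw [map_sub, e3, ht, sub_self]
  · have hπP : ¬ π ∣ C a0 * P0 c := by
      intro h
      rw [hCu.dvd_mul_left] at h
      exact hne (eq_of_monic_of_associated hπm hPm (hi.associated_of_dvd hirr h))
    rw [map_sub, hγ π hπm hi hne, zero_sub, neg_eq_zero]
    by_cases hπg : π ∣ g
    · rw [tame_left_unit _ _ _ _ (symA_ord hi hpne hπP)]
      rcases hcase with ⟨hz, -⟩ | ⟨hz, haN⟩
      · exfalso
        rw [hz, C_0, zero_mul, zero_add] at hgC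
        have h00 : h0 ≠ 0 := by
          intro h
          rw [h, C_0] at hgC
          exact hg0 hgC
        rw [hgC] at hπg
        exact hi.not_isUnit (isUnit_of_dvd_unit hπg (isUnit_C.2 (isUnit_iff_ne_zero.2 h00)))
      · have hid : C (h0 ^ 2 - c * h1 ^ 2) * (1 - C a0 * P0 c)
            = (C h0 - C h1 * X) * g := by
          have h5 : (C a0 * C (h0 ^ 2 - c * h1 ^ 2) : F[X]) = C h1 ^ 2 := by
            rw [← C_mul, haN, C_pow]
          rw [hgC]
          unfold P0
          have h6 : (C (h0 ^ 2 - c * h1 ^ 2) : F[X]) = C h0 ^ 2 - C c * C h1 ^ 2 := by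
            rw [C_sub, C_mul, C_pow, C_pow]
          have h7 : C (h0 ^ 2 - c * h1 ^ 2) * (1 - C a0 * (X ^ 2 - C c))
              = C (h0 ^ 2 - c * h1 ^ 2) - (C a0 * C (h0 ^ 2 - c * h1 ^ 2)) * (X ^ 2 - C c) := by
            ring
          rw [h7, h5, h6]
          ring
        have h8 : rho K π hi (C (h0 ^ 2 - c * h1 ^ 2)) * (1 - rho K π hi (C a0 * P0 c)) = 0 := by
          have h9 := congrArg (rho K π hi) hid
          have h9a : rho K π hi (C (h0 ^ 2 - c * h1 ^ 2) * (1 - C a0 * P0 c))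
              = rho K π hi (C (h0 ^ 2 - c * h1 ^ 2)) * (1 - rho K π hi (C a0 * P0 c)) := by
            rw [map_mul (rho K π hi) (C (h0 ^ 2 - c * h1 ^ 2)) (1 - C a0 * P0 c),
              map_sub (rho K π hi) 1 (C a0 * P0 c), map_one]
          have h9b : rho K π hi ((C h0 - C h1 * X) * g) = 0 := by
            rw [map_mul (rho K π hi) (C h0 - C h1 * X) g, (rho_eq_zero K π hi g).2 hπg, mul_zero]
          exact h9a.symm.trans (h9.trans h9b)
        have h10 : rho K π hi (C (h0 ^ 2 - c * h1 ^ 2)) ≠ 0 := by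
          rw [Ne, rho_eq_zero]
          intro h
          exact hi.not_isUnit (isUnit_of_dvd_unit h (isUnit_C.2 (isUnit_iff_ne_zero.2 hN)))
        have h11 : rho K π hi (C a0 * P0 c) = 1 := by
          rcases mul_eq_zero.1 h8 with h | h
          · exact absurd h h10
          · exact (sub_eq_zero.1 h).symm
        have h12 : lc K (pol K π hi) (pol_irreducible K π hi) (pu K (C a0 * P0 c) hpne) = 1 := by
          ext
          rw [symA_lc hi hpne hπP, h11, Units.val_one]
        rw [h12, one_zpow]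
        rfl
    · exact tame_of_ord _ _ _ _ (symA_ord hi hpne hπP) (symA_ord hi hg0 hπg)

end Pool.Agent.Y797.Q2
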