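import Pool.Agent.Y797.Q2.Surj
import Pool.Agent.Y797.Q2.Frac
import Pool.Agent.Y797.Q2.Smooth
import Pool.Agent.Y797.Q2.Res3
import Pool.Agent.Y797.Q2.Sym
import Pool.Agent.Y797.Q2.Inf
import Pool.Agent.Y797.Q2.PairA
import Pool.Agent.Y797.Q2.PairB
import Pool.Agent.Y797.Q2.Arith
import Pool.Agent.Y797.Q2.Norm
import Pool.Agent.Y797.Q2.Const
import Pool.Agent.Y797.Q2.ConstRes

/-!
# The curve as a scheme
-/

set_option autoImplicit false
set_option maxHeartbeats 400000

noncomputable section

namespace Pool.Agent.Y797.Q2

open Polynomial IsLocalRing AlgebraicGeometry Pool.Agent.TH132.W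

section Curve

variable (k : Type) [Field k] (c : k)

/-- The coordinate ring. -/
abbrev AR : Subring (FractionRing k[X]) := A0 (FractionRing k[X]) (P0 c) (P0_deg c)

/-- The coordinate ring as an object of the category. -/
abbrev AC : CommRingCat.{0} := CommRingCat.of (AR k c)

instance : IsDomain (AC k c) := inferInstanceAs (IsDomain (AR k c))

instance : IsFractionRing (AR k c) (FractionRing k[X]) :=
  stFrac k (FractionRing k[X]) (P0 c) (P0_deg c) (P0_ne c)

/-- The curve: the projective line without the zeros of `t² - c`. -/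
abbrev XC : Scheme.{0} := Spec (AC k c)

instance : IsIntegral (XC k c) := inferInstance

/-- The function field. -/
abbrev LC : Type := (XC k c).functionField

instance : Algebra (AR k c) (LC k c) := instAlgebraCarrierFunctionFieldSpec (AC k c)

instance : IsFractionRing (AR k c) (LC k c) := functionField_isFractionRing_of_affine (AC k c)

/-- The identification of the function field. -/
def toKC : LC k c ≃ₐ[AR k c] FractionRing k[X] :=
  IsLocalization.algEquiv (nonZeroDivisors (AR k c)) _ _

/-- The identification of the function field, in the other direction. -/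
def fromK : FractionRing k[X] →+* LC k c :=
  (((toKC k c).symm : FractionRing k[X] ≃+* LC k c) : FractionRing k[X] →+* LC k c)

theorem toKC_fromK (z : FractionRing k[X]) : toKC k c (fromK k c z) = z :=
  (toKC k c).apply_symm_apply z

theorem fromK_toKC (z : LC k c) : fromK k c (toKC k c z) = z :=
  (toKC k c).symm_apply_apply z

instance algLC : Algebra k[X] (LC k c) :=
  ((fromK k c).comp (algebraMap k[X] (FractionRing k[X]))).toAlgebra

theorem algLC_apply (f : k[X]) : algebraMap k[X] (LC k c) f =
    fromK k c (algebraMap k[X] (FractionRing k[X]) f) := rfl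

instance fracLC : IsFractionRing k[X] (LC k c) := by
  let e : FractionRing k[X] ≃ₐ[k[X]] LC k c :=
    { ((toKC k c).symm : FractionRing k[X] ≃+* LC k c) with
      commutes' := fun _ => rfl }
  exact IsLocalization.isLocalization_of_algEquiv (nonZeroDivisors k[X]) e

theorem toKC_alg (a : AR k c) : toKC k c (algebraMap (AR k c) (LC k c) a) = a :=
  (toKC k c).commutes a

theorem hAC (z : LC k c) :
    (∃ a : AC k c, algebraMap (AC k c) (LC k c) a = z) ↔ Mem0 (LC k c) (P0 c) z := by
  constructor
  · rintro ⟨a, rfl⟩
    obtain ⟨n, f, hf, e⟩ := (a : AR k c).2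
    refine ⟨n, f, hf, ?_⟩
    have h1 : fromK k c ((a : AR k c) : FractionRing k[X]) =
        algebraMap (AR k c) (LC k c) a := by
      rw [← toKC_alg, fromK_toKC]
    have h2 := congrArg (fromK k c) e
    rw [map_mul, map_pow, h1] at h2
    exact h2
  · rintro ⟨n, f, hf, e⟩
    have h1 : toKC k c z * algebraMap k[X] (FractionRing k[X]) (P0 c) ^ n =
        algebraMap k[X] (FractionRing k[X]) f := by
      have h2 := congrArg (toKC k c) e
      rw [map_mul, map_pow, algLC_apply, algLC_apply, toKC_fromK, toKC_fromK] at h2
      exact h2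
    refine ⟨(⟨toKC k c z, n, f, hf, h1⟩ : AR k c), ?_⟩
    apply (toKC k c).injective
    exact toKC_alg k c _

theorem hjC (a : k) : algebraMap (AC k c) (LC k c)
    (strF k (FractionRing k[X]) (P0 c) (P0_deg c) a) = cK (F := k) (LC k c) a := by
  apply (toKC k c).injective
  refine (toKC_alg k c _).trans ?_
  change _ = toKC k c (fromK k c (algebraMap k[X] (FractionRing k[X]) (C a)))
  rw [toKC_fromK]
  rfl

instance smoothC : Smooth (Spec.map (CommRingCat.ofHom
    (strF k (FractionRing k[X]) (P0 c) (P0_deg c)))) := by
  rw [HasRingHomProperty.Spec_iff (P := @Smooth)]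
  exact stSmooth k (FractionRing k[X]) c

end Curve

end Pool.Agent.Y797.Q2
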