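import Pool.Agent.Y797.Q2.St
import Pool.Agent.TH132.W.Cz

/-!
# The signed discriminant on the fundamental ideal (helper143)
-/

set_option autoImplicit false

noncomputable section

namespace Pool.Agent.Y797.Q2

open Pool.Agent.TH132.W
open scoped Pointwise

/-- A quadratic character of the group of units which separates a given class of squares. -/
theorem exists_chi (K : Type) [Field K] (c : Kˣ) (hc : ¬ IsSquare c) :
    ∃ χ : Kˣ → ZMod 2, (∀ a b, χ (a * b) = χ a + χ b) ∧ χ c = 1 := by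
  let N : AddSubgroup (Additive Kˣ) := (nsmulAddMonoidHom 2 : Additive Kˣ →+ Additive Kˣ).range
  let _ : Module (ZMod 2) (Additive Kˣ ⧸ N) := AddCommGroup.zmodModule (n := 2) (by
    intro x
    obtain ⟨y, rfl⟩ := QuotientAddGroup.mk_surjective (s := N) x
    rw [two_nsmul]
    have h1 : (QuotientAddGroup.mk (y + y) : Additive Kˣ ⧸ N) = 0 := by
      refine (QuotientAddGroup.eq_zero_iff _).2 ⟨y, ?_⟩
      exact two_nsmul y
    exact h1)
  let π : Kˣ → Additive Kˣ ⧸ N := fun a => QuotientAddGroup.mk (Additive.ofMul a)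
  have hπ : ∀ a b, π (a * b) = π a + π b := fun a b => rfl
  have hne : π c ≠ 0 := by
    intro h
    obtain ⟨y, hy⟩ := (QuotientAddGroup.eq_zero_iff _).1 h
    have hy' : y + y = Additive.ofMul c := (two_nsmul y).symm.trans hy
    exact hc ⟨Additive.toMul y, (congrArg Additive.toMul hy').symm⟩
  have h2 : ¬ ∀ φ : Module.Dual (ZMod 2) (Additive Kˣ ⧸ N), φ (π c) = 0 := by
    intro h
    exact hne ((Module.forall_dual_apply_eq_zero_iff (ZMod 2) (π c)).1 h)
  push Not at h2
  obtain ⟨φ, hφ⟩ := h2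
  refine ⟨fun a => φ (π a), fun a b => ?_, ?_⟩
  · show φ (π (a * b)) = φ (π a) + φ (π b)
    rw [hπ, map_add]
  have : ∀ t : ZMod 2, t ≠ 0 → t = 1 := by decide
  exact this _ hφ

section vanish

variable {K : Type} [Field K] {M : Type} [AddCommGroup M] (χ : Kˣ → ZMod 2)
  (hχ : ∀ a b, χ (a * b) = χ a + χ b) (g : ZMod 2 →+ M) (e : M) (D : WittRing K →+ M)
  (hD : ∀ x : Kˣ, D (cls x) = e + g (χ x))

include hχ hD in
theorem vanish_gen (a b : Kˣ) (y : WittRing K) : D (y * (pf a * pf b)) = 0 := by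
  induction y using Pool.Agent.TH132.W.induction with
  | h0 => simp
  | h1 c =>
    have h1 : cls c * (pf a * pf b) = cls c - cls (c * a) - cls (c * b) + cls (c * a * b) := by
      rw [cls_mul, cls_mul, cls_mul, cls_mul]
      unfold pf
      ring
    rw [h1, map_add, map_sub, map_sub, hD, hD, hD, hD, hχ, hχ, hχ, hχ, map_add, map_add, map_add,
      map_add]
    abel
  | hadd x y hx hy => rw [add_mul, map_add, hx, hy, add_zero]

include hχ hD in
theorem vanish (w : WittRing K) (hw : w ∈ fund K ^ 2) : D w = 0 := by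
  have h1 : fund K ^ 2 = Ideal.span (Set.range (pf (F := K)) * Set.range (pf (F := K))) := by
    unfold fund
    rw [pow_two, Ideal.span_mul_span']
  rw [h1] at hw
  have key : ∀ y : WittRing K, D (y * w) = 0 := by
    refine Submodule.span_induction (p := fun x _ => ∀ y : WittRing K, D (y * x) = 0)
      ?_ ?_ ?_ ?_ hw
    · rintro x ⟨_, ⟨a, rfl⟩, _, ⟨b, rfl⟩, rfl⟩ y
      exact vanish_gen χ hχ g e D hD a b y
    · intro y
      rw [mul_zero, map_zero]
    · intro x x' _ _ h2 h3 y
      rw [mul_add, map_add, h2, h3, add_zero]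
    · intro c x _ h2 y
      rw [smul_eq_mul, ← mul_assoc]
      exact h2 _
  have := key 1
  rwa [one_mul] at this

include hχ hD in
theorem disc_val (a b : Kˣ) (h : pf a - pf b ∈ fund K ^ 2) : g (χ (a * b)) = 0 := by
  have h1 := vanish χ hχ g e D hD _ h
  have h2 : pf a - pf b = cls b - cls a := by unfold pf; ring
  rw [h2, map_sub, hD, hD, add_sub_add_left_eq_sub, ← map_sub] at h1
  have h3 : χ b - χ a = χ (a * b) := by
    rw [hχ]
    have : ∀ s t : ZMod 2, t - s = s + t := by decide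
    exact this _ _
  rwa [h3] at h1

end vanish

/-- Multiplication by two from `ℤ/2` to `ℤ/4`. -/
def g4 : ZMod 2 →+ ZMod 4 where
  toFun t := 2 * (t.val : ZMod 4)
  map_zero' := by decide
  map_add' := by decide

theorem stDisc : StDisc := by
  intro K _ a b h
  by_contra hsq
  obtain ⟨χ, hχ, hab⟩ := exists_chi K (a * b) hsq
  classical
  have hd : ∀ t : ZMod 2, t + t = 0 := by decide
  let ψ : K → ZMod 2 := fun x => if hx : x = 0 then 0 else χ (Units.mk0 x hx)
  have hψ : ∀ x (hx : x ≠ 0), ψ x = χ (Units.mk0 x hx) := fun x hx => dif_neg hx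
  have hm : ∀ x y : K, x ≠ 0 → y ≠ 0 → ψ (x * y) = ψ x + ψ y := by
    intro x y hx hy
    rw [hψ _ hx, hψ _ hy, hψ _ (mul_ne_zero hx hy), ← hχ]
    congr 1
    ext
    simp
  have hsq' : ∀ x y : K, x ≠ 0 → y ≠ 0 → ψ (x * y ^ 2) = ψ x := by
    intro x y hx hy
    rw [pow_two, hm _ _ hx (mul_ne_zero hy hy), hm _ _ hy hy, hd, add_zero]
  have hn : ∀ x : K, x ≠ 0 → ψ (-x) = ψ (-1) + ψ x := by
    intro x hx
    rw [← hm _ _ (neg_ne_zero.2 one_ne_zero) hx, neg_one_mul]
  have hadd : ∀ x y : K, x ≠ 0 → y ≠ 0 → x + y ≠ 0 →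
      ψ (x + y) + ψ (x * y * (x + y)) = ψ x + ψ y := by
    intro x y hx hy hxy
    rw [hm _ _ (mul_ne_zero hx hy) hxy, hm _ _ hx hy]
    have : ∀ s t u : ZMod 2, s + (t + u + s) = t + u := by decide
    exact this _ _ _
  have hcl : ∀ x : Kˣ, cls x = cz (x : K) := fun x => (cz_unit x).symm
  have hψu : ∀ x : Kˣ, ψ (x : K) = χ x := by
    intro x
    rw [hψ _ x.ne_zero]
    congr 1
    ext
    simp
  by_cases hneg : ψ (-1) = 0
  · let D : WittRing K →+ ZMod 2 := liftAdd ψ hsq'
      (fun x hx => by rw [hn x hx, hneg, zero_add, hd])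
      (fun x y hx hy hxy => (hadd x y hx hy hxy).symm)
    have hD : ∀ x : Kˣ, D (cls x) = 0 + AddMonoidHom.id _ (χ x) := by
      intro x
      rw [hcl, liftAdd_cz ψ _ _ _ x.ne_zero, hψu, zero_add]
      rfl
    have h1 := disc_val χ hχ (AddMonoidHom.id _) 0 D hD a b h
    rw [hab] at h1
    exact absurd h1 (by decide)
  · have hneg1 : ψ (-1) = 1 := by
      have : ∀ t : ZMod 2, t ≠ 0 → t = 1 := by decide
      exact this _ hneg
    let D : WittRing K →+ ZMod 4 := liftAdd (fun x => 1 + g4 (ψ x))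
      (fun x y hx hy => by rw [hsq' x y hx hy])
      (fun x hx => by
        rw [hn x hx, hneg1]
        have : ∀ t : ZMod 2, (1 + g4 t) + (1 + g4 (1 + t)) = 0 := by decide
        exact this _)
      (fun x y hx hy hxy => by
        have h2 := congrArg g4 (hadd x y hx hy hxy)
        rw [map_add, map_add] at h2
        linear_combination -h2)
    have hD : ∀ x : Kˣ, D (cls x) = 1 + g4 (χ x) := by
      intro x
      rw [hcl, liftAdd_cz (fun x => 1 + g4 (ψ x)) _ _ _ x.ne_zero, hψu]
    have h1 := disc_val χ hχ g4 1 D hD a b h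
    rw [hab] at h1
    exact absurd h1 (by decide)

end Pool.Agent.Y797.Q2
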