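import Pool.Agent.Y797.Q2.St

/-!
# Tame symbols do not depend on the uniformizer (helper905)
-/

set_option autoImplicit false

noncomputable section

namespace Pool.Agent.Y797.Q2

open Polynomial IsLocalRing Pool.Agent.TH132.W TensorProduct

namespace Eqv

/-- Homomorphisms from `K₂` which agree on symbols are equal. -/
theorem ext_sym {F M : Type} [Field F] [AddCommGroup M] (f g : MilnorK2 F →+ M)
    (h : ∀ a b : Fˣ, f (sym a b) = g (sym a b)) (x : MilnorK2 F) : f x = g x := by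
  obtain ⟨t, rfl⟩ := QuotientAddGroup.mk_surjective (s := steinberg F) x
  let f' : (Additive Fˣ ⊗[ℤ] Additive Fˣ) →+ M := f.comp (QuotientAddGroup.mk' (steinberg F))
  let g' : (Additive Fˣ ⊗[ℤ] Additive Fˣ) →+ M := g.comp (QuotientAddGroup.mk' (steinberg F))
  show f' t = g' t
  induction t using TensorProduct.induction_on with
  | zero => rw [map_zero, map_zero]
  | tmul a b => exact h a.toMul b.toMul
  | add x y hx hy => rw [map_add, map_add, hx, hy]

variable (K : Type) [Field K] {R R' : Type} [CommRing R] [IsDomain R]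
  [IsDiscreteValuationRing R] [Algebra R K] [IsFractionRing R K] [CommRing R'] [IsDomain R']
  [IsDiscreteValuationRing R'] [Algebra R' K] [IsFractionRing R' K]

/-- The map of the groups of units of the residue fields. -/
def phi (e : R ≃+* R') : (ResidueField R)ˣ →* (ResidueField R')ˣ :=
  Units.map (ResidueField.map (e : R →+* R') : ResidueField R →* ResidueField R')

theorem phi_neg_one (e : R ≃+* R') : phi e (-1) = -1 := by
  ext
  simp [phi]

/-- Valuations agree and leading coefficients differ by a power of a unit. -/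
theorem key (e : R ≃+* R') (he : ∀ z, algebraMap R' K (e z) = algebraMap R K z)
    (ϖ : R) (hϖ : Irreducible ϖ) (ϖ' : R') (hϖ' : Irreducible ϖ') (ε : R'ˣ)
    (hε : ϖ' * ε = e ϖ) (a : Kˣ) :
    ord K ϖ' hϖ' a = ord K ϖ hϖ a ∧
      lc K ϖ' hϖ' a = Units.map (residue R' : R' →* ResidueField R') ε ^ ord K ϖ hϖ a *
        phi e (lc K ϖ hϖ a) := by
  obtain ⟨n, u, rfl⟩ := exists_mk (K := K) ϖ hϖ a
  have h1 : piU K ϖ hϖ = piU K ϖ' hϖ' * Units.map (algebraMap R' K : R' →* K) ε := by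
    ext
    simp only [piU, Units.val_mul, Units.val_mk0, Units.coe_map, MonoidHom.coe_coe]
    rw [← map_mul, hε, he]
  have h2 : Units.map (algebraMap R K : R →* K) u =
      Units.map (algebraMap R' K : R' →* K) (Units.map (e : R →* R') u) := by
    ext
    simp only [Units.coe_map, MonoidHom.coe_coe]
    exact (he _).symm
  have h3 : piU K ϖ hϖ ^ n * Units.map (algebraMap R K : R →* K) u =
      piU K ϖ' hϖ' ^ n * Units.map (algebraMap R' K : R' →* K)
        (ε ^ n * Units.map (e : R →* R') u) := by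
    rw [h1, h2, mul_zpow, map_mul, map_zpow, mul_assoc]
  rw [ord_mk, lc_mk, h3, ord_mk, lc_mk]
  refine ⟨rfl, ?_⟩
  rw [map_mul, map_zpow]
  congr 1

theorem tame_eq (e : R ≃+* R') (he : ∀ z, algebraMap R' K (e z) = algebraMap R K z)
    (ϖ : R) (hϖ : Irreducible ϖ) (ϖ' : R') (hϖ' : Irreducible ϖ') (a b : Kˣ) :
    tame K ϖ' hϖ' (sym a b) = MonoidHom.toAdditive (phi e) (tame K ϖ hϖ (sym a b)) := by
  obtain ⟨ε, hε⟩ := IsDiscreteValuationRing.associated_of_irreducible R' hϖ'
    ((MulEquiv.irreducible_iff e).2 hϖ)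
  obtain ⟨ha, ha'⟩ := key K e he ϖ hϖ ϖ' hϖ' ε hε a
  obtain ⟨hb, hb'⟩ := key K e he ϖ hϖ ϖ' hϖ' ε hε b
  rw [tame_sym, tame_sym, ha, hb, ha', hb']
  show Additive.ofMul _ = Additive.ofMul (phi e ((-1) ^ (ord K ϖ hϖ a * ord K ϖ hϖ b) *
    (lc K ϖ hϖ a ^ ord K ϖ hϖ b * (lc K ϖ hϖ b ^ ord K ϖ hϖ a)⁻¹)))
  congr 1
  rw [map_mul, map_mul, map_inv, map_zpow, map_zpow, map_zpow, phi_neg_one]
  congr 1
  generalize ord K ϖ hϖ a = n
  generalize ord K ϖ hϖ b = m
  generalize Units.map (residue R' : R' →* ResidueField R') ε = η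
  rw [mul_zpow, mul_zpow, mul_inv, ← zpow_mul, ← zpow_mul, mul_comm m n]
  rw [mul_mul_mul_comm, mul_inv_cancel, one_mul]

end Eqv

open Eqv in
theorem stEquiv : StEquiv := by
  intro K _ R R' _ _ _ _ _ _ _ _ _ _ e he ϖ hϖ ϖ' hϖ' α hα
  have h1 := ext_sym (tame K ϖ' hϖ') ((MonoidHom.toAdditive (phi e)).comp (tame K ϖ hϖ))
    (fun a b => tame_eq K e he ϖ hϖ ϖ' hϖ' a b) α
  rw [h1, AddMonoidHom.comp_apply, hα, map_zero]

end Pool.Agent.Y797.Q2

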