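import Pool.Agent.Y797.Q2.St

/-!
# The polynomial has even order at all points of the curve
-/

set_option autoImplicit false

noncomputable section

namespace Pool.Agent.Y797.Q2

open Polynomial IsLocalRing Pool.Agent.TH132.W

theorem stEven : StEven := by
  intro R K _ _ _ _ _ _ ϖ hϖ u v c p hv hp
  by_cases hu : IsUnit u
  · obtain ⟨u, rfl⟩ := hu
    have h1 : p * Units.map (algebraMap R K : R →* K) u = 1 := by
      ext
      simpa using hp
    have h2 : p = (Units.map (algebraMap R K : R →* K) u)⁻¹ := eq_inv_of_mul_eq_one_left h1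
    rw [h2, ord_inv, ord_unit, neg_zero]
    exact Even.zero
  · have he : IsUnit (1 + c * u) := by
      apply IsLocalRing.isUnit_of_mem_nonunits_one_sub_self
      rw [mem_nonunits_iff]
      intro h
      apply hu
      have h1 : 1 - (1 + c * u) = (-c) * u := by ring
      rw [h1] at h
      exact isUnit_of_mul_isUnit_right h
    obtain ⟨e, he⟩ := he
    rw [← he] at hv
    have h1 : algebraMap R K v ^ 2 = algebraMap R K u * algebraMap R K (e : R) := by
      rw [← map_pow, hv, map_mul]
    have h2 : (p : K) * algebraMap R K v ^ 2 = algebraMap R K (e : R) := by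
      rw [h1, ← mul_assoc, hp, one_mul]
    have h3 : algebraMap R K (e : R) ≠ 0 :=
      (Units.map (algebraMap R K : R →* K) e).ne_zero
    have h4 : algebraMap R K v ≠ 0 := by
      intro h
      rw [h] at h2
      apply h3
      rw [← h2]
      ring
    have h5 : p * Units.mk0 _ h4 * Units.mk0 _ h4 = Units.map (algebraMap R K : R →* K) e := by
      ext
      show (p : K) * algebraMap R K v * algebraMap R K v = algebraMap R K (e : R)
      rw [← h2]
      ring
    have h6 : ord K ϖ hϖ p + ord K ϖ hϖ (Units.mk0 _ h4) + ord K ϖ hϖ (Units.mk0 _ h4) = 0 := by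
      rw [← ord_mul, ← ord_mul, h5, ord_unit]
    refine ⟨- ord K ϖ hϖ (Units.mk0 _ h4), ?_⟩
    linarith

end Pool.Agent.Y797.Q2
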