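import Pool.Agent.Y797.Q2.St

/-!
# An infinite algebraic extension of the field with five elements without a square root of two
(helper420)
-/

set_option autoImplicit false

noncomputable section

namespace Pool.Agent.Y797.Q2

open Polynomial

namespace FieldX

instance fact5 : Fact (Nat.Prime 5) := ⟨by norm_num⟩

/-- the algebraic closure -/
abbrev Om : Type := AlgebraicClosure (ZMod 5)

theorem iter {a : Om} {Q : ℕ} (h : a ^ Q = a) (q : ℕ) : a ^ (Q ^ q) = a := by
  induction q with
  | zero => simp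
  | succ q ih => rw [pow_succ, pow_mul, ih, h]

theorem up {a : Om} {n m : ℕ} (hnm : n ≤ m) (h : a ^ (5 ^ (3 ^ n)) = a) :
    a ^ (5 ^ (3 ^ m)) = a := by
  obtain ⟨q, rfl⟩ := Nat.exists_eq_add_of_le hnm
  rw [pow_add 3 n q, pow_mul 5 (3 ^ n) (3 ^ q)]
  exact iter h _

/-- the field -/
def kk : IntermediateField (ZMod 5) Om where
  carrier := {a | ∃ n : ℕ, a ^ (5 ^ (3 ^ n)) = a}
  mul_mem' := by
    rintro a b ⟨n, hn⟩ ⟨m, hm⟩
    refine ⟨max n m, ?_⟩
    rw [mul_pow, up (le_max_left n m) hn, up (le_max_right n m) hm]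
  add_mem' := by
    rintro a b ⟨n, hn⟩ ⟨m, hm⟩
    refine ⟨max n m, ?_⟩
    rw [add_pow_char_pow, up (le_max_left n m) hn, up (le_max_right n m) hm]
  algebraMap_mem' := by
    intro c
    refine ⟨0, ?_⟩
    rw [pow_zero, pow_one, ← map_pow, ZMod.pow_card]
  inv_mem' := by
    rintro a ⟨n, hn⟩
    refine ⟨n, ?_⟩
    rw [inv_pow, hn]

theorem mem_kk (a : Om) : a ∈ kk ↔ ∃ n : ℕ, a ^ (5 ^ (3 ^ n)) = a := Iff.rfl

theorem kk_inf : Infinite kk := by
  classical
  by_contra hcon
  rw [not_infinite_iff_finite] at hcon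
  obtain ⟨N, hN⟩ : ∃ N, Nat.card kk = N := ⟨_, rfl⟩
  have h5 : N < 5 ^ (3 ^ N) :=
    (Nat.lt_pow_self (by norm_num)).trans (Nat.lt_pow_self (by norm_num))
  set q := 5 ^ (3 ^ N) with hq
  have hq1 : 1 < q := Nat.one_lt_pow (by positivity) (by norm_num)
  let P : Polynomial Om := X ^ q - X
  have hdeg : P.natDegree = q := FiniteField.X_pow_card_sub_X_natDegree_eq Om hq1
  have hsep : P.Separable := galois_poly_separable 5 q (dvd_pow_self 5 (by positivity))
  have hne : P ≠ 0 := FiniteField.X_pow_card_sub_X_ne_zero Om hq1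
  have hcard : Multiset.card P.roots = q := by
    have := (splits_iff_card_roots.1 (IsAlgClosed.splits P))
    rw [this, hdeg]
  have hnd : P.roots.Nodup := nodup_roots hsep
  have hsub : ∀ x ∈ P.roots.toFinset, x ∈ kk := by
    intro x hx
    rw [Multiset.mem_toFinset, mem_roots hne, IsRoot.def] at hx
    refine ⟨N, ?_⟩
    simp only [P, eval_sub, eval_pow, eval_X] at hx
    exact sub_eq_zero.1 hx
  have hle : P.roots.toFinset.card ≤ Nat.card kk := by
    have h1 : (P.roots.toFinset : Set Om) ⊆ (kk : Set Om) := fun x hx => hsub x hx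
    have hfin : (kk : Set Om).Finite := Set.toFinite _
    have h2 := Set.ncard_le_ncard h1 hfin
    rw [Set.ncard_coe_finset] at h2
    exact h2
  rw [Multiset.toFinset_card_of_nodup hnd, hcard, hN] at hle
  omega

theorem two_ne : (2 : Om) ≠ 0 := by
  intro h
  have h1 : ((2 : ℕ) : Om) = 0 := by exact_mod_cast h
  rw [CharP.cast_eq_zero_iff Om 5] at h1
  omega

theorem five_eq : (5 : Om) = 0 := by
  have h1 : ((5 : ℕ) : Om) = 0 := by
    rw [CharP.cast_eq_zero_iff Om 5]
  exact_mod_cast h1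

theorem no_sqrt (s : Om) (hs : s ∈ kk) : s ^ 2 ≠ 2 := by
  intro h2
  obtain ⟨n, hn⟩ := hs
  have h5 : s ^ 5 = -s := by
    have : s ^ 5 = (s ^ 2) ^ 2 * s := by ring
    rw [this, h2]
    have h6 : (2:Om) ^ 2 * s = 5 * s - s := by ring
    rw [h6, five_eq]
    ring
  have hm : ∀ m : ℕ, s ^ (5 ^ m) = (-1) ^ m * s := by
    intro m
    induction m with
    | zero => simp
    | succ m ih =>
      rw [pow_succ 5 m, pow_mul, ih, mul_pow, h5, ← pow_mul, mul_comm m 5, pow_mul]
      have : ((-1 : Om)) ^ 5 = -1 := by norm_num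
      rw [this, pow_succ]
      ring
  have hodd : Odd (3 ^ n) := Odd.pow (by decide)
  have h7 := hm (3 ^ n)
  rw [hn, hodd.neg_one_pow] at h7
  have h8 : 2 * s = 0 := by linear_combination h7
  have h9 : s = 0 := (mul_eq_zero.1 h8).resolve_left two_ne
  rw [h9] at h2
  exact two_ne (by rw [← h2]; ring)

end FieldX

open FieldX in
theorem stField : StField := by
  refine ⟨kk, inferInstance, algebraMap (ZMod 5) kk, kk_inf, ?_, ?_⟩
  · intro x
    have h1 : IsIntegral (ZMod 5) (x : Om) := Algebra.IsIntegral.isIntegral _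
    have h2 : IsIntegral (ZMod 5) x := IntermediateField.isIntegral_iff.2 h1
    exact h2
  · intro s hs
    apply no_sqrt (s : Om) s.2
    have h1 := congrArg (algebraMap kk Om) hs
    rw [map_pow, map_ofNat] at h1
    exact h1

end Pool.Agent.Y797.Q2
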