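import Pool.Agent.Y797.Q2.St

/-!
# The square of the fundamental ideal of an algebraic extension of a finite field
-/

set_option autoImplicit false

noncomputable section

namespace Pool.Agent.Y797.Q2

open Polynomial IsLocalRing Pool.Agent.TH132.W

/-- In an algebraic extension of a finite prime field, binary forms represent one. -/
theorem represents_one {κ : Type} [Field κ] (j : ZMod 5 →+* κ) (hj : j.IsIntegral) (a b : κ)
    (ha : a ≠ 0) (hb : b ≠ 0) : ∃ x y : κ, a * x ^ 2 + b * y ^ 2 = 1 := by
  haveI : Fact (Nat.Prime 5) := ⟨by norm_num⟩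
  letI : Algebra (ZMod 5) κ := j.toAlgebra
  have hint : ∀ z : κ, IsIntegral (ZMod 5) z := fun z => hj z
  let S : Subalgebra (ZMod 5) κ := Algebra.adjoin (ZMod 5) ({a, b} : Set κ)
  have hfg : (Subalgebra.toSubmodule S).FG :=
    fg_adjoin_of_finite (Set.toFinite _) fun x _ => hint x
  haveI : Module.Finite (ZMod 5) S := Module.Finite.iff_fg.mpr hfg
  haveI : Finite S := Module.finite_of_finite (ZMod 5)
  letI : Fintype S := Fintype.ofFinite S
  have hcard : Fintype.card S % 2 = 1 := by
    rw [Module.card_eq_pow_finrank (K := ZMod 5) (V := S), ZMod.card, Nat.pow_mod]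
    norm_num
  let a' : S := ⟨a, Algebra.subset_adjoin (by simp)⟩
  let b' : S := ⟨b, Algebra.subset_adjoin (by simp)⟩
  have ha' : a' ≠ 0 := fun h => ha (congrArg Subtype.val h)
  have hb' : b' ≠ 0 := fun h => hb (congrArg Subtype.val h)
  obtain ⟨x, y, hxy⟩ := FiniteField.exists_root_sum_quadratic
    (f := C a' * X ^ 2 + C 0 * X + C (-1)) (g := C b' * X ^ 2 + C 0 * X + C 0)
    (degree_quadratic ha') (degree_quadratic hb') hcard
  simp only [eval_add, eval_mul, eval_C, eval_pow, eval_X] at hxy
  have h := congrArg Subtype.val hxy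
  refine ⟨x, y, ?_⟩
  have e : a * (x : κ) ^ 2 + 0 * (x : κ) + (-1) + (b * (y : κ) ^ 2 + 0 * (y : κ) + 0) = 0 := h
  linear_combination e

theorem pf_mul_pf {κ : Type} [Field κ] (j : ZMod 5 →+* κ) (hj : j.IsIntegral) (a b : κˣ) :
    pf a * pf b = 0 := by
  obtain ⟨x, y, h⟩ := represents_one j hj a b a.ne_zero b.ne_zero
  by_cases hx : x = 0
  · have hy : y ≠ 0 := by
      rintro rfl
      rw [hx] at h
      simp at h
    have hb : b = (Units.mk0 y hy)⁻¹ ^ 2 := by
      ext
      rw [hx] at h
      simp only [Units.val_pow_eq_pow_val, Units.val_inv_eq_inv_val, Units.val_mk0]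
      field_simp
      linear_combination h
    have : cls b = 1 := by rw [hb]; exact cls_sq _
    rw [pf, pf, this, sub_self, mul_zero]
  by_cases hy : y = 0
  · have ha : a = (Units.mk0 x hx)⁻¹ ^ 2 := by
      ext
      rw [hy] at h
      simp only [Units.val_pow_eq_pow_val, Units.val_inv_eq_inv_val, Units.val_mk0]
      field_simp
      linear_combination h
    have : cls a = 1 := by rw [ha]; exact cls_sq _
    rw [pf, pf, this, sub_self, zero_mul]
  have key := cls_add (a * Units.mk0 x hx ^ 2) (b * Units.mk0 y hy ^ 2) 1 (by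
    simp only [Units.val_one, Units.val_mul, Units.val_pow_eq_pow_val, Units.val_mk0]
    exact h.symm)
  rw [mul_one, cls_mul (a * _) (b * _), cls_sq', cls_sq', cls_one] at key
  rw [pf, pf]
  linear_combination -key

theorem stFin : StFin := by
  intro κ _ j hj
  rw [pow_two, fund, Ideal.span_mul_span', Ideal.span_eq_bot]
  rintro _ ⟨_, ⟨a, rfl⟩, _, ⟨b, rfl⟩, rfl⟩
  exact pf_mul_pf j hj a b

end Pool.Agent.Y797.Q2
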