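import Pool.Agent.Y797.Q2.Curve

/-!
# The Pfister map in degrees one and two on the projective line without a quadratic point
-/

set_option autoImplicit false
set_option maxHeartbeats 400000

noncomputable section

namespace Pool.Agent.Y797.Q2

open Polynomial IsLocalRing AlgebraicGeometry Pool.Agent.TH132.W

universe u

/-- In degree two the Pfister classes of all unramified classes in `K₂` are represented by
unramified classes in `I²`: the image of the composite map is contained in
`I²_ur(X) / I³_ur(X)`. -/
def ContainedTwo (X : Scheme.{u}) [IsIntegral X] : Prop :=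
  ∀ α : MilnorK2 X.functionField, UnramK2 X α → ∃ w : WittRing X.functionField,
    UnramW X w ∧ IsPfisterLift α w

/-- The induced map `K²_{M,ur}(X) / 2 → I²_ur(X) / I³_ur(X)` is not injective: there is an
unramified class in `K₂`, not twice an unramified class, with Pfister class zero. -/
def NotInjectiveTwo (X : Scheme.{u}) [IsIntegral X] : Prop :=
  ∃ α : MilnorK2 X.functionField, UnramK2 X α ∧ IsPfisterLift α 0 ∧
    ∀ β : MilnorK2 X.functionField, UnramK2 X β → β + β ≠ α

/-- The induced map `K²_{M,ur}(X) / 2 → I²_ur(X) / I³_ur(X)` is not surjective: there is an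
unramified class in `I²` which is not congruent modulo `I³` to the Pfister class of an unramified
class in `K₂`. -/
def NotSurjectiveTwo (X : Scheme.{u}) [IsIntegral X] : Prop :=
  ∃ w ∈ fund X.functionField ^ 2, UnramW X w ∧
    ∀ α : MilnorK2 X.functionField, UnramK2 X α → ¬ IsPfisterLift α w

/-- In degree one the class `⟨⟨a⟩⟩` is unramified for all `a` in `K¹_{M,ur}(X)`. -/
def ContainedOne (X : Scheme.{u}) [IsIntegral X] : Prop :=
  ∀ a : (X.functionField)ˣ, UnramK1 X a → UnramW X (pf a)

/-- The induced map `K¹_{M,ur}(X) / 2 → I_ur(X) / I²_ur(X)` is not surjective: there is an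
unramified class in `I` which is not congruent modulo `I²` to a class `⟨⟨a⟩⟩` with `a` in
`K¹_{M,ur}(X)`. -/
def NotSurjectiveOne (X : Scheme.{u}) [IsIntegral X] : Prop :=
  ∃ w ∈ fund X.functionField, UnramW X w ∧
    ∀ a : (X.functionField)ˣ, UnramK1 X a → w - pf a ∉ fund X.functionField ^ 2

/-- The projective line without a quadratic point. -/
theorem general (k : Type) [Field k] (c : k) (h2 : (2 : k) ≠ 0) (hc : ∀ s : k, s ^ 2 ≠ c) :
    ∃ (X : Scheme.{0}) (_ : IsIntegral X) (_ : IsAffine X) (f : X ⟶ Spec (CommRingCat.of k)),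
      Smooth f ∧ ContainedTwo X ∧ ContainedOne X ∧ NotSurjectiveOne X ∧
      ((∃ i : k, i ^ 2 = -1) → NotInjectiveTwo X) ∧
      ((∃ a : k, a ≠ 0 ∧ ∀ e0 e1 : k, e0 ^ 2 - c * e1 ^ 2 ≠ a ∧ e0 ^ 2 - c * e1 ^ 2 ≠ -a) →
        NotSurjectiveTwo X) := by
  have hirr : Irreducible (P0 c) := X_pow_sub_C_irreducible_of_prime Nat.prime_two hc
  refine ⟨XC k c, inferInstance, inferInstance,
    Spec.map (CommRingCat.ofHom (strF k (FractionRing k[X]) (P0 c) (P0_deg c))),
    smoothC k c, ?_, ?_, ?_, ?_, ?_⟩
  · exact fun α hα => exists_lift c hirr (hAC k c) _ (hjC k c) stSym stInf stPairA stPairB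
      stConst stConstRes α hα
  · exact pf_unram
  · exact not_surj_one c hirr (hAC k c) _ (hjC k c)
  · rintro ⟨i, hi⟩
    have hi0 : i ≠ 0 := by
      rintro rfl
      rw [zero_pow two_ne_zero] at hi
      have : (1 : k) = 0 := by linear_combination hi
      exact one_ne_zero this
    exact not_inj c hirr (hAC k c) _ (hjC k c) h2 (Units.mk0 i hi0) (Units.ext (by simpa using hi))
  · rintro ⟨a, ha0, ha⟩
    exact not_surj c hirr (hAC k c) _ (hjC k c) stSym stInf stPairA stPairB stConst stConstRes
      stRes3 stNorm (Units.mk0 a ha0) ha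

end Pool.Agent.Y797.Q2
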