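import Pool.Agent.Y797.Q2.St3

/-!
# The symbols are unramified at the finite places different from the quadratic one
-/

set_option autoImplicit false

noncomputable section

namespace Pool.Agent.Y797.Q2

open Polynomial IsLocalRing Pool.Agent.TH132.W

theorem stTameA : StTameA := by
  intro F K R _ _ _ _ _ _ _ _ _ ϖ hϖ j hj c r u hr hu huu h0 h1 a0 p h hpair
  obtain ⟨hp, hh, ha0, hN, hcase⟩ := hpair
  have hinj := IsFractionRing.injective R K
  -- the quadratic polynomial
  have hP : algebraMap R K (r ^ 2 - j c) = algebraMap F[X] K (P0 c) := by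
    rw [map_sub, map_pow, hr, hj, P0, map_sub, map_pow]
    rfl
  have huR : u * (r ^ 2 - j c) = 1 := by
    apply hinj
    rw [map_mul, hP, hu, map_one]
  have hPu : IsUnit (r ^ 2 - j c) := IsUnit.of_mul_eq_one u (by rw [mul_comm]; exact huR)
  have hja0 : IsUnit (j a0) := (isUnit_iff_ne_zero.2 ha0).map j
  set v : Rˣ := (hja0.mul hPu).unit with hv
  have hvv : (v : R) = j a0 * (r ^ 2 - j c) := rfl
  have hpv : (p : K) = algebraMap R K v := by
    rw [hvv, map_mul, hP, hj, hp]
  have hpm : p = Units.map (algebraMap R K : R →* K) v := Units.ext hpv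
  have hop : ord K ϖ hϖ p = 0 := by rw [hpm, ord_unit]
  have hhx : (h : K) = algebraMap R K (j h0 + j h1 * r) := by
    rw [map_add, map_mul, hj, hj, hr, hh]
  by_cases hx : IsUnit (j h0 + j h1 * r)
  · exact tame_of_ord ϖ hϖ p h hop (ord_of_eq ϖ hϖ h _ hx hhx)
  · have hxm : j h0 + j h1 * r ∈ maximalIdeal R := (mem_maximalIdeal _).2 hx
    have hres : residue R (v : R) = 1 := by
      rcases hcase with ⟨h10, -⟩ | ⟨-, haN⟩
      · exfalso
        apply hx
        rw [h10, map_zero, zero_mul, add_zero]
        refine (isUnit_iff_ne_zero.2 ?_).map j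
        rintro rfl
        apply hN
        rw [h10]
        ring
      · have hNu : IsUnit (j (h0 ^ 2 - c * h1 ^ 2)) := (isUnit_iff_ne_zero.2 hN).map j
        have h2 : j (h0 ^ 2 - c * h1 ^ 2) * (1 - (v : R)) =
            (j h0 - j h1 * r) * (j h0 + j h1 * r) := by
          have h3 : j a0 * j (h0 ^ 2 - c * h1 ^ 2) = j h1 ^ 2 := by
            rw [← map_mul, haN, map_pow]
          have h4 : j (h0 ^ 2 - c * h1 ^ 2) = j h0 ^ 2 - j c * j h1 ^ 2 := by
            rw [map_sub, map_mul, map_pow, map_pow]
          rw [hvv]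
          linear_combination (-(r ^ 2 - j c)) * h3 + h4
        have h5 : j (h0 ^ 2 - c * h1 ^ 2) * (1 - (v : R)) ∈ maximalIdeal R := by
          rw [h2]
          exact Ideal.mul_mem_left _ _ hxm
        have h6 : (1 - (v : R)) ∈ maximalIdeal R := ((maximalIdeal R).unit_mul_mem_iff_mem hNu).1 h5
        have h7 : residue R (1 - (v : R)) = 0 := (residue_eq_zero_iff _).2 h6
        rw [map_sub, map_one, sub_eq_zero] at h7
        exact h7.symm
    have hvu : Units.map (residue R : R →* ResidueField R) v = 1 := by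
      ext
      exact hres
    rw [tame_left_unit ϖ hϖ p h hop, hpm, lc_unit, hvu, one_zpow]
    rfl

end Pool.Agent.Y797.Q2
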