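import Pool.Agent.Y797.Q2.St3
import Pool.Agent.Y797.Q2.Inf

/-!
# The symbols of pairs at infinity (author helper65)
-/

set_option autoImplicit false

noncomputable section

namespace Pool.Agent.Y797.Q2

open Polynomial IsLocalRing Pool.Agent.TH132.W

theorem tameB_group {G : Type} [CommGroup G] (L a v M : G) (n : ℤ) (h : a * M = v ^ 2) :
    ((L⁻¹ ^ 2 * a) ^ (-n) * ((L⁻¹ * v) ^ (-2 * n))⁻¹) = M ^ n := by
  have hM : M = a⁻¹ * v ^ 2 := by rw [← h, inv_mul_cancel_left]
  rw [hM, ← zpow_neg]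
  have e1 : -(-2 * n) = 2 * n := by ring
  have e2 : L⁻¹ ^ 2 * a = (a⁻¹ * L ^ 2)⁻¹ := by
    rw [mul_inv, inv_inv, inv_pow, mul_comm]
  rw [e1, e2, inv_zpow, zpow_neg, inv_inv, zpow_mul, ← mul_zpow]
  congr 1
  have e3 : (2 : ℤ) = ((2 : ℕ) : ℤ) := rfl
  rw [e3, zpow_natCast, mul_pow, inv_pow]
  rw [mul_assoc, mul_inv_cancel_left]

theorem stTameB : StTameB := by
  intro F K R _ _ _ _ _ _ _ _ _ ϖ hϖ j hj c r hr hrt h0 h1 a0 p h hp s m hs hm
  obtain ⟨ep, eh, ha0, hN, hor⟩ := hp
  have ht : tv (F := F) K ≠ 0 := tv_ne K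
  have hP : algebraMap F[X] K (P0 c) = tv (F := F) K ^ 2 - cK (F := F) K c := by
    unfold P0
    rw [map_sub, map_pow]
    rfl
  have hx1 : -(j (a0 * c)) * r ^ 2 ∈ maximalIdeal R :=
    Ideal.mul_mem_left _ _ (Ideal.pow_mem_of_mem _ hr 2 (by norm_num))
  obtain ⟨u, hu⟩ := inf_isUnit j a0 ha0 _ hx1
  have hpu : p = s⁻¹ ^ 2 * Units.map (algebraMap R K : R →* K) u := by
    apply Units.ext
    rw [Units.val_mul, Units.val_pow_eq_pow_val, Units.val_inv_eq_inv_val, hs, inv_inv, ep, hP]
    show _ = _ * algebraMap R K u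
    rw [hu, map_add, map_mul, map_neg, map_pow, hj, hj, hrt, map_mul]
    field_simp
    ring
  have hru : Units.map (residue R : R →* ResidueField R) u =
      Units.map ((residue R).comp j : F →* ResidueField R) (Units.mk0 a0 ha0) := by
    apply Units.ext
    show residue R (u : R) = (residue R).comp j a0
    rw [hu, inf_residue j a0 _ hx1]
  have ordp : ord K ϖ hϖ p = -2 * ord K ϖ hϖ s := by
    rw [hpu, ord_mul, pow_two, ord_mul, ord_inv, ord_unit]
    ring
  have lcp : lc K ϖ hϖ p = (lc K ϖ hϖ s)⁻¹ ^ 2 *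
      Units.map ((residue R).comp j : F →* ResidueField R) (Units.mk0 a0 ha0) := by
    rw [hpu, map_mul, map_pow, map_inv, lc_unit, hru]
  rw [tame_sym, ordp, lcp]
  congr 1
  rcases hor with ⟨hh, ha⟩ | ⟨hh, ha⟩
  · have hh0 : h0 ≠ 0 := by
      rintro rfl
      apply hN
      rw [hh]
      ring
    obtain ⟨v, hv⟩ := inf_isUnit j h0 hh0 0 (maximalIdeal R).zero_mem
    have hhv : h = Units.map (algebraMap R K : R →* K) v := by
      apply Units.ext
      show _ = algebraMap R K v
      rw [hv, add_zero, hj, eh, hh, map_zero, zero_mul, add_zero]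
    have hrv : Units.map (residue R : R →* ResidueField R) v =
        Units.map ((residue R).comp j : F →* ResidueField R) (Units.mk0 h0 hh0) := by
      apply Units.ext
      show residue R (v : R) = (residue R).comp j h0
      rw [hv, inf_residue j h0 0 (maximalIdeal R).zero_mem]
    have ordh : ord K ϖ hϖ h = 0 := by rw [hhv, ord_unit]
    have lch : lc K ϖ hϖ h =
        Units.map ((residue R).comp j : F →* ResidueField R) (Units.mk0 h0 hh0) := by
      rw [hhv, lc_unit, hrv]
    have hm2 : m = Units.mk0 h0 hh0 ^ 2 := by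
      apply Units.ext
      rw [hm, hh, Units.val_pow_eq_pow_val, Units.val_mk0]
      ring
    rw [ordh, lch, hm2, map_pow, mul_zero, zpow_zero, zpow_zero, one_mul, one_mul, ← zpow_neg]
    have e1 : -(-2 * ord K ϖ hϖ s) = 2 * ord K ϖ hϖ s := by ring
    rw [e1, zpow_mul]
    have e3 : (2 : ℤ) = ((2 : ℕ) : ℤ) := rfl
    rw [e3, zpow_natCast]
  · have hx2 : j h0 * r ∈ maximalIdeal R := Ideal.mul_mem_left _ _ hr
    obtain ⟨v, hv⟩ := inf_isUnit j h1 hh _ hx2
    have hhv : h = s⁻¹ * Units.map (algebraMap R K : R →* K) v := by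
      apply Units.ext
      rw [Units.val_mul, Units.val_inv_eq_inv_val, hs, inv_inv, eh]
      show _ = _ * algebraMap R K v
      rw [hv, map_add, map_mul, hj, hj, hrt]
      field_simp
      ring
    have hrv : Units.map (residue R : R →* ResidueField R) v =
        Units.map ((residue R).comp j : F →* ResidueField R) (Units.mk0 h1 hh) := by
      apply Units.ext
      show residue R (v : R) = (residue R).comp j h1
      rw [hv, inf_residue j h1 _ hx2]
    have ordh : ord K ϖ hϖ h = - ord K ϖ hϖ s := by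
      rw [hhv, ord_mul, ord_inv, ord_unit, add_zero]
    have lch : lc K ϖ hϖ h = (lc K ϖ hϖ s)⁻¹ *
        Units.map ((residue R).comp j : F →* ResidueField R) (Units.mk0 h1 hh) := by
      rw [hhv, map_mul, map_inv, lc_unit, hrv]
    have hm2 : Units.mk0 a0 ha0 * m = Units.mk0 h1 hh ^ 2 := by
      apply Units.ext
      rw [Units.val_mul, hm, Units.val_pow_eq_pow_val, Units.val_mk0, Units.val_mk0]
      exact ha
    have key : Units.map ((residue R).comp j : F →* ResidueField R) (Units.mk0 a0 ha0) *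
        Units.map ((residue R).comp j : F →* ResidueField R) m =
        Units.map ((residue R).comp j : F →* ResidueField R) (Units.mk0 h1 hh) ^ 2 := by
      rw [← map_mul, ← map_pow, hm2]
    rw [ordh, lch, tameB_group _ _ _ _ _ key]
    have e1 : (-2 * ord K ϖ hϖ s) * (-ord K ϖ hϖ s) =
        ord K ϖ hϖ s * ord K ϖ hϖ s + ord K ϖ hϖ s * ord K ϖ hϖ s := by ring
    rw [e1, Even.neg_one_zpow ⟨_, rfl⟩, one_mul]

end Pool.Agent.Y797.Q2
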