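import Pool.Agent.Y797.Q2.Gen
import Pool.Agent.Y797.Q2.Core2
import Pool.Agent.Y797.Q2.TameA
import Pool.Agent.Y797.Q2.TameB
import Pool.Agent.Y797.Q2.ArithQ

/-!
# The Pfister map in degrees one and two on the projective line without a quadratic point, all
# base fields
-/

set_option autoImplicit false
set_option maxHeartbeats 400000

noncomputable section

namespace Pool.Agent.Y797.Q2

open Polynomial IsLocalRing AlgebraicGeometry Pool.Agent.TH132.W

/-- The projective line without a quadratic point. -/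
theorem general2 (k : Type) [Field k] (c : k) (h2 : (2 : k) ≠ 0) (hc : ∀ s : k, s ^ 2 ≠ c) :
    ∃ (X : Scheme.{0}) (_ : IsIntegral X) (_ : IsAffine X) (f : X ⟶ Spec (CommRingCat.of k)),
      Smooth f ∧ ContainedTwo X ∧ ContainedOne X ∧ NotSurjectiveOne X ∧
      ((∃ e0 e1 : k, e0 ^ 2 - c * e1 ^ 2 = -1) → NotInjectiveTwo X) ∧
      ((∃ a : k, a ≠ 0 ∧ ∀ e0 e1 : k, e0 ^ 2 - c * e1 ^ 2 ≠ a ∧ e0 ^ 2 - c * e1 ^ 2 ≠ -a) →
        NotSurjectiveTwo X) := by
  have hirr : Irreducible (P0 c) := X_pow_sub_C_irreducible_of_prime Nat.prime_two hc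
  refine ⟨XC k c, inferInstance, inferInstance,
    Spec.map (CommRingCat.ofHom (strF k (FractionRing k[X]) (P0 c) (P0_deg c))),
    smoothC k c, ?_, ?_, ?_, ?_, ?_⟩
  · exact fun α hα => exists_lift c hirr (hAC k c) _ (hjC k c) stSym stInf stPairA stPairB
      stConst stConstRes α hα
  · exact pf_unram
  · exact not_surj_one c hirr (hAC k c) _ (hjC k c)
  · rintro ⟨e0, e1, he⟩
    exact not_inj2 c hirr (hAC k c) _ (hjC k c) stTameA stTameB h2 e0 e1 he
  · rintro ⟨a, ha0, ha⟩
    exact not_surj c hirr (hAC k c) _ (hjC k c) stSym stInf stPairA stPairB stConst stConstRes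
      stRes3 stNorm (Units.mk0 a ha0) ha

end Pool.Agent.Y797.Q2
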