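import Pool.Agent.Y797.Q2.St

/-!
# Residue fields of discrete valuation rings of the rational function field are algebraic
(helper420)
-/

set_option autoImplicit false

noncomputable section

namespace Pool.Agent.Y797.Q2

open Polynomial IsLocalRing Pool.Agent.TH132.W

theorem stKap : StKap := by
  intro F K _ _ _ _ R _ _ _ _ _ j hj hr
  obtain ⟨r0, hr0⟩ := hr
  let φ : F[X] →+* R := eval₂RingHom j r0
  have hRK : Function.Injective (algebraMap R K) := IsFractionRing.injective R K
  have hφ : ∀ f : F[X], algebraMap R K (φ f) = algebraMap F[X] K f := by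
    intro f
    have h1 : (algebraMap R K).comp φ = algebraMap F[X] K := by
      apply Polynomial.ringHom_ext
      · intro a
        rw [RingHom.comp_apply]
        change algebraMap R K (eval₂ j r0 (C a)) = _
        rw [eval₂_C, hj]
        rfl
      · rw [RingHom.comp_apply]
        change algebraMap R K (eval₂ j r0 X) = _
        rw [eval₂_X, hr0]
        rfl
    rw [← h1, RingHom.comp_apply]
  let ι : F →+* ResidueField R := (residue R).comp j
  let _ : Algebra F (ResidueField R) := ι.toAlgebra
  let x0 : ResidueField R := residue R r0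
  have hres : ∀ f : F[X], residue R (φ f) = aeval x0 f := by
    intro f
    change residue R (eval₂ j r0 f) = eval₂ ι x0 f
    rw [hom_eval₂]
  -- some nonzero polynomial has residue zero
  have hex : ∃ g : F[X], g ≠ 0 ∧ aeval x0 g = 0 := by
    by_contra hcon
    push Not at hcon
    have hun : ∀ g : F[X], g ≠ 0 → IsUnit (φ g) := by
      intro g hg
      have h1 := hcon g hg
      rw [← hres] at h1
      exact (residue_ne_zero_iff_isUnit _).1 h1
    obtain ⟨ϖ, hϖ⟩ := IsDiscreteValuationRing.exists_irreducible R
    have hϖ0 : algebraMap R K ϖ ≠ 0 := fun h => hϖ.ne_zero (hRK (by rw [h, map_zero]))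
    obtain ⟨f, g, hg, hfg⟩ := IsFractionRing.div_surjective (A := F[X]) (algebraMap R K ϖ)⁻¹
    have hg0 : g ≠ 0 := nonZeroDivisors.ne_zero hg
    have hgK : algebraMap F[X] K g ≠ 0 := by
      rw [Ne, IsFractionRing.to_map_eq_zero_iff]
      exact hg0
    apply hϖ.not_isUnit
    have h2 : φ g = ϖ * φ f := by
      apply hRK
      rw [map_mul, hφ, hφ]
      rw [div_eq_iff hgK] at hfg
      rw [hfg]
      field_simp
    exact isUnit_of_mul_isUnit_left (h2 ▸ hun g hg0)
  obtain ⟨g0, hg0, hg0x⟩ := hex
  have hx0 : IsAlgebraic F x0 := ⟨g0, hg0, hg0x⟩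
  have hal : ∀ f : F[X], IsAlgebraic F (aeval x0 f) := by
    intro f
    induction f using Polynomial.induction_on' with
    | add p q hp hq =>
      rw [map_add]
      exact hp.add hq
    | monomial n a =>
      rw [aeval_monomial]
      exact (isAlgebraic_algebraMap a).mul (hx0.pow n)
  have hmain : ∀ z : ResidueField R, IsIntegral F z := by
    intro z
    obtain ⟨r, rfl⟩ := residue_surjective z
    obtain ⟨f, g, hfg, hr⟩ := IsFractionRing.exists_reduced_fraction (A := F[X]) (K := K)
      (algebraMap R K r)
    have hcop : IsCoprime f (g : F[X]) := hfg.isCoprime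
    have h3 : r * φ g = φ f := by
      apply hRK
      rw [map_mul, hφ, hφ, ← hr]
      exact IsLocalization.mk'_spec K f g
    have h4 : residue R r * aeval x0 (g : F[X]) = aeval x0 f := by
      rw [← hres, ← hres, ← map_mul, h3]
    have h5 : aeval x0 (g : F[X]) ≠ 0 := by
      intro h6
      rw [h6, mul_zero] at h4
      obtain ⟨u, v, huv⟩ := hcop
      have h7 := congrArg (aeval x0) huv
      rw [map_add, map_mul, map_mul, ← h4, h6, mul_zero, mul_zero, add_zero, map_one] at h7
      exact zero_ne_one h7
    have h8 : residue R r = aeval x0 f * (aeval x0 (g : F[X]))⁻¹ := by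
      rw [← h4, mul_assoc, mul_inv_cancel₀ h5, mul_one]
    rw [h8]
    exact ((hal f).mul (hal g).inv).isIntegral
  exact hmain

end Pool.Agent.Y797.Q2
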