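import Pool.Agent.Y797.Q2.St2
import Pool.Agent.Y797.Q2.Disc

/-!
# Residues at the quadratic place
-/

set_option autoImplicit false
set_option maxHeartbeats 400000

noncomputable section

namespace Pool.Agent.Y797.Q2

open Polynomial IsLocalRing Pool.Agent.TH132.W

universe u v

section Local

variable {k K : Type} [Field k] [Field K] [Algebra k[X] K] [IsFractionRing k[X] K] (c : k)
  (hirr : Irreducible (P0 c))

/-- A nonzero constant, as a unit of the residue field at the quadratic place. -/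
def ckap (K : Type) [Field K] [Algebra k[X] K] [IsFractionRing k[X] K] {c : k}
    (hirr : Irreducible (P0 c)) (a : kˣ) : (kap K (P0 c) hirr)ˣ :=
  Units.map ((rho K (P0 c) hirr).comp C : k →* kap K (P0 c) hirr) a

theorem lam_unit_pf {R K : Type} [CommRing R] [IsDomain R] [IsDiscreteValuationRing R]
    [Field K] [Algebra R K] [IsFractionRing R K] (ϖ : R) (hϖ : Irreducible ϖ) (u : Rˣ) :
    lam K ϖ hϖ (pf (Units.map (algebraMap R K : R →* K) u)) = cst (pf (resUnit u)) := by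
  have := lam_mk (K := K) ϖ hϖ 0 u
  rw [zpow_zero, one_mul, ez_zero, mul_one] at this
  unfold pf
  rw [map_sub, map_one, map_sub, map_one, this]
  rfl

/-- The residue of `⟨⟨b² (t² - c), g⟩⟩` at the quadratic place, for a unit `g`. -/
theorem res_quad (p : Kˣ) (b : k) (hb : b ≠ 0)
    (hp : (p : K) = cK (F := k) K (b ^ 2) * algebraMap k[X] K (P0 c))
    (u : (Oloc K (P0 c) hirr)ˣ) :
    res2 K (pol K (P0 c) hirr) (pol_irreducible K (P0 c) hirr)
      (pf p * pf (Units.map (algebraMap (Oloc K (P0 c) hirr) K : _ →* K) u)) =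
      - pf (resUnit u) := by
  have hp' : p = piU K (pol K (P0 c) hirr) (pol_irreducible K (P0 c) hirr) *
      (cu K (Units.mk0 b hb)) ^ 2 := by
    ext
    rw [hp, map_pow, Units.val_mul, Units.val_pow_eq_pow_val, cu_coe, mul_comm]
    rfl
  have h1 : lam K (pol K (P0 c) hirr) (pol_irreducible K (P0 c) hirr) (cls p) = ⟨0, 1⟩ := by
    rw [hp', cls_sq']
    have := lam_mk (K := K) (pol K (P0 c) hirr) (pol_irreducible K (P0 c) hirr) 1 1
    rw [zpow_one, map_one, mul_one, map_one, cls_one, map_one, one_mul, ez_odd odd_one] at this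
    exact this
  have h2 : lam K (pol K (P0 c) hirr) (pol_irreducible K (P0 c) hirr) (pf p) = 1 - ⟨0, 1⟩ := by
    unfold pf
    rw [map_sub, map_one, h1]
  rw [res2_apply, map_mul, h2, lam_unit_pf]
  simp [QuadraticAlgebra.im_mul, QuadraticAlgebra.re_one, QuadraticAlgebra.im_one]

/-- The rational function `h` is a unit at the quadratic place. -/
theorem loc_h (h0 h1 : k) (h : Kˣ)
    (hp : (h : K) = cK (F := k) K h0 + cK (F := k) K h1 * tv (F := k) K)
    (hN : h0 ^ 2 - c * h1 ^ 2 = 1) :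
    ∃ u : (Oloc K (P0 c) hirr)ˣ,
      h = Units.map (algebraMap (Oloc K (P0 c) hirr) K : _ →* K) u ∧
      (resUnit u : kap K (P0 c) hirr) = rho K (P0 c) hirr (C h0 + C h1 * X) := by
  have hrh : rho K (P0 c) hirr (C h0 + C h1 * X) ≠ 0 := by
    rw [Ne, rho_eq_zero]
    intro hd
    have h5 : (C h0 + C h1 * X : k[X]) = 0 := by
      refine eq_zero_of_dvd_of_natDegree_lt hd ?_
      have : (P0 c).natDegree = 2 := natDegree_X_pow_sub_C
      rw [this]
      refine lt_of_le_of_lt (natDegree_add_le _ _) (max_lt (by simp) ?_)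
      exact lt_of_le_of_lt (natDegree_C_mul_le _ _) (by simp)
    have h6 : h0 = 0 := by
      have := congrArg (fun f => coeff f 0) h5
      simpa using this
    have h7 : h1 = 0 := by
      have := congrArg (fun f => coeff f 1) h5
      simpa using this
    rw [h6, h7] at hN
    simp at hN
  obtain ⟨u, hu⟩ := isUnit_of_rho_ne K (P0 c) hirr hrh
  refine ⟨u, ?_, ?_⟩
  · apply Units.ext
    rw [hp]
    change _ = algebraMap (Oloc K (P0 c) hirr) K (u : Oloc K (P0 c) hirr)
    rw [hu]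
    change _ = algebraMap k[X] K (C h0 + C h1 * X)
    rw [map_add, map_mul]
    rfl
  · change residue _ (u : Oloc K (P0 c) hirr) = _
    rw [hu]; rfl

theorem loc_e1 (a : kˣ) :
    ∃ u : (Oloc K (P0 c) hirr)ˣ,
      (resUnit u : kap K (P0 c) hirr) = rho K (P0 c) hirr (C (a : k)) ∧
      res2 K (pol K (P0 c) hirr) (pol_irreducible K (P0 c) hirr)
        (pf (pu K (P0 c) (P0_ne c)) * pf (cu K a)) = - pf (resUnit u) := by
  have hac : IsUnit ((algebraMap k[X] (Oloc K (P0 c) hirr)) (C (a : k))) :=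
    (a.isUnit.map C).map _
  obtain ⟨u', hu'⟩ := hac
  have hh' : cu K a = Units.map (algebraMap (Oloc K (P0 c) hirr) K : _ →* K) u' := by
    apply Units.ext
    change _ = algebraMap (Oloc K (P0 c) hirr) K (u' : Oloc K (P0 c) hirr)
    rw [hu']
    rfl
  refine ⟨u', ?_, ?_⟩
  · change residue _ (u' : Oloc K (P0 c) hirr) = _
    rw [hu']; rfl
  · rw [hh']
    refine res_quad c hirr _ 1 one_ne_zero ?_ u'
    rw [one_pow, map_one, one_mul]
    rfl

theorem loc_e2 (h0 h1 a0 : k) (p h : Kˣ) (hp : IsPair (K := K) c h0 h1 a0 p h)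
    (hN : h0 ^ 2 - c * h1 ^ 2 = 1) (b : k) (hb : b ≠ 0) (hb' : a0 = b ^ 2) :
    ∃ u : (Oloc K (P0 c) hirr)ˣ,
      (resUnit u : kap K (P0 c) hirr) = rho K (P0 c) hirr (C h0 + C h1 * X) ∧
      res2 K (pol K (P0 c) hirr) (pol_irreducible K (P0 c) hirr)
        (pf p * pf h) = - pf (resUnit u) := by
  obtain ⟨u, hh, hu⟩ := loc_h c hirr h0 h1 h hp.2.1 hN
  refine ⟨u, hu, ?_⟩
  rw [hh]
  exact res_quad c hirr p b hb (by rw [hp.1, hb']) u

theorem loc_e3 (hCR : StConstRes) (v : WittRing k) :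
    res2 K (pol K (P0 c) hirr) (pol_irreducible K (P0 c) hirr)
      (map (cK (F := k) K) v) = 0 :=
  hCR k K (Oloc K (P0 c) hirr) (pol K (P0 c) hirr) (pol_irreducible K (P0 c) hirr)
    ((algebraMap k[X] (Oloc K (P0 c) hirr)).comp C) (fun _ => rfl) v

theorem loc_sq {κ : Type} [Field κ] (x y : κˣ) (h : - pf x - - pf y ∈ fund κ ^ 2) :
    ∃ z : κ, z * z = x * y := by
  have h5 : pf y - pf x ∈ fund κ ^ 2 := by
    have e : pf y - pf x = - pf x - - pf y := by ring
    rw [e]
    exact h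
  obtain ⟨z, hz⟩ := stDisc κ y x h5
  refine ⟨z, ?_⟩
  have h6 := congrArg Units.val hz
  rw [Units.val_mul, Units.val_mul] at h6
  rw [← h6, mul_comm]

/-- The comparison of the residues at the quadratic place. -/
theorem local_norm (hirr : Irreducible (P0 c)) (hCR : StConstRes) (hR3 : StRes3) (hNm : StNorm)
    (a : kˣ) (h0 h1 a0 : k) (p h : Kˣ) (hp : IsPair (K := K) c h0 h1 a0 p h)
    (hN : h0 ^ 2 - c * h1 ^ 2 = 1) (b : k) (hb : b ≠ 0) (hb' : a0 = b ^ 2) (v : WittRing k)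
    (w : WittRing K) (hw : w = pf (pu K (P0 c) (P0_ne c)) * pf (cu K a))
    (w' : WittRing K) (hw' : w' = pf p * pf h) (v' : WittRing K)
    (hv' : v' = map (cK (F := k) K) v)
    (h3 : w - (w' + v') ∈ fund K ^ 3) :
    ∃ e0 e1 : k, e0 ^ 2 - c * e1 ^ 2 = a ∨ e0 ^ 2 - c * e1 ^ 2 = -a := by
  have h4 := hR3 (Oloc K (P0 c) hirr) K (pol K (P0 c) hirr) (pol_irreducible K (P0 c) hirr) _ h3
  obtain ⟨u', hu', e1⟩ := loc_e1 (K := K) c hirr a
  obtain ⟨u, hu, e2⟩ := loc_e2 (K := K) c hirr h0 h1 a0 p h hp hN b hb hb'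
  have e3 := loc_e3 (K := K) c hirr hCR v
  rw [← hw] at e1
  rw [← hw'] at e2
  rw [← hv'] at e3
  rw [map_sub, map_add, e3, add_zero, e1, e2] at h4
  obtain ⟨z, hz⟩ := loc_sq _ _ h4
  refine hNm k K c hirr (a : k) h0 h1 hN z ?_
  rw [hz, hu, hu', map_mul]

theorem ord_zpow {R K : Type} [CommRing R] [IsDomain R] [IsDiscreteValuationRing R]
    [Field K] [Algebra R K] [IsFractionRing R K] (ϖ : R) (hϖ : Irreducible ϖ) (b : Kˣ) (m : ℤ) :
    ord K ϖ hϖ (b ^ m) = m * ord K ϖ hϖ b := by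
  have h1 : ∀ n : ℕ, ord K ϖ hϖ (b ^ n) = n * ord K ϖ hϖ b := by
    intro n
    induction n with
    | zero => rw [pow_zero, ord_one]; simp
    | succ n ih => rw [pow_succ, ord_mul, ih]; push_cast; ring
  obtain ⟨n, rfl | rfl⟩ := m.eq_nat_or_neg
  · rw [zpow_natCast, h1]
  · rw [zpow_neg, zpow_natCast, ord_inv, h1]; ring

/-- The function `t² - c` times a constant is not a square. -/
theorem loc_one (hirr : Irreducible (P0 c)) {R : Type} [CommRing R] [IsDomain R]
    [IsDiscreteValuationRing R] [Algebra R K] [IsFractionRing R K] (ϖ : R) (hϖ : Irreducible ϖ)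
    (j : k →+* R) (hj : ∀ a, algebraMap R K (j a) = cK (F := k) K a)
    (hord : ord K ϖ hϖ (pu K (P0 c) (P0_ne c)) = -2) (a : Kˣ) (ha : ord K ϖ hϖ a = 0)
    (a' : k) (ha' : a' ≠ 0) (n : ℤ)
    (he : (a : K) = cK (F := k) K a' * algebraMap k[X] K (P0 c) ^ n) :
    ¬ IsSquare (pu K (P0 c) (P0_ne c) * a) := by
  rintro ⟨z, hz⟩
  have hca : a = cu K (Units.mk0 a' ha') * pu K (P0 c) (P0_ne c) ^ n := by
    apply Units.ext
    rw [he, Units.val_mul, cu_coe, Units.val_zpow_eq_zpow_val]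
    rfl
  have hn : n = 0 := by
    rw [hca, ord_mul, ord_cu ϖ hϖ j hj, ord_zpow, hord] at ha
    omega
  rw [hn, zpow_zero, mul_one] at hca
  have h1 : ord K (pol K (P0 c) hirr) (pol_irreducible K (P0 c) hirr) (pu K (P0 c) (P0_ne c)) =
      1 := by
    have : pu K (P0 c) (P0_ne c) = piU K (pol K (P0 c) hirr) (pol_irreducible K (P0 c) hirr) := by
      apply Units.ext; rfl
    rw [this, ord_pi]
  have h2 := congrArg (ord K (pol K (P0 c) hirr) (pol_irreducible K (P0 c) hirr)) hz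
  rw [ord_mul, ord_mul, h1, hca, ord_cu _ _ ((algebraMap k[X] (Oloc K (P0 c) hirr)).comp C)
    (fun _ => rfl)] at h2
  omega

end Local

end Pool.Agent.Y797.Q2
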