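import Pool.Agent.Y797.Q2.St

/-!
# Milnor's theorem for `K₂` of a rational function field (second, independent proof; helper931)
-/

set_option autoImplicit false
set_option linter.unusedSectionVars false

noncomputable section

namespace Pool.Agent.Y797.Q2.Mb

open Polynomial IsLocalRing Pool.Agent.TH132.W

universe u v

section Symbols

variable {K : Type u} [Field K]

theorem sym_mul_left (a a' b : Kˣ) : sym (a * a') b = sym a b + sym a' b := by
  unfold sym
  rw [ofMul_mul, TensorProduct.add_tmul]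
  rfl

theorem sym_mul_right (a b b' : Kˣ) : sym a (b * b') = sym a b + sym a b' := by
  unfold sym
  rw [ofMul_mul, TensorProduct.tmul_add]
  rfl

theorem sym_one_left (b : Kˣ) : sym (1 : Kˣ) b = 0 := by
  have h := sym_mul_left 1 1 b
  rw [mul_one] at h
  exact left_eq_add.1 h

theorem sym_one_right (b : Kˣ) : sym b (1 : Kˣ) = 0 := by
  have h := sym_mul_right b 1 1
  rw [mul_one] at h
  exact left_eq_add.1 h

theorem sym_inv_left (a b : Kˣ) : sym a⁻¹ b = - sym a b := by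
  have h := sym_mul_left a⁻¹ a b
  rw [inv_mul_cancel, sym_one_left] at h
  exact eq_neg_of_add_eq_zero_left h.symm

theorem sym_inv_right (a b : Kˣ) : sym a b⁻¹ = - sym a b := by
  have h := sym_mul_right a b⁻¹ b
  rw [inv_mul_cancel, sym_one_right] at h
  exact eq_neg_of_add_eq_zero_left h.symm

theorem sym_steinberg (a b : Kˣ) (h : (a : K) + b = 1) : sym a b = 0 :=
  (QuotientAddGroup.eq_zero_iff _).2 (AddSubgroup.subset_closure (Or.inl ⟨a, b, h, rfl⟩))

theorem sym_neg_self (a : Kˣ) : sym a (-a) = 0 :=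
  (QuotientAddGroup.eq_zero_iff _).2 (AddSubgroup.subset_closure (Or.inr ⟨a, rfl⟩))

theorem sym_swap (a b : Kˣ) : sym a b = - sym b a := by
  have h := sym_neg_self (a * b)
  have e1 : -(a * b) = (-a) * b := (neg_mul a b).symm
  have e2 : -(a * b) = (-b) * a := by rw [mul_comm a b, neg_mul]
  rw [sym_mul_left] at h
  have h1 : sym a (-(a * b)) = sym a b := by
    rw [e1, sym_mul_right, sym_neg_self, zero_add]
  have h2 : sym b (-(a * b)) = sym b a := by
    rw [e2, sym_mul_right, sym_neg_self, zero_add]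
  rw [h1, h2] at h
  exact eq_neg_of_add_eq_zero_left h

theorem sym_self (a : Kˣ) : sym a a = sym a (-1) := by
  have e : a = (-1) * (-a) := by rw [neg_mul_neg, one_mul]
  conv_lhs => rw [show sym a a = sym a ((-1) * (-a)) by rw [← e]]
  rw [sym_mul_right, sym_neg_self, add_zero]

theorem key (x y z : Kˣ) (h : (x : K) + y = z) : sym x y = sym x z + sym z y - sym z z := by
  have h1 : sym (x * z⁻¹) (y * z⁻¹) = 0 := by
    refine sym_steinberg _ _ ?_
    rw [Units.val_mul, Units.val_mul, ← add_mul, h, Units.mul_inv]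
  rw [sym_mul_left, sym_mul_right, sym_mul_right, sym_inv_left, sym_inv_left, sym_inv_right,
    sym_inv_right] at h1
  have h2 : sym x y - (sym x z + sym z y - sym z z) = 0 := by
    rw [← h1]; abel
  exact sub_eq_zero.1 h2

end Symbols

section Filtration

variable {F : Type u} (K : Type v) [Field F] [Field K] [Algebra F[X] K] [IsFractionRing F[X] K]

open Classical in
/-- A nonzero polynomial as a unit of the field of fractions. -/
def pu (f : F[X]) : Kˣ := if h : f = 0 then 1 else Units.mk0 (algebraMap F[X] K f) (algebraMap_ne K h)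

theorem pu_val {f : F[X]} (h : f ≠ 0) : (pu K f : K) = algebraMap F[X] K f := by
  unfold pu; rw [dif_neg h]; rfl

theorem pu_mul {f g : F[X]} (hf : f ≠ 0) (hg : g ≠ 0) : pu K (f * g) = pu K f * pu K g := by
  ext
  rw [Units.val_mul, pu_val K (mul_ne_zero hf hg), pu_val K hf, pu_val K hg, map_mul]

theorem pu_one : pu K (1 : F[X]) = 1 := by
  ext
  rw [pu_val K one_ne_zero, map_one, Units.val_one]

/-- The group generated by the polynomials of degree less than `n`. -/
def M (F : Type u) [Field F] (K : Type v) [Field K] [Algebra F[X] K] [IsFractionRing F[X] K]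
    (n : ℕ) : Subgroup Kˣ :=
  Subgroup.closure {x | ∃ f : F[X], f ≠ 0 ∧ f.natDegree < n ∧ x = pu K f}

/-- The group generated by the symbols of such elements. -/
def U (F : Type u) [Field F] (K : Type v) [Field K] [Algebra F[X] K] [IsFractionRing F[X] K]
    (n : ℕ) : AddSubgroup (MilnorK2 K) :=
  AddSubgroup.closure {x | ∃ a b : Kˣ, a ∈ M F K n ∧ b ∈ M F K n ∧ x = sym a b}

variable {K}

theorem pu_mem {n : ℕ} {f : F[X]} (hf : f ≠ 0) (hn : f.natDegree < n) : pu K f ∈ M F K n :=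
  Subgroup.subset_closure ⟨f, hf, hn, rfl⟩

theorem neg_one_mem {n : ℕ} (hn : 0 < n) : (-1 : Kˣ) ∈ M F K n := by
  have h0 : (-1 : F[X]) ≠ 0 := neg_ne_zero.2 one_ne_zero
  have h : (-1 : Kˣ) = pu K (-1 : F[X]) := by
    ext
    rw [pu_val K h0, map_neg, map_one, Units.val_neg, Units.val_one]
  rw [h]
  exact pu_mem h0 (by rw [natDegree_neg, natDegree_one]; exact hn)

theorem M_mono {n m : ℕ} (h : n ≤ m) : M F K n ≤ M F K m := by
  refine (Subgroup.closure_le _).2 ?_
  rintro _ ⟨f, hf, hd, rfl⟩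
  exact pu_mem hf (by omega)

theorem sym_mem_U {n : ℕ} {a b : Kˣ} (ha : a ∈ M F K n) (hb : b ∈ M F K n) :
    sym a b ∈ U F K n := AddSubgroup.subset_closure ⟨a, b, ha, hb, rfl⟩

theorem U_mono {n m : ℕ} (h : n ≤ m) : U F K n ≤ U F K m := by
  refine (AddSubgroup.closure_le _).2 ?_
  rintro _ ⟨a, b, ha, hb, rfl⟩
  exact sym_mem_U (M_mono h ha) (M_mono h hb)

variable (F) in
theorem exists_M (x : Kˣ) : ∃ n, x ∈ M F K n := by
  obtain ⟨f, g, hg, h⟩ := IsFractionRing.div_surjective (A := F[X]) (x : K)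
  have hg0 : g ≠ 0 := nonZeroDivisors.ne_zero hg
  have hf0 : f ≠ 0 := by
    rintro rfl
    rw [map_zero, zero_div] at h
    exact x.ne_zero h.symm
  refine ⟨f.natDegree + g.natDegree + 1, ?_⟩
  have e : x = pu K f * (pu K g)⁻¹ := by
    ext
    rw [Units.val_mul, Units.val_inv_eq_inv_val, pu_val K hf0, pu_val K hg0, ← h, div_eq_mul_inv]
  rw [e]
  exact mul_mem (pu_mem hf0 (by omega)) (inv_mem (pu_mem hg0 (by omega)))

variable (F) in
theorem exists_U (δ : MilnorK2 K) : ∃ n, δ ∈ U F K n := by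
  obtain ⟨t, rfl⟩ := QuotientAddGroup.mk_surjective (s := steinberg K) δ
  induction t using TensorProduct.induction_on with
  | zero => exact ⟨1, zero_mem (U F K 1)⟩
  | tmul a b =>
    obtain ⟨n, hn⟩ := exists_M F a.toMul
    obtain ⟨m, hm⟩ := exists_M F b.toMul
    exact ⟨max n m, sym_mem_U (M_mono (le_max_left _ _) hn) (M_mono (le_max_right _ _) hm)⟩
  | add x y hx hy =>
    obtain ⟨n, hn⟩ := hx
    obtain ⟨m, hm⟩ := hy
    exact ⟨max n m, add_mem (U_mono (le_max_left _ _) hn) (U_mono (le_max_right _ _) hm)⟩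

/-- Monic irreducible polynomials of degree `d`. -/
def Ir (d : ℕ) (π : F[X]) : Prop := π.Monic ∧ Irreducible π ∧ π.natDegree = d

theorem Ir.pos {d : ℕ} {π : F[X]} (h : Ir d π) : 0 < d := h.2.2 ▸ h.2.1.natDegree_pos

theorem not_dvd {d : ℕ} {π : F[X]} (h : Ir d π) {f : F[X]} (hf : f ≠ 0) (hd : f.natDegree < d) :
    ¬ π ∣ f := fun hdvd => by
  have := natDegree_le_of_dvd hdvd hf
  have := h.2.2
  omega

theorem reduce2 {d : ℕ} {π : F[X]} (hπ : Ir d π) {h h' : F[X]} (hh : h ≠ 0)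
    (hd : h.natDegree < d) (hh' : h' ≠ 0) (hd' : h'.natDegree < d) :
    (h * h') %ₘ π ≠ 0 ∧ ((h * h') %ₘ π).natDegree < d ∧
    sym (pu K π) (pu K h) + sym (pu K π) (pu K h') - sym (pu K π) (pu K ((h * h') %ₘ π))
      ∈ U F K d := by
  have hm := hπ.1
  have hπ0 : π ≠ 0 := hm.ne_zero
  set z := h * h' with hz
  set q := z /ₘ π with hq
  set r := z %ₘ π with hr
  have hqr : π * q + r = z := by rw [hq, hr, add_comm]; exact modByMonic_add_div _ _
  have hz0 : z ≠ 0 := mul_ne_zero hh hh'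
  have hr0 : r ≠ 0 := by
    intro h0
    have h1 : π ∣ z := (modByMonic_eq_zero_iff_dvd hm).1 h0
    rcases hπ.2.1.prime.dvd_or_dvd h1 with h2 | h2
    · exact not_dvd hπ hh hd h2
    · exact not_dvd hπ hh' hd' h2
  have hrd : r.natDegree < d := by
    have := natDegree_lt_natDegree hr0 (degree_modByMonic_lt z hm)
    rw [hπ.2.2] at this
    exact this
  refine ⟨hr0, hrd, ?_⟩
  have hpz : pu K z = pu K h * pu K h' := pu_mul K hh hh'
  have hzM : pu K z ∈ M F K d := by rw [hpz]; exact mul_mem (pu_mem hh hd) (pu_mem hh' hd')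
  rw [← sym_mul_right, ← hpz]
  by_cases hq0 : q = 0
  · rw [hq0, mul_zero, zero_add] at hqr
    rw [hqr, sub_self]; exact zero_mem _
  have hqd : q.natDegree < d := by
    rw [hq, natDegree_divByMonic _ hm, hz, natDegree_mul hh hh', hπ.2.2]
    omega
  have hqM : pu K q ∈ M F K d := pu_mem hq0 hqd
  have hrM : pu K r ∈ M F K d := pu_mem hr0 hrd
  have hk := key (pu K (π * q)) (pu K r) (pu K z) (by
    rw [pu_val K (mul_ne_zero hπ0 hq0), pu_val K hr0, pu_val K hz0, ← map_add, hqr])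
  rw [pu_mul K hπ0 hq0, sym_mul_left, sym_mul_left] at hk
  have e : sym (pu K π) (pu K z) - sym (pu K π) (pu K r)
      = sym (pu K q) (pu K r) - sym (pu K q) (pu K z) - sym (pu K z) (pu K r)
        + sym (pu K z) (pu K z) := by
    have h1 : sym (pu K π) (pu K r) = sym (pu K π) (pu K z) + sym (pu K q) (pu K z)
        + sym (pu K z) (pu K r) - sym (pu K z) (pu K z) - sym (pu K q) (pu K r) :=
      eq_sub_of_add_eq hk
    rw [h1]; abel
  rw [e]
  exact add_mem (sub_mem (sub_mem (sym_mem_U hqM hrM) (sym_mem_U hqM hzM)) (sym_mem_U hzM hrM))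
    (sym_mem_U hzM hzM)

theorem rep {d : ℕ} {π : F[X]} (hπ : Ir d π) {m : Kˣ} (hm : m ∈ M F K d) :
    ∃ h : F[X], h ≠ 0 ∧ h.natDegree < d ∧
      sym (pu K π) m - sym (pu K π) (pu K h) ∈ U F K d := by
  have hd0 := hπ.pos
  unfold M at hm
  induction hm using Subgroup.closure_induction with
  | mem x hx =>
    obtain ⟨f, hf, hd, rfl⟩ := hx
    exact ⟨f, hf, hd, by rw [sub_self]; exact zero_mem _⟩
  | one =>
    exact ⟨1, one_ne_zero, by rw [natDegree_one]; exact hd0, by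
      rw [pu_one, sub_self]; exact zero_mem _⟩
  | mul x y _ _ hx hy =>
    obtain ⟨h, hh, hd, hU⟩ := hx
    obtain ⟨h', hh', hd', hU'⟩ := hy
    obtain ⟨r0, r1, r2⟩ := reduce2 (K := K) hπ hh hd hh' hd'
    refine ⟨_, r0, r1, ?_⟩
    have e : sym (pu K π) (x * y) - sym (pu K π) (pu K ((h * h') %ₘ π))
        = (sym (pu K π) x - sym (pu K π) (pu K h)) + (sym (pu K π) y - sym (pu K π) (pu K h'))
          + (sym (pu K π) (pu K h) + sym (pu K π) (pu K h')
            - sym (pu K π) (pu K ((h * h') %ₘ π))) := by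
      rw [sym_mul_right]; abel
    rw [e]
    exact add_mem (add_mem hU hU') r2
  | inv x _ hx =>
    obtain ⟨h, hh, hd, hU⟩ := hx
    have hmm := hπ.1
    have hcop : IsCoprime π h :=
      (hπ.2.1.coprime_iff_not_dvd).2 (not_dvd hπ hh hd)
    obtain ⟨a, b, hab⟩ := hcop
    have hdvd : π ∣ h * (b %ₘ π) - 1 := by
      have h1 := modByMonic_add_div b π
      have h2 : b %ₘ π = b - π * (b /ₘ π) := eq_sub_of_add_eq h1
      refine ⟨-a - h * (b /ₘ π), ?_⟩
      rw [h2, ← hab]; ring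
    have h1m : (1 : F[X]) %ₘ π = 1 := by
      rw [modByMonic_eq_self_iff hmm]
      refine degree_lt_degree ?_
      rw [natDegree_one, hπ.2.2]; exact hd0
    have hmod : (h * (b %ₘ π)) %ₘ π = 1 := by
      have h2 := (modByMonic_eq_zero_iff_dvd hmm).2 hdvd
      rw [sub_modByMonic, h1m] at h2
      exact sub_eq_zero.1 h2
    have hb0 : b %ₘ π ≠ 0 := by
      intro h0
      rw [h0, mul_zero, zero_modByMonic] at hmod
      exact zero_ne_one hmod
    have hbd : (b %ₘ π).natDegree < d := by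
      have := natDegree_lt_natDegree hb0 (degree_modByMonic_lt b hmm)
      rw [hπ.2.2] at this
      exact this
    obtain ⟨-, -, r2⟩ := reduce2 (K := K) hπ hh hd hb0 hbd
    rw [hmod, pu_one, sym_one_right, sub_zero] at r2
    refine ⟨b %ₘ π, hb0, hbd, ?_⟩
    have e : sym (pu K π) x⁻¹ - sym (pu K π) (pu K (b %ₘ π))
        = -((sym (pu K π) x - sym (pu K π) (pu K h))
          + (sym (pu K π) (pu K h) + sym (pu K π) (pu K (b %ₘ π)))) := by
      rw [sym_inv_right]; abel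
    rw [e]
    exact neg_mem (add_mem hU r2)

/-! ### Tame symbols -/

/-- the tame symbol at a polynomial -/
abbrev tm (π : F[X]) (hi : Irreducible π) := tame K (pol K π hi) (pol_irreducible K π hi)

theorem pu_unit {π : F[X]} (hi : Irreducible π) {f : F[X]} (hf : ¬ π ∣ f) :
    ∃ w : (Oloc K π hi)ˣ, pu K f = Units.map (algebraMap (Oloc K π hi) K : Oloc K π hi →* K) w ∧
      ((Units.map (residue (Oloc K π hi) : Oloc K π hi →* ResidueField (Oloc K π hi)) w :
        (ResidueField (Oloc K π hi))ˣ) : ResidueField (Oloc K π hi)) = rho K π hi f := by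
  have h0 : f ≠ 0 := by rintro rfl; exact hf (dvd_zero _)
  have hu := isUnit_of_rho_ne K π hi (f := f) (fun h => hf ((rho_eq_zero K π hi f).1 h))
  refine ⟨hu.unit, ?_, ?_⟩
  · ext
    rw [pu_val K h0]
    rfl
  · rfl

theorem ord_pu {π : F[X]} (hi : Irreducible π) {f : F[X]} (hf : ¬ π ∣ f) :
    ord K (pol K π hi) (pol_irreducible K π hi) (pu K f) = 0 := by
  obtain ⟨w, hw, -⟩ := pu_unit (K := K) hi hf
  rw [hw, ord_unit]

theorem ord_M {d : ℕ} {π : F[X]} (hπ : Ir d π) {m : Kˣ} (hm : m ∈ M F K d) :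
    ord K (pol K π hπ.2.1) (pol_irreducible K π hπ.2.1) m = 0 := by
  unfold M at hm
  induction hm using Subgroup.closure_induction with
  | mem x hx =>
    obtain ⟨f, hf, hd, rfl⟩ := hx
    exact ord_pu hπ.2.1 (not_dvd hπ hf hd)
  | one => exact ord_one _ _
  | mul x y _ _ hx hy => rw [ord_mul, hx, hy, add_zero]
  | inv x _ hx => rw [ord_inv, hx, neg_zero]

theorem tm_zero {π : F[X]} (hi : Irreducible π) {a b : Kˣ}
    (ha : ord K (pol K π hi) (pol_irreducible K π hi) a = 0)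
    (hb : ord K (pol K π hi) (pol_irreducible K π hi) b = 0) :
    tm (K := K) π hi (sym a b) = 0 := by
  unfold tm
  rw [tame_sym, ha, hb]
  simp

theorem pu_pi {π : F[X]} (hi : Irreducible π) :
    pu K π = piU K (pol K π hi) (pol_irreducible K π hi) := by
  ext
  rw [pu_val K hi.ne_zero]
  rfl

/-- the image of `m ↦ {π, m}` -/
def W (K : Type v) [Field K] [Algebra F[X] K] [IsFractionRing F[X] K] (d : ℕ) (π : F[X]) :
    AddSubgroup (MilnorK2 K) where
  carrier := {x | ∃ m ∈ M F K d, x = sym (pu K π) m}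
  zero_mem' := ⟨1, one_mem _, (sym_one_right _).symm⟩
  add_mem' := by
    rintro _ _ ⟨m, hm, rfl⟩ ⟨m', hm', rfl⟩
    exact ⟨m * m', mul_mem hm hm', (sym_mul_right _ _ _).symm⟩
  neg_mem' := by
    rintro _ ⟨m, hm, rfl⟩
    exact ⟨m⁻¹, inv_mem hm, (sym_inv_right _ _).symm⟩

theorem sym_mem_W {d : ℕ} {π : F[X]} {m : Kˣ} (hm : m ∈ M F K d) :
    sym (pu K π) m ∈ W K d π := ⟨m, hm, rfl⟩

/-- finitely many polynomials -/
def V (K : Type v) [Field K] [Algebra F[X] K] [IsFractionRing F[X] K] (d : ℕ)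
    (s : Finset F[X]) : AddSubgroup (MilnorK2 K) := U F K d ⊔ s.sup (W K d)

theorem V_mono {d : ℕ} {s t : Finset F[X]} (h : s ⊆ t) : V K d s ≤ V K d t :=
  sup_le_sup_left (Finset.sup_mono h) _

theorem U_le_ker {d : ℕ} {π : F[X]} (hπ : Ir d π) :
    U F K d ≤ (tm (K := K) π hπ.2.1).ker := by
  refine (AddSubgroup.closure_le _).2 ?_
  rintro _ ⟨a, b, ha, hb, rfl⟩
  exact tm_zero hπ.2.1 (ord_M hπ ha) (ord_M hπ hb)

theorem V_le_ker {d : ℕ} {π : F[X]} (hπ : Ir d π) {s : Finset F[X]} (hs : ∀ σ ∈ s, Ir d σ)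
    (hn : π ∉ s) : V K d s ≤ (tm (K := K) π hπ.2.1).ker := by
  refine sup_le (U_le_ker hπ) (Finset.sup_le fun σ hσ => ?_)
  rintro _ ⟨m, hm, rfl⟩
  refine tm_zero hπ.2.1 (ord_pu hπ.2.1 fun hdvd => hn ?_) (ord_M hπ hm)
  have := eq_of_monic_of_associated hπ.1 (hs σ hσ).1
    (hπ.2.1.associated_of_dvd (hs σ hσ).2.1 hdvd)
  rw [this]; exact hσ

theorem tm_kill {d : ℕ} {π : F[X]} (hπ : Ir d π) {m : Kˣ} (hm : m ∈ M F K d)
    (h0 : tm (K := K) π hπ.2.1 (sym (pu K π) m) = 0) : sym (pu K π) m ∈ U F K d := by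
  obtain ⟨h, hh, hd, hU⟩ := rep hπ hm
  have h1 : tm (K := K) π hπ.2.1 (sym (pu K π) (pu K h)) = 0 := by
    have h2 := U_le_ker hπ hU
    rw [AddMonoidHom.mem_ker, map_sub, h0, zero_sub, neg_eq_zero] at h2
    exact h2
  obtain ⟨w, hw, hw2⟩ := pu_unit (K := K) hπ.2.1 (not_dvd hπ hh hd)
  unfold tm at h1
  rw [tame_sym, pu_pi hπ.2.1, ord_pi, lc_pi, ord_pu hπ.2.1 (not_dvd hπ hh hd)] at h1
  rw [mul_zero, zpow_zero, one_mul, zpow_zero, one_mul, zpow_one, hw, lc_unit] at h1
  have h3 : (Units.map (residue (Oloc K π hπ.2.1) :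
      Oloc K π hπ.2.1 →* ResidueField (Oloc K π hπ.2.1)) w)⁻¹ = 1 := h1
  rw [inv_eq_one] at h3
  rw [h3, Units.val_one] at hw2
  have h4 : rho K π hπ.2.1 (h - 1) = 0 := by rw [map_sub, map_one, ← hw2, sub_self]
  have h5 := (rho_eq_zero K π hπ.2.1 _).1 h4
  have h6 : h = 1 := by
    by_contra hne
    refine not_dvd hπ (sub_ne_zero.2 hne) ?_ h5
    refine (natDegree_sub_le _ _).trans_lt (max_lt hd ?_)
    rw [natDegree_one]; exact hπ.pos
  rw [h6, pu_one, sym_one_right, sub_zero] at hU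
  exact hU

theorem V_kill {d : ℕ} (s : Finset F[X]) : (∀ σ ∈ s, Ir d σ) → ∀ δ : MilnorK2 K,
    δ ∈ V K d s → (∀ (σ : F[X]) (h : Ir d σ), tm (K := K) σ h.2.1 δ = 0) → δ ∈ U F K d := by
  classical
  induction s using Finset.induction_on with
  | empty =>
    intro _ δ hδ _
    unfold V at hδ
    rw [Finset.sup_empty, sup_bot_eq] at hδ
    exact hδ
  | insert π s hπs ih =>
    intro hs δ hδ h0
    have hπ : Ir d π := hs π (Finset.mem_insert_self π s)
    have hs' : ∀ σ ∈ s, Ir d σ := fun σ hσ => hs σ (Finset.mem_insert_of_mem hσ)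
    unfold V at hδ
    rw [Finset.sup_insert, sup_left_comm] at hδ
    obtain ⟨y, ⟨m, hm, rfl⟩, z, hz, rfl⟩ := AddSubgroup.mem_sup.1 hδ
    have hz0 := V_le_ker hπ hs' hπs hz
    rw [AddMonoidHom.mem_ker] at hz0
    have h1 := h0 π hπ
    rw [map_add, hz0, add_zero] at h1
    have h2 := tm_kill hπ hm h1
    refine ih hs' _ (add_mem ?_ hz) h0
    exact (le_sup_left : U F K d ≤ _) h2

/-! ### Generators -/

/-- the union of the groups `V` -/
def T (F : Type u) [Field F] (K : Type v) [Field K] [Algebra F[X] K] [IsFractionRing F[X] K]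
    (d : ℕ) : AddSubgroup (MilnorK2 K) where
  carrier := {x | ∃ s : Finset F[X], (∀ σ ∈ s, Ir d σ) ∧ x ∈ V K d s}
  zero_mem' := ⟨∅, by simp, zero_mem _⟩
  add_mem' := by
    classical
    rintro x y ⟨s, hs, hx⟩ ⟨t, ht, hy⟩
    refine ⟨s ∪ t, fun σ hσ => ?_, add_mem (V_mono Finset.subset_union_left hx)
      (V_mono Finset.subset_union_right hy)⟩
    rcases Finset.mem_union.1 hσ with h | h
    · exact hs σ h
    · exact ht σ h
  neg_mem' := by
    rintro x ⟨s, hs, hx⟩
    exact ⟨s, hs, neg_mem hx⟩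

theorem U_le_T {d : ℕ} : U F K d ≤ T F K d := fun x hx =>
  ⟨∅, by simp, (le_sup_left : U F K d ≤ _) hx⟩

theorem W_le_T {d : ℕ} {π : F[X]} (hπ : Ir d π) : W K d π ≤ T F K d := fun x hx =>
  ⟨{π}, by simpa using hπ, by
    unfold V
    rw [Finset.sup_singleton]
    exact (le_sup_right : W K d π ≤ _) hx⟩

/-- the group generated by `M` and the polynomials of degree `d` -/
def N (F : Type u) [Field F] (K : Type v) [Field K] [Algebra F[X] K] [IsFractionRing F[X] K]
    (d : ℕ) : Subgroup Kˣ :=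
  Subgroup.closure ((M F K d : Set Kˣ) ∪ {x | ∃ π : F[X], Ir d π ∧ x = pu K π})

theorem M_le_N {d : ℕ} (hd : 0 < d) : M F K (d + 1) ≤ N F K d := by
  have hM : ∀ x ∈ M F K d, x ∈ N F K d := fun x hx => Subgroup.subset_closure (Or.inl hx)
  refine (Subgroup.closure_le _).2 ?_
  rintro _ ⟨f, hf, hfd, rfl⟩
  rcases (Nat.lt_succ_iff.1 hfd).lt_or_eq with hlt | heq
  · exact hM _ (pu_mem hf hlt)
  by_cases hi : Irreducible f
  · have hl : f.leadingCoeff ≠ 0 := leadingCoeff_ne_zero.2 hf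
    set c : F := f.leadingCoeff with hc
    set h : F[X] := f * C c⁻¹ with hh
    have hCu : IsUnit (C c⁻¹ : F[X]) := isUnit_C.2 (isUnit_iff_ne_zero.2 (inv_ne_zero hl))
    have hhm : h.Monic := by rw [hh, hc]; exact monic_mul_leadingCoeff_inv hf
    have hhi : Irreducible h := by
      rw [hh]; exact (irreducible_mul_isUnit hCu).2 hi
    have hhd : h.natDegree = d := by
      rw [hh, natDegree_mul_C (inv_ne_zero hl), heq]
    have hpc : f = C c * h := by
      rw [hh, mul_comm f, ← mul_assoc, ← C_mul, mul_inv_cancel₀ hl, C_1, one_mul]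
    have hC0 : (C c : F[X]) ≠ 0 := C_ne_zero.2 hl
    rw [hpc]
    show pu K (C c * h) ∈ N F K d
    rw [pu_mul K hC0 hhm.ne_zero]
    refine mul_mem (hM _ (pu_mem hC0 (by rw [natDegree_C]; exact hd))) ?_
    exact Subgroup.subset_closure (Or.inr ⟨h, ⟨hhm, hhi, hhd⟩, rfl⟩)
  · have hnu : ¬ IsUnit f := fun h => by
      rw [natDegree_eq_zero_of_isUnit h] at heq
      omega
    obtain ⟨g, h, hg, hh, hgh⟩ : ∃ g h : F[X], ¬ IsUnit g ∧ ¬ IsUnit h ∧ f = g * h := by
      rw [irreducible_iff] at hi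
      push Not at hi
      obtain ⟨a, b, hab, ha, hb⟩ := hi hnu
      exact ⟨a, b, ha, hb, hab⟩
    have hg0 : g ≠ 0 := by rintro rfl; exact hf (by rw [hgh, zero_mul])
    have hh0 : h ≠ 0 := by rintro rfl; exact hf (by rw [hgh, mul_zero])
    have hgd : 0 < g.natDegree := by
      by_contra hcon
      have h1 : g.natDegree = 0 := by omega
      rw [eq_C_of_natDegree_eq_zero h1] at hg hg0
      exact hg (isUnit_C.2 (isUnit_iff_ne_zero.2 (C_ne_zero.1 hg0)))
    have hhd : 0 < h.natDegree := by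
      by_contra hcon
      have h1 : h.natDegree = 0 := by omega
      rw [eq_C_of_natDegree_eq_zero h1] at hh hh0
      exact hh (isUnit_C.2 (isUnit_iff_ne_zero.2 (C_ne_zero.1 hh0)))
    have hsum : g.natDegree + h.natDegree = d := by rw [← natDegree_mul hg0 hh0, ← hgh, heq]
    rw [hgh]
    show pu K (g * h) ∈ N F K d
    rw [pu_mul K hg0 hh0]
    exact mul_mem (hM _ (pu_mem hg0 (by omega))) (hM _ (pu_mem hh0 (by omega)))

theorem gen_gen {d : ℕ} (hd : 0 < d) {a b : Kˣ}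
    (ha : a ∈ (M F K d : Set Kˣ) ∪ {x | ∃ π : F[X], Ir d π ∧ x = pu K π})
    (hb : b ∈ (M F K d : Set Kˣ) ∪ {x | ∃ π : F[X], Ir d π ∧ x = pu K π}) :
    sym a b ∈ T F K d := by
  rcases ha with ha | ⟨π, hπ, rfl⟩ <;> rcases hb with hb | ⟨σ, hσ, rfl⟩
  · exact U_le_T (sym_mem_U ha hb)
  · rw [sym_swap]; exact neg_mem (W_le_T hσ (sym_mem_W ha))
  · exact W_le_T hπ (sym_mem_W hb)
  · by_cases hne : π = σ
    · rw [hne, sym_self]
      exact W_le_T hσ (sym_mem_W (neg_one_mem hd))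
    · have hr0 : σ - π ≠ 0 := sub_ne_zero.2 (Ne.symm hne)
      have hrd : (σ - π).natDegree < d := by
        rw [← hσ.2.2]
        refine natDegree_lt_natDegree hr0 ?_
        refine degree_sub_lt_left ?_ hσ.1.ne_zero ?_
        · rw [degree_eq_natDegree hσ.1.ne_zero, degree_eq_natDegree hπ.1.ne_zero, hσ.2.2, hπ.2.2]
        · rw [hσ.1.leadingCoeff, hπ.1.leadingCoeff]
      have hrM : pu K (σ - π) ∈ M F K d := pu_mem hr0 hrd
      have hk := key (pu K π) (pu K (σ - π)) (pu K σ) (by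
        rw [pu_val K hπ.1.ne_zero, pu_val K hr0, pu_val K hσ.1.ne_zero, ← map_add]
        congr 1; ring)
      have e : sym (pu K π) (pu K σ) = sym (pu K π) (pu K (σ - π))
          - sym (pu K σ) (pu K (σ - π)) + sym (pu K σ) (pu K σ) := by
        rw [hk]; abel
      rw [e, sym_self (pu K σ)]
      exact add_mem (sub_mem (W_le_T hπ (sym_mem_W hrM)) (W_le_T hσ (sym_mem_W hrM)))
        (W_le_T hσ (sym_mem_W (neg_one_mem hd)))

theorem N_N {d : ℕ} (hd : 0 < d) {a b : Kˣ} (ha : a ∈ N F K d) (hb : b ∈ N F K d) :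
    sym a b ∈ T F K d := by
  unfold N at ha
  induction ha using Subgroup.closure_induction with
  | mem x hx =>
    unfold N at hb
    induction hb using Subgroup.closure_induction with
    | mem y hy => exact gen_gen hd hx hy
    | one => rw [sym_one_right]; exact zero_mem _
    | mul y z _ _ h1 h2 => rw [sym_mul_right]; exact add_mem h1 h2
    | inv y _ h1 => rw [sym_inv_right]; exact neg_mem h1
  | one => rw [sym_one_left]; exact zero_mem _
  | mul y z _ _ h1 h2 => rw [sym_mul_left]; exact add_mem h1 h2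
  | inv y _ h1 => rw [sym_inv_left]; exact neg_mem h1

theorem U_le_T' {d : ℕ} (hd : 0 < d) : U F K (d + 1) ≤ T F K d := by
  refine (AddSubgroup.closure_le _).2 ?_
  rintro _ ⟨a, b, ha, hb, rfl⟩
  exact N_N hd (M_le_N hd ha) (M_le_N hd hb)

theorem step {d : ℕ} (hd : 0 < d) {δ : MilnorK2 K} (hδ : δ ∈ U F K (d + 1))
    (h0 : ∀ (σ : F[X]) (h : Ir d σ), tm (F := F) (K := K) σ h.2.1 δ = 0) : δ ∈ U F K d := by
  obtain ⟨s, hs, hV⟩ := U_le_T' hd hδ
  exact V_kill s hs δ hV h0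

theorem desc (n : ℕ) {δ : MilnorK2 K} : δ ∈ U F K (n + 1) →
    (∀ (π : F[X]), π.Monic → ∀ hi : Irreducible π, tm (K := K) π hi δ = 0) → δ ∈ U F K 1 := by
  induction n with
  | zero => intro h _; simpa using h
  | succ n ih =>
    intro h h0
    exact ih (step (Nat.succ_pos n) h fun σ hσ => h0 σ hσ.1 hσ.2.1) h0

theorem M_one {a : Kˣ} (ha : a ∈ M F K 1) :
    ∃ c : Fˣ, a = Units.map (cK (F := F) K : F →* K) c := by
  unfold M at ha
  induction ha using Subgroup.closure_induction with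
  | mem x hx =>
    obtain ⟨f, hf, hd, rfl⟩ := hx
    have h1 : f.natDegree = 0 := by omega
    have h2 := eq_C_of_natDegree_eq_zero h1
    have hc : f.coeff 0 ≠ 0 := by
      intro h3
      rw [h3, C_0] at h2
      exact hf h2
    refine ⟨Units.mk0 _ hc, ?_⟩
    ext
    rw [pu_val K hf]
    conv_lhs => rw [h2]
    rfl
  | one => exact ⟨1, by rw [map_one]⟩
  | mul x y _ _ hx hy =>
    obtain ⟨c, rfl⟩ := hx
    obtain ⟨c', rfl⟩ := hy
    exact ⟨c * c', by rw [map_mul]⟩
  | inv x _ hx =>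
    obtain ⟨c, rfl⟩ := hx
    exact ⟨c⁻¹, by rw [map_inv]⟩

end Filtration

end Pool.Agent.Y797.Q2.Mb

namespace Pool.Agent.Y797.Q2

open Polynomial IsLocalRing Pool.Agent.TH132.W

theorem stMilnor2b : StMilnor2 := by
  intro F K _ _ _ _ δ h0
  obtain ⟨n, hn⟩ := Mb.exists_U F δ
  have h1 : δ ∈ Mb.U F K 1 := Mb.desc n (Mb.U_mono (by omega) hn) h0
  refine (AddSubgroup.closure_le _).2 ?_ h1
  rintro _ ⟨a, b, ha, hb, rfl⟩
  obtain ⟨c, rfl⟩ := Mb.M_one ha
  obtain ⟨c', rfl⟩ := Mb.M_one hb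
  exact AddSubgroup.subset_closure ⟨c, c', rfl⟩

end Pool.Agent.Y797.Q2
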