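import Pool.Agent.Y797.Q2.St

/-!
# The local ring of the curve at a point
-/

set_option autoImplicit false

noncomputable section

namespace Pool.Agent.Y797.Q2

open Polynomial IsLocalRing Pool.Agent.TH132.W

theorem stPt : StPt := by
  intro F K _ _ _ _ Q π _ hi hπQ A _ _ _ _ hA
  have hQ0 : Q ≠ 0 := by rintro rfl; exact hπQ (dvd_zero _)
  have hQK : algebraMap F[X] K Q ≠ 0 :=
    (map_ne_zero_iff _ (IsFractionRing.injective F[X] K)).2 hQ0
  have hπQn : ∀ n : ℕ, ¬ π ∣ Q ^ n := fun n h => hπQ (hi.prime.dvd_of_dvd_pow h)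
  have hmem : ∀ a : A, algebraMap A K a ∈ Oloc K π hi := by
    intro a
    obtain ⟨n, f, -, e⟩ := (hA (algebraMap A K a)).1 ⟨a, rfl⟩
    exact ⟨f, Q ^ n, hπQn n, by rw [map_pow]; exact e⟩
  let gA : A →+* Oloc K π hi := (algebraMap A K).codRestrict (Oloc K π hi) hmem
  have hgA : ∀ a : A, (gA a : K) = algebraMap A K a := fun a => rfl
  refine ⟨(maximalIdeal (Oloc K π hi)).comap gA, inferInstance, ?_⟩
  intro R _ _ _ _ _
  set P : Ideal A := (maximalIdeal (Oloc K π hi)).comap gA with hP
  have hu : ∀ y : P.primeCompl, IsUnit (gA y) := by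
    rintro ⟨y, hy⟩
    by_contra hcon
    apply hy
    rw [hP]
    exact (mem_maximalIdeal _).2 hcon
  set g : R →+* Oloc K π hi := IsLocalization.lift (M := P.primeCompl) hu with hg
  have hmul : ∀ (a : A) (b : P.primeCompl), g (IsLocalization.mk' R a b) * gA b = gA a := by
    intro a b
    have := IsLocalization.lift_mk'_spec (M := P.primeCompl) (S := R) (g := gA) (hg := hu) a
      (IsLocalization.lift (M := P.primeCompl) hu (IsLocalization.mk' R a b)) b
    rw [mul_comm]
    exact (this.1 rfl).symm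
  have hne : ∀ b : P.primeCompl, (gA b : K) ≠ 0 := by
    intro b h0
    have h4 : gA b = 0 := Subtype.ext h0
    have h5 := hu b
    rw [h4] at h5
    exact not_isUnit_zero h5
  have hcomp : ∀ z : R, (g z : K) = algebraMap R K z := by
    intro z
    obtain ⟨a, b, rfl⟩ := IsLocalization.exists_mk'_eq P.primeCompl z
    have h1 : (g (IsLocalization.mk' R a b) : K) * (gA b : K) = gA a :=
      congrArg Subtype.val (hmul a b)
    have h2 : algebraMap R K (IsLocalization.mk' R a b) * (gA b : K) = gA a := by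
      rw [hgA, hgA, IsScalarTower.algebraMap_apply A R K, ← map_mul, IsLocalization.mk'_spec,
        ← IsScalarTower.algebraMap_apply A R K]
    exact mul_right_cancel₀ (hne b) (h1.trans h2.symm)
  have hinj : Function.Injective g := by
    rw [injective_iff_map_eq_zero]
    intro z hz
    obtain ⟨a, b, rfl⟩ := IsLocalization.exists_mk'_eq P.primeCompl z
    have h2 : gA a = 0 := by rw [← hmul a b, hz, zero_mul]
    have h3 : algebraMap A K a = 0 := by rw [← hgA, h2]; rfl
    have h4 : a = 0 := (map_eq_zero_iff _ (IsFractionRing.injective A K)).1 h3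
    rw [h4, IsLocalization.mk'_zero]
  have hsurj : Function.Surjective g := by
    rintro ⟨z, f, f', hf', hz⟩
    set N : ℕ := max f.natDegree f'.natDegree with hN
    have hQN : algebraMap F[X] K Q ^ N ≠ 0 := pow_ne_zero _ hQK
    have hf0 : algebraMap F[X] K f' ≠ 0 :=
      (map_ne_zero_iff _ (IsFractionRing.injective F[X] K)).2
        (by rintro rfl; exact hf' (dvd_zero _))
    obtain ⟨a, ha⟩ := (hA (algebraMap F[X] K f / algebraMap F[X] K Q ^ N)).2
      ⟨N, f, by omega, div_mul_cancel₀ _ hQN⟩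
    obtain ⟨b, hb⟩ := (hA (algebraMap F[X] K f' / algebraMap F[X] K Q ^ N)).2
      ⟨N, f', by omega, div_mul_cancel₀ _ hQN⟩
    have hbu : IsUnit (gA b) := by
      rw [isUnit_iff_exists_inv]
      refine ⟨⟨algebraMap F[X] K Q ^ N / algebraMap F[X] K f', Q ^ N, f', hf', ?_⟩, ?_⟩
      · rw [div_mul_cancel₀ _ hf0, map_pow]
      · apply Subtype.ext
        change (gA b : K) * (algebraMap F[X] K Q ^ N / algebraMap F[X] K f') = 1
        rw [hgA, hb]
        field_simp
    have hbP : b ∈ P.primeCompl := by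
      intro hbP
      rw [hP] at hbP
      exact (mem_maximalIdeal _).1 hbP hbu
    refine ⟨IsLocalization.mk' R a ⟨b, hbP⟩, Subtype.ext ?_⟩
    have h1 : (g (IsLocalization.mk' R a ⟨b, hbP⟩) : K) * (gA b : K) = gA a :=
      congrArg Subtype.val (hmul a ⟨b, hbP⟩)
    have h2 : z * (gA b : K) = gA a := by
      rw [hgA, hgA, ha, hb, ← hz]
      field_simp
    exact mul_right_cancel₀ (hne ⟨b, hbP⟩) (h1.trans h2.symm)
  exact ⟨RingEquiv.ofBijective g ⟨hinj, hsurj⟩, hcomp⟩

end Pool.Agent.Y797.Q2
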