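import Pool.Agent.Y797.Q2.Core

/-!
# Statements of the steps, second part
-/

set_option autoImplicit false

noncomputable section

namespace Pool.Agent.Y797.Q2

open Polynomial IsLocalRing Pool.Agent.TH132.W

/-- The rational functions `p = a₀ (t² - c)` and `h = h₀ + h₁ t`, with `a₀ = h₁² / N`, where
`N = h₀² - c h₁²`, if `h₁ ≠ 0`, and `a₀ = 1` if `h₁ = 0`. -/
def IsPair {F K : Type} [Field F] [Field K] [Algebra F[X] K] [IsFractionRing F[X] K]
    (c h0 h1 a0 : F) (p h : Kˣ) : Prop :=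
  (p : K) = cK (F := F) K a0 * algebraMap F[X] K (P0 c) ∧
  (h : K) = cK (F := F) K h0 + cK (F := F) K h1 * tv (F := F) K ∧
  a0 ≠ 0 ∧ h0 ^ 2 - c * h1 ^ 2 ≠ 0 ∧
  ((h1 = 0 ∧ a0 = 1) ∨ (h1 ≠ 0 ∧ a0 * (h0 ^ 2 - c * h1 ^ 2) = h1 ^ 2))

/-- The residues of classes in `I³` lie in `I²`. -/
def StRes3 : Prop := ∀ (R K : Type) [CommRing R] [IsDomain R] [IsDiscreteValuationRing R]
  [Field K] [Algebra R K] [IsFractionRing R K] (ϖ : R) (hϖ : Irreducible ϖ) (x : WittRing K),
    x ∈ fund K ^ 3 → res2 K ϖ hϖ x ∈ fund (ResidueField R) ^ 2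

/-- The structure of the classes in `K₂` which are unramified at all finite places except the
quadratic one. -/
def StSym : Prop := StMilnor2 → ∀ (F K : Type) [Field F] [Field K] [Algebra F[X] K]
  [IsFractionRing F[X] K] (c : F), Irreducible (P0 c) → ∀ (γ : MilnorK2 K),
    (∀ (π : F[X]), π.Monic → ∀ hi : Irreducible π, π ≠ P0 c →
      tame K (pol K π hi) (pol_irreducible K π hi) γ = 0) →
    ∃ (h0 h1 a0 : F) (p h : Kˣ), IsPair (K := K) c h0 h1 a0 p h ∧ γ - sym p h ∈ consts F K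

/-- The tame symbol at infinity is the norm. -/
def StInf : Prop := ∀ (F K R : Type) [Field F] [Field K] [Algebra F[X] K] [IsFractionRing F[X] K]
  [CommRing R] [IsDomain R] [IsDiscreteValuationRing R] [Algebra R K] [IsFractionRing R K]
  (ϖ : R) (hϖ : Irreducible ϖ) (j : F →+* R), (∀ a, algebraMap R K (j a) = cK (F := F) K a) →
    algebraMap R K ϖ = (tv (F := F) K)⁻¹ →
    ∀ (c h0 h1 a0 : F) (p h : Kˣ), IsPair (K := K) c h0 h1 a0 p h →
      tame K ϖ hϖ (sym p h) = 0 → h0 ^ 2 - c * h1 ^ 2 = 1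

/-- The lifts are unramified at the finite places different from the quadratic one. -/
def StPairA : Prop := ∀ (F K R : Type) [Field F] [Field K] [Algebra F[X] K]
  [IsFractionRing F[X] K] [CommRing R] [IsDomain R] [IsDiscreteValuationRing R] [Algebra R K]
  [IsFractionRing R K] (ϖ : R) (hϖ : Irreducible ϖ) (j : F →+* R),
    (∀ a, algebraMap R K (j a) = cK (F := F) K a) →
    ∀ (c : F) (r u : R), algebraMap R K r = tv (F := F) K →
      algebraMap R K u * algebraMap F[X] K (P0 c) = 1 → IsUnit u →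
      ∀ (h0 h1 a0 : F) (p h : Kˣ), IsPair (K := K) c h0 h1 a0 p h →
        res2 K ϖ hϖ (pf p * pf h) = 0

/-- The lifts are unramified at infinity. -/
def StPairB : Prop := ∀ (F K R : Type) [Field F] [Field K] [Algebra F[X] K]
  [IsFractionRing F[X] K] [CommRing R] [IsDomain R] [IsDiscreteValuationRing R] [Algebra R K]
  [IsFractionRing R K] (ϖ : R) (hϖ : Irreducible ϖ) (j : F →+* R),
    (∀ a, algebraMap R K (j a) = cK (F := F) K a) →
    ∀ (c : F) (r : R), r ∈ maximalIdeal R → algebraMap R K r = (tv (F := F) K)⁻¹ →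
      ∀ (b : F) (p : Kˣ), b ≠ 0 →
        (p : K) = cK (F := F) K (b ^ 2) * algebraMap F[X] K (P0 c) → lam K ϖ hϖ (pf p) = 0

/-- The base field for the second example. -/
def StArith : Prop := ∃ (k : Type) (_ : Field k) (i c a : k), Infinite k ∧ (2 : k) ≠ 0 ∧
  i ^ 2 = -1 ∧ (∀ s : k, s ^ 2 ≠ c) ∧ a ≠ 0 ∧
  ∀ e0 e1 : k, e0 ^ 2 - c * e1 ^ 2 ≠ a ∧ e0 ^ 2 - c * e1 ^ 2 ≠ -a

/-- A square in the quadratic extension gives a norm. -/
def StNorm : Prop := ∀ (F K : Type) [Field F] [Field K] [Algebra F[X] K] [IsFractionRing F[X] K]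
  (c : F) (hirr : Irreducible (P0 c)) (a h0 h1 : F), h0 ^ 2 - c * h1 ^ 2 = 1 →
    ∀ y : kap K (P0 c) hirr, y * y = rho K (P0 c) hirr (C a * (C h0 + C h1 * X)) →
      ∃ e0 e1 : F, e0 ^ 2 - c * e1 ^ 2 = a ∨ e0 ^ 2 - c * e1 ^ 2 = -a

/-- Lifts of symbols of constants. -/
def StConst : Prop := ∀ (F K : Type) [Field F] [Field K] [Algebra F[X] K] [IsFractionRing F[X] K]
  (δ : MilnorK2 K), δ ∈ consts F K → ∃ v : WittRing F, v ∈ fund F ^ 2 ∧
    pfister δ = QuotientAddGroup.mk (map (cK (F := F) K) v)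

/-- Constants have no residues. -/
def StConstRes : Prop := ∀ (F K R : Type) [Field F] [Field K] [Algebra F[X] K]
  [IsFractionRing F[X] K] [CommRing R] [IsDomain R] [IsDiscreteValuationRing R] [Algebra R K]
  [IsFractionRing R K] (ϖ : R) (hϖ : Irreducible ϖ) (j : F →+* R),
    (∀ a, algebraMap R K (j a) = cK (F := F) K a) → ∀ v : WittRing F,
      res2 K ϖ hϖ (map (cK (F := F) K) v) = 0

end Pool.Agent.Y797.Q2
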