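import Pool.Agent.Y797.Q2.St

/-!
# The structure of a rational function field with the variable `1 / t`
-/

set_option autoImplicit false

noncomputable section

namespace Pool.Agent.Y797.Q2

open Polynomial IsLocalRing Pool.Agent.TH132.W

section Swap

variable {F K : Type} [Field F] [Field K] [Algebra F[X] K] [IsFractionRing F[X] K]

/-- The value at `1 / t`. -/
theorem ev_reflect (f : F[X]) (N : ℕ) (hf : f.natDegree ≤ N) :
    eval₂ (cK (F := F) K) (tv (F := F) K)⁻¹ (reflect N f) * tv (F := F) K ^ N =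
      algebraMap F[X] K f := by
  let _ : Invertible (tv (F := F) K) := invertibleOfNonzero (tv_ne K)
  have h := eval₂_reflect_mul_pow (cK (F := F) K) (tv (F := F) K) N f hf
  rw [invOf_eq_inv, eval₂_tv] at h
  exact h

theorem reflect_deg (f : F[X]) (N : ℕ) (hf : f.natDegree ≤ N) : (reflect N f).natDegree ≤ N :=
  natDegree_reflect_le.trans (max_le le_rfl hf)

theorem ev_mul (f : F[X]) (N : ℕ) (hf : f.natDegree ≤ N) :
    eval₂ (cK (F := F) K) (tv (F := F) K)⁻¹ f * tv (F := F) K ^ N =
      algebraMap F[X] K (reflect N f) := by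
  have h := ev_reflect (K := K) (reflect N f) N (reflect_deg f N hf)
  have e : reflect N (reflect N f) = f := by
    ext i
    rw [coeff_reflect, coeff_reflect, revAt_invol]
  rwa [e] at h

theorem ev_Q0 (c : F) : eval₂ (cK (F := F) K) (tv (F := F) K)⁻¹ (Q0 c) * tv (F := F) K ^ 2 =
    algebraMap F[X] K (P0 c) := by
  have h := tv_ne (F := F) K
  unfold Q0 P0
  rw [eval₂_sub, eval₂_one, eval₂_mul, eval₂_C, eval₂_pow, eval₂_X, map_sub, map_pow]
  rw [show algebraMap F[X] K X = tv (F := F) K from rfl,
    show algebraMap F[X] K (C c) = cK K c from rfl]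
  field_simp

end Swap

theorem stSwap : StSwap := by
  intro F K _ _ _ _
  have ht := tv_ne (F := F) K
  constructor
  · have hs : ∀ z : K, ∃ f g : F[X], z = eval₂ (cK (F := F) K) (tv (F := F) K)⁻¹ f /
        eval₂ (cK (F := F) K) (tv (F := F) K)⁻¹ g := by
      intro z
      obtain ⟨f, g, hg, rfl⟩ := IsFractionRing.div_surjective (A := F[X]) z
      refine ⟨reflect (max f.natDegree g.natDegree) f, reflect (max f.natDegree g.natDegree) g, ?_⟩
      rw [← ev_reflect f _ (le_max_left f.natDegree g.natDegree),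
        ← ev_reflect g _ (le_max_right f.natDegree g.natDegree),
        mul_div_mul_right _ _ (pow_ne_zero _ ht)]
    have hinj := inj_inv (F := F) K
    let _ : Algebra F[X] K := alg2 F K
    have : FaithfulSMul F[X] K := by
      rw [faithfulSMul_iff_algebraMap_injective]
      exact hinj
    exact IsFractionRing.of_field F[X] K (by
      intro z
      obtain ⟨f, g, h⟩ := hs z
      exact ⟨f, g, h⟩)
  · intro c z
    constructor
    · rintro ⟨n, f, hf, h⟩
      refine ⟨n, reflect (2 * n) f, reflect_deg f _ hf, ?_⟩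
      have h' : z * eval₂ (cK (F := F) K) (tv (F := F) K)⁻¹ (Q0 c) ^ n =
          eval₂ (cK (F := F) K) (tv (F := F) K)⁻¹ f := h
      rw [← ev_mul f _ hf, ← h', ← ev_Q0, mul_pow, ← pow_mul]
      ring
    · rintro ⟨n, f, hf, h⟩
      refine ⟨n, reflect (2 * n) f, reflect_deg f _ hf, ?_⟩
      change z * eval₂ (cK (F := F) K) (tv (F := F) K)⁻¹ (Q0 c) ^ n =
          eval₂ (cK (F := F) K) (tv (F := F) K)⁻¹ (reflect (2 * n) f)
      apply mul_right_cancel₀ (pow_ne_zero (2 * n) ht)
      rw [ev_reflect f _ hf, ← h, ← ev_Q0, mul_pow, ← pow_mul]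
      ring

end Pool.Agent.Y797.Q2
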