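import Pool.Agent.Y797.Q2.St
import Pool.Agent.TH132.W.Rat

/-!
# Rational functions with divisor supported at one polynomial
-/

set_option autoImplicit false

noncomputable section

namespace Pool.Agent.Y797.Q2

open Polynomial IsLocalRing Pool.Agent.TH132.W

namespace UnitsAux

variable {F K : Type} [Field F] [Field K] [Algebra F[X] K] [IsFractionRing F[X] K]

/-- A nonzero polynomial as a unit of the field. -/
def U (K : Type) [Field K] [Algebra F[X] K] [IsFractionRing F[X] K] (h : F[X]) (hh : h ≠ 0) : Kˣ :=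
  Units.mk0 (algebraMap F[X] K h)
    (by
      intro h0
      exact hh (IsFractionRing.injective F[X] K (h0.trans (map_zero _).symm)))

theorem ord_poly (π : F[X]) (hi : Irreducible π) (h : F[X]) (hh : h ≠ 0) :
    ∃ n : ℕ, ord K (pol K π hi) (pol_irreducible K π hi) (U K h hh) = n ∧
      (π ∣ h → 0 < n) ∧ (¬ π ∣ h → n = 0) := by
  obtain ⟨h', e1, e2⟩ :=
    (FiniteMultiplicity.of_not_isUnit hi.not_isUnit hh).exists_eq_pow_mul_and_not_dvd
  generalize multiplicity π h = n at e1
  have hu : IsUnit (algebraMap F[X] (Oloc K π hi) h') :=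
    isUnit_of_rho_ne K π hi (fun h0 => e2 ((rho_eq_zero K π hi h').1 h0))
  obtain ⟨e, he⟩ := hu
  refine ⟨n, ?_, ?_, ?_⟩
  · have h1 : U K h hh = piU K (pol K π hi) (pol_irreducible K π hi) ^ (n : ℤ) *
        Units.map (algebraMap (Oloc K π hi) K : Oloc K π hi →* K) e := by
      ext
      rw [zpow_natCast, Units.val_mul, Units.val_pow_eq_pow_val]
      show algebraMap F[X] K h = (algebraMap F[X] K π) ^ n *
        algebraMap (Oloc K π hi) K (e : Oloc K π hi)
      rw [he]
      show algebraMap F[X] K h = (algebraMap F[X] K π) ^ n * algebraMap F[X] K h'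
      rw [← map_pow, ← map_mul, ← e1]
    rw [h1, ord_mk]
  · intro hd
    rcases Nat.eq_zero_or_pos n with h0 | h0
    · rw [h0, pow_zero, one_mul] at e1
      rw [e1] at hd
      exact absurd hd e2
    · exact h0
  · intro hd
    by_contra h0
    apply hd
    rw [e1]
    exact Dvd.dvd.mul_right (dvd_pow_self π h0) h'

theorem only (P h : F[X]) (hh : h ≠ 0) (hP : Irreducible P)
    (H : ∀ π : F[X], π.Monic → Irreducible π → π ∣ h → π = P) :
    ∃ (a : F) (n : ℕ), a ≠ 0 ∧ h = C a * P ^ n := by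
  obtain ⟨h', e1, e2⟩ :=
    (FiniteMultiplicity.of_not_isUnit hP.not_isUnit hh).exists_eq_pow_mul_and_not_dvd
  generalize multiplicity P h = n at e1
  have hu : IsUnit h' := by
    by_contra hu
    obtain ⟨g, g1, g2, g3⟩ := Polynomial.exists_monic_irreducible_factor h' hu
    have h1 : g = P := H g g1 g2 (by rw [e1]; exact Dvd.dvd.mul_left g3 _)
    rw [h1] at g3
    exact e2 g3
  obtain ⟨a, ha, hah⟩ := Polynomial.isUnit_iff.1 hu
  refine ⟨a, n, ha.ne_zero, ?_⟩
  rw [e1, ← hah, mul_comm]

end UnitsAux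

open UnitsAux in
theorem stUnits : StUnits := by
  intro F K _ _ _ _ c hP u hu
  obtain ⟨a, b, hab, hx⟩ := IsFractionRing.exists_reduced_fraction (A := F[X]) (K := K) (u : K)
  have hb0 : (b : F[X]) ≠ 0 := nonZeroDivisors.coe_ne_zero b
  have hua : (u : K) * algebraMap F[X] K (b : F[X]) = algebraMap F[X] K a := by
    rw [← hx]
    exact IsLocalization.mk'_spec K a b
  have ha0 : a ≠ 0 := by
    intro h0
    rw [h0, map_zero] at hua
    rcases mul_eq_zero.1 hua with h1 | h1
    · exact u.ne_zero h1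
    · exact hb0 (IsFractionRing.injective F[X] K (h1.trans (map_zero _).symm))
  have hU : u * U K (b : F[X]) hb0 = U K a ha0 := by
    ext
    exact hua
  have key : ∀ π : F[X], π.Monic → Irreducible π → π ≠ P0 c → ¬ π ∣ a ∧ ¬ π ∣ (b : F[X]) := by
    intro π hm hi hne
    have h1 := hu π hm hi hne
    obtain ⟨na, a1, a2, a3⟩ := ord_poly (K := K) π hi a ha0
    obtain ⟨nb, b1, b2, b3⟩ := ord_poly (K := K) π hi b hb0
    have h2 : ord K (pol K π hi) (pol_irreducible K π hi) (u * U K (b : F[X]) hb0) = na := by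
      rw [hU, a1]
    rw [ord_mul, h1, b1, zero_add] at h2
    have h3 : nb = na := by exact_mod_cast h2
    have h4 : ¬ (π ∣ a ∧ π ∣ (b : F[X])) := fun h => hi.not_isUnit (hab h.1 h.2)
    by_cases hA : π ∣ a
    · have hB : ¬ π ∣ (b : F[X]) := fun h => h4 ⟨hA, h⟩
      have h5 := a2 hA
      have h6 := b3 hB
      omega
    · refine ⟨hA, fun hB => ?_⟩
      have h5 := a3 hA
      have h6 := b2 hB
      omega
  obtain ⟨α, m, hα, ea⟩ := only (P0 c) a ha0 hP (fun π hm hi hd => by
    by_contra hne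
    exact (key π hm hi hne).1 hd)
  obtain ⟨β, k, hβ, eb⟩ := only (P0 c) b hb0 hP (fun π hm hi hd => by
    by_contra hne
    exact (key π hm hi hne).2 hd)
  have hPK : algebraMap F[X] K (P0 c) ≠ 0 := by
    intro h0
    exact hP.ne_zero (IsFractionRing.injective F[X] K (h0.trans (map_zero _).symm))
  have hβK : cK (F := F) K β ≠ 0 := (map_ne_zero_iff _ (RingHom.injective _)).2 hβ
  refine ⟨α * β⁻¹, (m : ℤ) - k, mul_ne_zero hα (inv_ne_zero hβ), ?_⟩
  rw [ea, eb, map_mul, map_mul, map_pow, map_pow] at hua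
  have hua' : (u : K) * (cK (F := F) K β * algebraMap F[X] K (P0 c) ^ k) =
      cK (F := F) K α * algebraMap F[X] K (P0 c) ^ m := hua
  rw [map_mul, map_inv₀, zpow_sub₀ hPK, zpow_natCast, zpow_natCast]
  field_simp
  rw [← hua']
  ring

end Pool.Agent.Y797.Q2
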