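import Pool.Agent.Y797.Q2.Asm
import Pool.Agent.Y797.Q2.St2
import Pool.Agent.Y797.Q2.Pt
import Pool.Agent.Y797.Q2.Equiv
import Pool.Agent.Y797.Q2.Swap
import Pool.Agent.Y797.Q2.Even
import Pool.Agent.Y797.Q2.Units
import Pool.Agent.Y797.Q2.Milnorb

/-!
# Degree one and degree two on the curve
-/

set_option autoImplicit false

noncomputable section

namespace Pool.Agent.Y797.Q2

open Polynomial IsLocalRing AlgebraicGeometry Pool.Agent.TH132.W

universe u v

section Gen

variable {F : Type u} [Field F]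

theorem isPfisterLift_iff (α : MilnorK2 F) (w : WittRing F) :
    IsPfisterLift α w ↔ w ∈ fund F ^ 2 ∧ pfister α = QuotientAddGroup.mk w := by
  constructor
  · rintro ⟨h1, h2⟩
    exact ⟨h1, h2 pfister pfister_is⟩
  · rintro ⟨h1, h2⟩
    refine ⟨h1, fun φ hφ => ?_⟩
    rw [pfister_uniq hφ, h2]

end Gen

section Res

variable {R K : Type} [CommRing R] [IsDomain R] [IsDiscreteValuationRing R]
  [Field K] [Algebra R K] [IsFractionRing R K]

theorem res2_of_lam_left (ϖ : R) (hϖ : Irreducible ϖ) (x y : WittRing K)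
    (h : lam K ϖ hϖ x = 0) : res2 K ϖ hϖ (x * y) = 0 := by
  rw [res2_apply, map_mul, h, zero_mul]
  simp

theorem lam_of_even (ϖ : R) (hϖ : Irreducible ϖ) (a : Kˣ) (h : Even (ord K ϖ hϖ a)) :
    res2 K ϖ hϖ (pf a) = 0 := by
  obtain ⟨n, u, rfl⟩ := exists_mk (K := K) ϖ hϖ a
  rw [ord_mk] at h
  have h1 : res2 K ϖ hϖ (cls (piU K ϖ hϖ ^ n * Units.map (algebraMap R K : R →* K) u)) = 0 :=
    res2_even K ϖ hϖ h u
  have h2 : res2 K ϖ hϖ (1 : WittRing K) = 0 := by
    rw [res2_apply, map_one]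
    rfl
  unfold pf
  rw [map_sub, h1, h2, sub_zero]

end Res

section Abs3

variable {k : Type} [Field k] {A : CommRingCat.{0}} [IsDomain A]
  [Algebra k[X] (Spec A).functionField] [IsFractionRing k[X] (Spec A).functionField] (c : k)
  (hirr : Irreducible (P0 c))
  (hA : ∀ z : (Spec A).functionField,
      (∃ a : A, algebraMap A (Spec A).functionField a = z) ↔ Mem0 (Spec A).functionField (P0 c) z)
  (j0 : k →+* A) (hj0 : ∀ a, algebraMap A (Spec A).functionField (j0 a) =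
    cK (F := k) (Spec A).functionField a)

/-- The constants in the stalk. -/
def jst (j0 : k →+* A) (y : Spec A) : k →+* (Spec A).presheaf.stalk y :=
  (@algebraMap A ((Spec A).presheaf.stalk y) _ _ (stAlg A y)).comp j0

include hj0 in
theorem jst_spec (y : Spec A) (a : k) :
    algebraMap ((Spec A).presheaf.stalk y) (Spec A).functionField (jst j0 y a) =
      cK (F := k) (Spec A).functionField a := by
  let _ := stAlg A y
  have := stTower A y
  rw [← hj0]
  exact (IsScalarTower.algebraMap_apply A ((Spec A).presheaf.stalk y) _ (j0 a)).symm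

theorem not_dvd {π : k[X]} (hm : π.Monic) (hi : Irreducible π) (hirr : Irreducible (P0 c))
    (h : π ≠ P0 c) : ¬ π ∣ P0 c := fun hd =>
  h (eq_of_monic_of_associated hm (monic_X_pow_sub_C c two_ne_zero) (hi.associated_of_dvd hirr hd))

include hA hirr in
theorem unram_fin (γ : MilnorK2 (Spec A).functionField) (hγ : UnramK2 (Spec A) γ) (π : k[X])
    (hm : π.Monic) (hi : Irreducible π) (h : π ≠ P0 c) :
    tame (Spec A).functionField (pol (Spec A).functionField π hi)
      (pol_irreducible (Spec A).functionField π hi) γ = 0 :=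
  unram_pt stPt stEquiv (P0_deg c) hi (not_dvd c hm hi hirr h) hA γ hγ

include hA hirr hj0 in
/-- The structure of the unramified classes. -/
theorem structure' (hSym : StSym) (hInf : StInf) (γ : MilnorK2 (Spec A).functionField)
    (hγ : UnramK2 (Spec A) γ) :
    ∃ (h0 h1 a0 : k) (p h : ((Spec A).functionField)ˣ),
      IsPair (K := (Spec A).functionField) c h0 h1 a0 p h ∧
      γ - sym p h ∈ consts k (Spec A).functionField ∧ h0 ^ 2 - c * h1 ^ 2 = 1 := by
  obtain ⟨h0, h1, a0, p, h, hp, hc⟩ := hSym stMilnor2b k (Spec A).functionField c hirr γ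
    (fun π hm hi hπ => unram_fin c hirr hA γ hγ π hm hi hπ)
  refine ⟨h0, h1, a0, p, h, hp, hc, ?_⟩
  obtain ⟨y, hD, ϖ, hϖ, hϖ', -⟩ := inf_pt c stPt stSwap hA
  refine hInf k (Spec A).functionField _ ϖ hϖ (jst j0 y) (jst_spec j0 hj0 y) hϖ' c h0 h1 a0 p h
    hp ?_
  have h1 := tame_consts ϖ hϖ (jst j0 y) (jst_spec j0 hj0 y) hc
  obtain ⟨τ, hτ, h2⟩ := hγ y ϖ hϖ
  rw [tame_uniq ϖ hϖ hτ] at h2
  rw [map_sub, h2, zero_sub, neg_eq_zero] at h1
  exact h1

theorem unramW_of_res2 {w : WittRing (Spec A).functionField}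
    (h : ∀ (y : Spec A) [IsDiscreteValuationRing ((Spec A).presheaf.stalk y)]
      (ϖ : (Spec A).presheaf.stalk y) (hϖ : Irreducible ϖ),
      res2 (Spec A).functionField ϖ hϖ w = 0) : UnramW (Spec A) w := by
  intro y _ ϖ hϖ δ hδ
  rw [res_uniq ϖ hϖ hδ]
  exact h y ϖ hϖ

include hA hj0 in
theorem unram_pair (hPA : StPairA) (hPB : StPairB) (h0 h1 a0 : k)
    (p h : ((Spec A).functionField)ˣ)
    (hp : IsPair (K := (Spec A).functionField) c h0 h1 a0 p h)
    (b : k) (hb : b ≠ 0) (hb' : a0 = b ^ 2) : UnramW (Spec A) (pf p * pf h) := by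
  refine unramW_of_res2 fun y _ ϖ hϖ => ?_
  rcases dich c hA y with ⟨r, u, h1, h2, h3⟩ | ⟨r, h1, h2⟩
  · exact hPA k (Spec A).functionField _ ϖ hϖ (jst j0 y) (jst_spec j0 hj0 y) c r u h1 h2 h3 _ _ _
      p h hp
  · exact res2_of_lam_left ϖ hϖ _ _ (hPB k (Spec A).functionField _ ϖ hϖ (jst j0 y)
      (jst_spec j0 hj0 y) c r h1 h2 b p hb (by rw [hp.1, hb']))

theorem pair_sq {K : Type} [Field K] [Algebra k[X] K] [IsFractionRing k[X] K] {h0 h1 a0 : k}
    {p h : Kˣ} (hp : IsPair (K := K) c h0 h1 a0 p h) (hN : h0 ^ 2 - c * h1 ^ 2 = 1) :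
    ∃ b : k, b ≠ 0 ∧ a0 = b ^ 2 := by
  rcases hp.2.2.2.2 with ⟨-, h1⟩ | ⟨h1, h2⟩
  · exact ⟨1, one_ne_zero, by rw [h1, one_pow]⟩
  · exact ⟨_, h1, by rw [← h2, hN, mul_one]⟩

include hA hirr hj0 in
/-- A lift of an unramified class. -/
theorem exists_lift (hSym : StSym) (hInf : StInf) (hPA : StPairA) (hPB : StPairB)
    (hC : StConst) (hCR : StConstRes) (γ : MilnorK2 (Spec A).functionField)
    (hγ : UnramK2 (Spec A) γ) :
    ∃ w, UnramW (Spec A) w ∧ IsPfisterLift γ w := by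
  obtain ⟨h0, h1, a0, p, h, hp, hc, hN⟩ := structure' c hirr hA j0 hj0 hSym hInf γ hγ
  obtain ⟨b, hb, hb'⟩ := pair_sq c hp hN
  obtain ⟨v, hv, hv'⟩ := hC k (Spec A).functionField _ hc
  refine ⟨pf p * pf h + map (cK (F := k) (Spec A).functionField) v, ?_, ?_⟩
  · refine unramW_of_res2 fun y _ ϖ hϖ => ?_
    rw [map_add, hCR k (Spec A).functionField _ ϖ hϖ (jst j0 y) (jst_spec j0 hj0 y) v, add_zero]
    exact unram_pair c hA j0 hj0 hPA hPB _ _ _ p h hp b hb hb' y ϖ hϖ _ (res2_is _ ϖ hϖ)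
  · rw [isPfisterLift_iff]
    refine ⟨add_mem ?_ (map_fund_le _ 2 hv), ?_⟩
    · rw [pow_two]
      exact Ideal.mul_mem_mul (pf_mem p) (pf_mem h)
    · have e : γ = sym p h + (γ - sym p h) := by abel
      rw [e, map_add, hv', QuotientAddGroup.mk_add]
      rfl

include hA in
/-- The class `{-1, t² - c}` is unramified. -/
theorem unram_neg : UnramK2 (Spec A) (sym (-1) (pu (Spec A).functionField (P0 c) (P0_ne c))) := by
  intro y _ ϖ hϖ
  refine ⟨_, tame_is _ ϖ hϖ, ?_⟩
  rw [tame_neg_one, (even_pt c stEven hA y ϖ hϖ).neg_one_zpow]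
  rfl

include hA hirr hj0 in
/-- **The map is not injective in degree two.** -/
theorem not_inj (h2 : (2 : k) ≠ 0) (i : kˣ) (hi : i ^ 2 = -1) :
    ∃ α, UnramK2 (Spec A) α ∧ IsPfisterLift α 0 ∧ ∀ β, UnramK2 (Spec A) β → β + β ≠ α := by
  refine ⟨_, unram_neg c hA, ?_, ?_⟩
  · rw [isPfisterLift_iff]
    refine ⟨zero_mem _, ?_⟩
    have hbb : sym (-1) (pu (Spec A).functionField (P0 c) (P0_ne c)) =
        sym (cu _ i) (pu (Spec A).functionField (P0 c) (P0_ne c)) +
        sym (cu _ i) (pu (Spec A).functionField (P0 c) (P0_ne c)) := by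
      rw [← sym_mul_left, ← pow_two]
      congr 1
      have : cu (Spec A).functionField i ^ 2 = cu (Spec A).functionField (i ^ 2) :=
        (map_pow _ _ _).symm
      rw [this, hi, cu_neg_one]
    rw [hbb, map_add, pfister_is, ← QuotientAddGroup.mk_add]
    apply mk_eq_of_sub
    rw [sub_zero, ← two_mul]
    have := Ideal.mul_mem_mul (two_mem (F := (Spec A).functionField))
      (Ideal.mul_mem_mul (pf_mem (cu (Spec A).functionField i))
        (pf_mem (pu (Spec A).functionField (P0 c) (P0_ne c))))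
    rwa [← pow_two, ← pow_succ'] at this
  · intro β hβ
    obtain ⟨y, hD, ϖ, hϖ, -, hord⟩ := inf_pt c stPt stSwap hA
    refine core stMilnor2b c h2 hirr i hi ϖ hϖ (jst j0 y) (jst_spec j0 hj0 y) hord β
      (fun π hm hi' hπ => unram_fin c hirr hA β hβ π hm hi' hπ) ?_
    obtain ⟨τ, hτ, h2⟩ := hβ y ϖ hϖ
    rwa [tame_uniq ϖ hϖ hτ] at h2

end Abs3

end Pool.Agent.Y797.Q2
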