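import Pool.Agent.Y797.Q2.St

/-!
# The residues of Pfister lifts of classes in `K₂` at a discrete valuation ring
-/

set_option autoImplicit false

noncomputable section

namespace Pool.Agent.Y797.Q2

open Polynomial IsLocalRing Pool.Agent.TH132.W TensorProduct

section Aux

variable {κ : Type} [Field κ]

theorem res_cls_inv (x : κˣ) : cls x⁻¹ = cls x := by
  have h := cls_sq' x⁻¹ x
  have e : x⁻¹ * x ^ 2 = x := by
    rw [pow_two, inv_mul_cancel_left]
  rw [e] at h
  exact h.symm

theorem res_cls_even (x : κˣ) {n : ℤ} (h : Even n) : cls (x ^ n) = 1 := by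
  obtain ⟨k, rfl⟩ := h
  rw [zpow_add, ← pow_two, cls_sq]

theorem res_cls_odd (x : κˣ) {n : ℤ} (h : Odd n) : cls (x ^ n) = cls x := by
  obtain ⟨k, rfl⟩ := h
  rw [zpow_add, zpow_one, mul_comm, two_mul, zpow_add, ← pow_two, cls_sq']

theorem res_pf_mul_mem (x y : κˣ) : pf x * pf y ∈ fund κ ^ 2 := by
  rw [pow_two]
  exact Ideal.mul_mem_mul (pf_mem_fund x) (pf_mem_fund y)

theorem res_one_add (x : κˣ) : 1 + cls x = pf (-x) := by
  unfold pf
  rw [cls_neg]
  ring

theorem res_im {A : Type} [CommRing A] (p q : A) :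
    ((cst p : Dbl A) - cst q * ⟨0, 1⟩).im = -q := by
  simp [cst]

end Aux

/-- the case of a symbol -/
theorem res_sym {K : Type} [Field K] (R : Type) [CommRing R] [IsDomain R]
    [IsDiscreteValuationRing R] [Algebra R K] [IsFractionRing R K] (ϖ : R) (hϖ : Irreducible ϖ)
    (a b : Kˣ) : res2 K ϖ hϖ (pf a * pf b) - pf (Additive.toMul (tame K ϖ hϖ (sym a b))) ∈
      fund (ResidueField R) ^ 2 := by
  rw [tame_sym, toMul_ofMul, res2_apply, map_mul]
  have hA : ∀ c : Kˣ, lam K ϖ hϖ (pf c) =
      1 - cst (cls (lc K ϖ hϖ c)) * ez (ord K ϖ hϖ c) := by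
    intro c
    unfold pf
    rw [map_sub, map_one, lam_cls]
    rfl
  rw [hA, hA]
  set n := ord K ϖ hϖ a
  set m := ord K ϖ hϖ b
  set x := lc K ϖ hϖ a
  set y := lc K ϖ hϖ b
  have hp : pf ((-1) ^ (n * m) * (x ^ m * (y ^ n)⁻¹)) =
      1 - cls ((-1) ^ (n * m)) * (cls (x ^ m) * cls (y ^ n)) := by
    unfold pf
    rw [cls_mul, cls_mul, res_cls_inv]
  rw [hp]
  rcases Int.even_or_odd n with hn | hn <;> rcases Int.even_or_odd m with hm | hm
  · -- both even
    rw [ez_even hn, ez_even hm, res_cls_even _ (hn.mul_right m), res_cls_even _ hm,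
      res_cls_even _ hn]
    have e : ((1 - cst (cls x) * 1) * (1 - cst (cls y) * 1) :
        Dbl (WittRing (ResidueField R))) = cst ((1 - cls x) * (1 - cls y)) := by
      rw [map_mul, map_sub, map_sub, map_one]
      ring
    rw [e, cst_im]
    simp
  · -- `n` even, `m` odd
    rw [ez_even hn, ez_odd hm, res_cls_even _ (hn.mul_right m), res_cls_odd _ hm,
      res_cls_even _ hn]
    have e : ((1 - cst (cls x) * 1) * (1 - cst (cls y) * ⟨0, 1⟩) :
        Dbl (WittRing (ResidueField R))).im = -((1 - cls x) * cls y) := by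
      have e1 : ((1 - cst (cls x) * 1) * (1 - cst (cls y) * ⟨0, 1⟩) :
        Dbl (WittRing (ResidueField R))) =
          cst (1 - cls x) - cst ((1 - cls x) * cls y) * ⟨0, 1⟩ := by
        rw [map_mul, map_sub, map_one]
        ring
      rw [e1, res_im]
    rw [e]
    have h := res_pf_mul_mem x (-y)
    rw [← res_one_add] at h
    have e2 : -((1 - cls x) * cls y) - (1 - 1 * (cls x * 1)) = -(pf x * (1 + cls y)) := by
      unfold pf
      ring
    rw [e2]
    exact neg_mem h
  · -- `n` odd, `m` even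
    rw [ez_odd hn, ez_even hm, res_cls_even _ (hm.mul_left n), res_cls_even _ hm,
      res_cls_odd _ hn]
    have e : ((1 - cst (cls x) * ⟨0, 1⟩) * (1 - cst (cls y) * 1) :
        Dbl (WittRing (ResidueField R))).im = -((1 - cls y) * cls x) := by
      have e1 : ((1 - cst (cls x) * ⟨0, 1⟩) * (1 - cst (cls y) * 1) :
        Dbl (WittRing (ResidueField R))) =
          cst (1 - cls y) - cst ((1 - cls y) * cls x) * ⟨0, 1⟩ := by
        rw [map_mul, map_sub, map_one]
        ring
      rw [e1, res_im]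
    rw [e]
    have h := res_pf_mul_mem y (-x)
    rw [← res_one_add] at h
    have e2 : -((1 - cls y) * cls x) - (1 - 1 * (1 * cls y)) = -(pf y * (1 + cls x)) := by
      unfold pf
      ring
    rw [e2]
    exact neg_mem h
  · -- both odd
    rw [ez_odd hn, ez_odd hm, res_cls_odd _ (hn.mul hm), res_cls_odd _ hm, res_cls_odd _ hn]
    have hee : ((⟨0, 1⟩ : Dbl (WittRing (ResidueField R))) * ⟨0, 1⟩) = 1 := eps_aux
    have e : ((1 - cst (cls x) * ⟨0, 1⟩) * (1 - cst (cls y) * ⟨0, 1⟩) :
        Dbl (WittRing (ResidueField R))).im = -(cls x + cls y) := by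
      have e1 : ((1 - cst (cls x) * ⟨0, 1⟩) * (1 - cst (cls y) * ⟨0, 1⟩) :
        Dbl (WittRing (ResidueField R))) =
          cst (1 + cls x * cls y) - cst (cls x + cls y) * ⟨0, 1⟩ := by
        rw [map_add, map_add, map_mul, map_one]
        linear_combination (cst (cls x) * cst (cls y)) * hee
      rw [e1, res_im]
    rw [e]
    have h := res_pf_mul_mem (-x) (-y)
    rw [← res_one_add, ← res_one_add] at h
    have e2 : -(cls x + cls y) - (1 - cls (-1) * (cls x * cls y)) =
        -((1 + cls x) * (1 + cls y)) := by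
      rw [cls_neg, cls_one]
      ring
    rw [e2]
    exact neg_mem h

theorem res_induction {K : Type} [Field K] {p : MilnorK2 K → Prop} (α : MilnorK2 K) (h0 : p 0)
    (h1 : ∀ a b : Kˣ, p (sym a b)) (h2 : ∀ x y, p x → p y → p (x + y)) : p α := by
  obtain ⟨t, rfl⟩ := QuotientAddGroup.mk_surjective (s := steinberg K) α
  induction t using TensorProduct.induction_on with
  | zero => exact h0
  | tmul a b => exact h1 a.toMul b.toMul
  | add x y hx hy => exact h2 _ _ hx hy

theorem stRes : StRes := by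
  intro K _ α
  induction α using res_induction with
  | h0 =>
    refine ⟨0, zero_mem _, ?_, ?_⟩
    · rw [map_zero]
      rfl
    · intro R _ _ _ _ _ ϖ hϖ
      rw [map_zero, map_zero]
      have : pf (Additive.toMul (0 : Additive (ResidueField R)ˣ)) = 0 := by
        unfold pf
        rw [toMul_zero, cls_one, sub_self]
      rw [this, sub_zero]
      exact zero_mem _
  | h1 a b =>
    refine ⟨pf a * pf b, res_pf_mul_mem a b, rfl, ?_⟩
    intro R _ _ _ _ _ ϖ hϖ
    exact res_sym R ϖ hϖ a b
  | h2 x y hx hy =>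
    obtain ⟨w, hw, hw1, hw2⟩ := hx
    obtain ⟨w', hw', hw1', hw2'⟩ := hy
    refine ⟨w + w', add_mem hw hw', ?_, ?_⟩
    · rw [map_add, hw1, hw1']
      rfl
    · intro R _ _ _ _ _ ϖ hϖ
      have h := add_mem (hw2 R ϖ hϖ) (hw2' R ϖ hϖ)
      have h3 := res_pf_mul_mem (Additive.toMul (tame K ϖ hϖ x)) (Additive.toMul (tame K ϖ hϖ y))
      have h4 := add_mem h h3
      rw [map_add, map_add, toMul_add]
      have e : res2 K ϖ hϖ w + res2 K ϖ hϖ w' -
          pf (Additive.toMul (tame K ϖ hϖ x) * Additive.toMul (tame K ϖ hϖ y)) =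
          (res2 K ϖ hϖ w - pf (Additive.toMul (tame K ϖ hϖ x))) +
          (res2 K ϖ hϖ w' - pf (Additive.toMul (tame K ϖ hϖ y))) +
          pf (Additive.toMul (tame K ϖ hϖ x)) * pf (Additive.toMul (tame K ϖ hϖ y)) := by
        unfold pf
        rw [cls_mul]
        ring
      rw [e]
      exact h4

end Pool.Agent.Y797.Q2
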