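import Pool.Agent.Y797.Q2.Base

/-!
# Statements of the steps

Each `St...` is proved in its own file.
-/

set_option autoImplicit false

noncomputable section

namespace Pool.Agent.Y797.Q2

open Polynomial IsLocalRing Pool.Agent.TH132.W

/-- The constants lie in the ring of functions. -/
theorem cK_mem_A0 {F K : Type} [Field F] [Field K] [Algebra F[X] K] [IsFractionRing F[X] K]
    (Q : F[X]) (hQ : Q.natDegree ≤ 2) (a : F) : cK (F := F) K a ∈ A0 K Q hQ :=
  ⟨0, C a, by simp, by rw [pow_zero, mul_one]; rfl⟩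

/-- The structure map of the ring of functions. -/
def strF (F K : Type) [Field F] [Field K] [Algebra F[X] K] [IsFractionRing F[X] K]
    (Q : F[X]) (hQ : Q.natDegree ≤ 2) : F →+* A0 K Q hQ :=
  (cK (F := F) K).codRestrict (A0 K Q hQ) (cK_mem_A0 Q hQ)

/-- The other structure of a rational function field, with variable `1 / t`. -/
@[reducible] def alg2 (F K : Type) [Field F] [Field K] [Algebra F[X] K] [IsFractionRing F[X] K] :
    Algebra F[X] K :=
  (eval₂RingHom (cK (F := F) K) (tv (F := F) K)⁻¹).toAlgebra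

/-- **Milnor's theorem** for `K₂` of a rational function field: unramified classes are
constant. -/
def StMilnor2 : Prop := ∀ (F K : Type) [Field F] [Field K] [Algebra F[X] K] [IsFractionRing F[X] K]
  (δ : MilnorK2 K), (∀ (π : F[X]), π.Monic → ∀ hi : Irreducible π,
    tame K (pol K π hi) (pol_irreducible K π hi) δ = 0) →
  δ ∈ AddSubgroup.closure {x | ∃ a b : Fˣ, x = sym (Units.map (cK (F := F) K : F →* K) a)
    (Units.map (cK (F := F) K : F →* K) b)}

/-- Residues of a lift of a class in `K₂`. -/
def StRes : Prop := ∀ (K : Type) [Field K] (α : MilnorK2 K), ∃ w ∈ fund K ^ 2,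
  pfister α = QuotientAddGroup.mk w ∧
  ∀ (R : Type) [CommRing R] [IsDomain R] [IsDiscreteValuationRing R] [Algebra R K]
    [IsFractionRing R K] (ϖ : R) (hϖ : Irreducible ϖ),
    res2 K ϖ hϖ w - pf (Additive.toMul (tame K ϖ hϖ α)) ∈ fund (ResidueField R) ^ 2

/-- The square of the fundamental ideal vanishes for algebraic extensions of finite fields. -/
def StFin : Prop := ∀ (κ : Type) [Field κ] (j : ZMod 5 →+* κ), j.IsIntegral → fund κ ^ 2 = ⊥

/-- The base field. -/
def StField : Prop := ∃ (k : Type) (_ : Field k) (j : ZMod 5 →+* k), Infinite k ∧ j.IsIntegral ∧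
  ∀ s : k, s ^ 2 ≠ 2

/-- The residue fields are algebraic over the base field. -/
def StKap : Prop := ∀ (F K : Type) [Field F] [Field K] [Algebra F[X] K] [IsFractionRing F[X] K]
  (R : Type) [CommRing R] [IsDomain R] [IsDiscreteValuationRing R] [Algebra R K]
  [IsFractionRing R K] (j : F →+* R), (∀ a, algebraMap R K (j a) = cK (F := F) K a) →
    (∃ r : R, algebraMap R K r = tv (F := F) K) → ((residue R).comp j).IsIntegral

/-- The local ring of the curve at a point. -/
def StPt : Prop := ∀ (F K : Type) [Field F] [Field K] [Algebra F[X] K] [IsFractionRing F[X] K]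
  (Q π : F[X]) (_ : Q.natDegree ≤ 2) (hi : Irreducible π), ¬ π ∣ Q →
  ∀ (A : Type) [CommRing A] [IsDomain A] [Algebra A K] [IsFractionRing A K],
    (∀ z : K, (∃ a : A, algebraMap A K a = z) ↔ Mem0 K Q z) →
    ∃ (P : Ideal A) (_ : P.IsPrime), ∀ (R : Type) [CommRing R] [Algebra A R] [Algebra R K]
      [IsScalarTower A R K] [IsLocalization.AtPrime R P],
      ∃ e : R ≃+* Oloc K π hi, ∀ z : R, ((e z : Oloc K π hi) : K) = algebraMap R K z

/-- The ring of functions has the expected field of fractions. -/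
def StFrac : Prop := ∀ (F K : Type) [Field F] [Field K] [Algebra F[X] K] [IsFractionRing F[X] K]
  (Q : F[X]) (hQ : Q.natDegree ≤ 2), Q ≠ 0 → IsFractionRing (A0 K Q hQ) K

/-- Tame symbols do not depend on the uniformizer, and only depend on the valuation ring. -/
def StEquiv : Prop := ∀ (K : Type) [Field K] (R R' : Type) [CommRing R] [IsDomain R]
  [IsDiscreteValuationRing R] [Algebra R K] [IsFractionRing R K] [CommRing R'] [IsDomain R']
  [IsDiscreteValuationRing R'] [Algebra R' K] [IsFractionRing R' K] (e : R ≃+* R'),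
  (∀ z, algebraMap R' K (e z) = algebraMap R K z) →
  ∀ (ϖ : R) (hϖ : Irreducible ϖ) (ϖ' : R') (hϖ' : Irreducible ϖ') (α : MilnorK2 K),
    tame K ϖ hϖ α = 0 → tame K ϖ' hϖ' α = 0

/-- The curve is smooth over the base field. -/
def StSmooth : Prop := ∀ (F K : Type) [Field F] [Field K] [Algebra F[X] K] [IsFractionRing F[X] K]
  (c : F), (strF F K (P0 c) (P0_deg c)).Smooth

/-- The second structure of a rational function field. -/
def StSwap : Prop := ∀ (F K : Type) [Field F] [Field K] [Algebra F[X] K] [IsFractionRing F[X] K],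
  @IsFractionRing F[X] _ K _ (alg2 F K) ∧
  ∀ (c : F) (z : K), (@Mem0 F K _ _ (alg2 F K) (Q0 c) z ↔ Mem0 K (P0 c) z)

/-- The polynomial has even order at all points of the curve. -/
def StEven : Prop := ∀ (R K : Type) [CommRing R] [IsDomain R] [IsDiscreteValuationRing R]
  [Field K] [Algebra R K] [IsFractionRing R K] (ϖ : R) (hϖ : Irreducible ϖ) (u v c : R)
  (p : Kˣ), v ^ 2 = u * (1 + c * u) → (p : K) * algebraMap R K u = 1 → Even (ord K ϖ hϖ p)

/-- The discriminant. -/
def StDisc : Prop := ∀ (K : Type) [Field K] (a b : Kˣ), pf a - pf b ∈ fund K ^ 2 → IsSquare (a * b)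

/-- Units of the curve are constant. -/
def StUnits : Prop := ∀ (F K : Type) [Field F] [Field K] [Algebra F[X] K] [IsFractionRing F[X] K]
  (c : F), Irreducible (P0 c) → ∀ u : Kˣ,
    (∀ (π : F[X]), π.Monic → ∀ hi : Irreducible π, π ≠ P0 c →
      ord K (pol K π hi) (pol_irreducible K π hi) u = 0) →
    ∃ (a : F) (n : ℤ), a ≠ 0 ∧ (u : K) = cK (F := F) K a * algebraMap F[X] K (P0 c) ^ n

end Pool.Agent.Y797.Q2
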