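import Pool.Agent.Y797.Q2.Main
import Pool.Agent.Y797.Q2.Loc

/-!
# The maps are not surjective
-/

set_option autoImplicit false
set_option maxHeartbeats 400000

noncomputable section

namespace Pool.Agent.Y797.Q2

open Polynomial IsLocalRing AlgebraicGeometry Pool.Agent.TH132.W

universe u v



section Abs4

variable {k : Type} [Field k] {A : CommRingCat.{0}} [IsDomain A]
  [Algebra k[X] (Spec A).functionField] [IsFractionRing k[X] (Spec A).functionField] (c : k)
  (hirr : Irreducible (P0 c))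
  (hA : ∀ z : (Spec A).functionField,
      (∃ a : A, algebraMap A (Spec A).functionField a = z) ↔ Mem0 (Spec A).functionField (P0 c) z)
  (j0 : k →+* A) (hj0 : ∀ a, algebraMap A (Spec A).functionField (j0 a) =
    cK (F := k) (Spec A).functionField a)

include hA hirr hj0 in
/-- **The map is not surjective in degree two.** -/
theorem not_surj (hSym : StSym) (hInf : StInf) (hPA : StPairA) (hPB : StPairB)
    (hC : StConst) (hCR : StConstRes) (hR3 : StRes3) (hNm : StNorm) (a : kˣ)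
    (ha : ∀ e0 e1 : k, e0 ^ 2 - c * e1 ^ 2 ≠ a ∧ e0 ^ 2 - c * e1 ^ 2 ≠ -a) :
    ∃ w ∈ fund (Spec A).functionField ^ 2, UnramW (Spec A) w ∧
      ∀ α, UnramK2 (Spec A) α → ¬ IsPfisterLift α w := by
  set p0 := pu (Spec A).functionField (P0 c) (P0_ne c) with hp0
  refine ⟨pf p0 * pf (cu _ a), ?_, ?_, ?_⟩
  · rw [pow_two]
    exact Ideal.mul_mem_mul (pf_mem p0) (pf_mem _)
  · refine unram_pair c hA j0 hj0 hPA hPB (a : k) 0 1 p0 (cu _ a) ⟨?_, ?_, one_ne_zero, ?_, ?_⟩
      1 one_ne_zero (one_pow 2).symm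
    · rw [map_one, one_mul]; rfl
    · rw [map_zero, zero_mul, add_zero]; rfl
    · simp
    · exact Or.inl ⟨rfl, rfl⟩
  · intro α hα hw
    obtain ⟨h0, h1, a0, p, h, hp, hc, hN⟩ := structure' c hirr hA j0 hj0 hSym hInf α hα
    obtain ⟨b, hb, hb'⟩ := pair_sq c hp hN
    obtain ⟨v, hv, hv'⟩ := hC k (Spec A).functionField _ hc
    rw [isPfisterLift_iff] at hw
    have e : α = sym p h + (α - sym p h) := by abel
    have h3 : (QuotientAddGroup.mk (pf p0 * pf (cu _ a)) :
        WittRing (Spec A).functionField ⧸ cube (Spec A).functionField) =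
        QuotientAddGroup.mk (pf p * pf h + map (cK (F := k) (Spec A).functionField) v) := by
      rw [← hw.2, e, map_add, hv', QuotientAddGroup.mk_add]
      rfl
    obtain ⟨e0, e1, he | he⟩ := local_norm c hirr hCR hR3 hNm a h0 h1 a0 p h hp hN b hb hb' v
      _ rfl _ rfl _ rfl (sub_of_mk_eq h3)
    · exact (ha e0 e1).1 he
    · exact (ha e0 e1).2 he

theorem pf_unram (a : ((Spec A).functionField)ˣ) (ha : UnramK1 (Spec A) a) :
    UnramW (Spec A) (pf a) := by
  refine unramW_of_res2 fun y _ ϖ hϖ => ?_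
  obtain ⟨v, hv⟩ := ha y
  refine lam_of_even ϖ hϖ a ?_
  rw [ord_of_eq ϖ hϖ a v v.isUnit hv]
  exact ⟨0, rfl⟩

include hA hirr hj0 in
/-- **The map is not surjective in degree one.** -/
theorem not_surj_one :
    ∃ w ∈ fund (Spec A).functionField, UnramW (Spec A) w ∧
      ∀ a, UnramK1 (Spec A) a → w - pf a ∉ fund (Spec A).functionField ^ 2 := by
  refine ⟨pf (pu (Spec A).functionField (P0 c) (P0_ne c)), pf_mem _, ?_, ?_⟩
  · exact unramW_of_res2 fun y _ ϖ hϖ => lam_of_even ϖ hϖ _ (even_pt c stEven hA y ϖ hϖ)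
  · intro a ha hmem
    obtain ⟨a', n, ha', he⟩ := stUnits k (Spec A).functionField c hirr a
      (fun π hm hi hπ => unram1_pt stPt (P0_deg c) hi (not_dvd c hm hi hirr hπ) hA a ha)
    obtain ⟨y, hD, ϖ, hϖ, -, hord⟩ := inf_pt c stPt stSwap hA
    obtain ⟨v, hv⟩ := ha y
    exact loc_one c hirr ϖ hϖ (jst j0 y) (jst_spec j0 hj0 y) hord a
      (ord_of_eq ϖ hϖ a v v.isUnit hv) a' ha' n he (stDisc _ _ _ hmem)

end Abs4

end Pool.Agent.Y797.Q2
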