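import Pool.Agent.Y797.Q2.St

/-!
# Induction for the second Milnor K-group, and uniqueness of residues
-/

set_option autoImplicit false

noncomputable section

namespace Pool.Agent.Y797.Q2

open Polynomial IsLocalRing Pool.Agent.TH132.W TensorProduct

universe u v

section Ind

variable {F : Type u} [Field F]

/-- The group `K₂` is generated by symbols. -/
theorem k2_ind {p : MilnorK2 F → Prop} (x : MilnorK2 F) (h0 : p 0) (hs : ∀ a b : Fˣ, p (sym a b))
    (hadd : ∀ x y, p x → p y → p (x + y)) : p x := by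
  obtain ⟨y, rfl⟩ := QuotientAddGroup.mk_surjective x
  induction y using TensorProduct.induction_on with
  | zero => exact h0
  | tmul a b => exact hs a.toMul b.toMul
  | add x y hx hy => exact hadd _ _ hx hy

theorem k2_hom_ext {M : Type v} [AddCommGroup M] {f g : MilnorK2 F →+ M}
    (h : ∀ a b : Fˣ, f (sym a b) = g (sym a b)) : f = g := by
  refine AddMonoidHom.ext fun x => ?_
  induction x using k2_ind with
  | h0 => simp
  | hs a b => exact h a b
  | hadd x y hx hy => rw [map_add, map_add, hx, hy]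

theorem sym_mul_left (a a' b : Fˣ) : sym (a * a') b = sym a b + sym a' b := by
  unfold sym
  rw [ofMul_mul, TensorProduct.add_tmul]
  rfl

theorem sym_mul_right (a b b' : Fˣ) : sym a (b * b') = sym a b + sym a b' := by
  unfold sym
  rw [ofMul_mul, TensorProduct.tmul_add]
  rfl

theorem pfister_uniq {φ : MilnorK2 F →+ WittRing F ⧸ cube F} (h : IsPfisterMap φ) :
    φ = pfister := k2_hom_ext fun a b => by rw [h a b, pfister_is a b]

end Ind

section Res

variable {R : Type u} {K : Type v} [CommRing R] [IsDomain R] [IsDiscreteValuationRing R]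
  [Field K] [Algebra R K] [IsFractionRing R K]

theorem piU_mk (ϖ : R) (hϖ : Irreducible ϖ) (n : ℤ) (u : Rˣ) :
    ((piU K ϖ hϖ ^ n * Units.map (algebraMap R K : R →* K) u : Kˣ) : K) =
      algebraMap R K ϖ ^ n * algebraMap R K u := by
  simp [piU]

theorem tame_uniq (ϖ : R) (hϖ : Irreducible ϖ) {τ : MilnorK2 K →+ Additive (ResidueField R)ˣ}
    (h : IsTameSymbol ϖ τ) : τ = tame K ϖ hϖ := by
  apply k2_hom_ext
  intro a b
  obtain ⟨n, u, rfl⟩ := exists_mk (K := K) ϖ hϖ a
  obtain ⟨m, v, rfl⟩ := exists_mk (K := K) ϖ hϖ b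
  rw [h n m u v _ _ (piU_mk ϖ hϖ n u) (piU_mk ϖ hϖ m v),
    tame_is K ϖ hϖ n m u v _ _ (piU_mk ϖ hϖ n u) (piU_mk ϖ hϖ m v)]

theorem res_uniq (ϖ : R) (hϖ : Irreducible ϖ) {δ : WittRing K →+ WittRing (ResidueField R)}
    (h : IsSecondResidue ϖ δ) : δ = res2 K ϖ hϖ := by
  apply hom_ext
  intro a
  obtain ⟨n, u, rfl⟩ := exists_mk (K := K) ϖ hϖ a
  rcases Int.even_or_odd n with hn | hn
  · rw [(h n u _ (piU_mk ϖ hϖ n u)).1 hn, res2_even K ϖ hϖ hn]
  · rw [(h n u _ (piU_mk ϖ hϖ n u)).2 hn, res2_odd K ϖ hϖ hn]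
    rfl

end Res

end Pool.Agent.Y797.Q2
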